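import Pool.Agent.Lib_MP_a95293_tn.Total

/-!
# Theorem Q for n-tuples
-/

set_option autoImplicit false

namespace Pool.MP_a95293_nt.TN

open Finset Pool.MP_a95293_nt.RC Pool.MP_a95293_nt.PQ

/-- the height -/
def htn {n : ℕ} (x : Fin n → ℤ) : ℕ := univ.sup fun j => (x j).natAbs

/-- the tuples -/
def Tpl (n B X : ℕ) : Set (Fin n → ℤ) :=
  {x | Adm x ∧ (4 ≤ n → ∀ i j, i ≠ j → IsCoprime (x i) (x j)) ∧ radZ (∏ j, x j) ≤ X ∧
    (htn x : ℝ) ≤ Real.exp (Real.exp (Real.log X ^ B))}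

/-- admissible triples are pairwise coprime -/
theorem adm_cop3 {x : Fin 3 → ℤ} (hx : Adm x) : ∀ i j, i ≠ j → IsCoprime (x i) (x j) := by
  obtain ⟨hgcd, hsum, hne⟩ := hx
  have hg : ∀ d : ℤ, d ∣ x 0 → d ∣ x 1 → d ∣ x 2 → IsUnit d := by
    intro d e0 e1 e2
    apply isUnit_of_dvd_one
    rw [← hgcd]
    apply Finset.dvd_gcd
    intro i _
    fin_cases i
    · exact e0
    · exact e1
    · exact e2
  have hs := hsum
  rw [Fin.sum_univ_three] at hs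
  intro i j hij
  rw [Int.isCoprime_iff_gcd_eq_one]
  have h1 : ((Int.gcd (x i) (x j) : ℕ) : ℤ) ∣ x i := Int.gcd_dvd_left _ _
  have h2 : ((Int.gcd (x i) (x j) : ℕ) : ℤ) ∣ x j := Int.gcd_dvd_right _ _
  set d : ℤ := ((Int.gcd (x i) (x j) : ℕ) : ℤ) with hd
  have h3 : IsUnit d := by
    have e0 : x 0 = -(x 1 + x 2) := by linarith
    have e1 : x 1 = -(x 0 + x 2) := by linarith
    have e2 : x 2 = -(x 0 + x 1) := by linarith
    fin_cases i <;> fin_cases j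
    · exact absurd rfl hij
    · exact hg d h1 h2 (by rw [e2]; exact (dvd_add h1 h2).neg_right)
    · exact hg d h1 (by rw [e1]; exact (dvd_add h1 h2).neg_right) h2
    · exact hg d h2 h1 (by rw [e2]; exact (dvd_add h2 h1).neg_right)
    · exact absurd rfl hij
    · exact hg d (by rw [e0]; exact (dvd_add h1 h2).neg_right) h1 h2
    · exact hg d h2 (by rw [e1]; exact (dvd_add h2 h1).neg_right) h1
    · exact hg d (by rw [e0]; exact (dvd_add h2 h1).neg_right) h2 h1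
    · exact absurd rfl hij
  rw [Int.isUnit_iff] at h3
  omega

theorem tpl_cadm {n B X : ℕ} (hn : 3 ≤ n) {x : Fin n → ℤ} (hx : x ∈ Tpl n B X) :
    CAdm (Real.exp (Real.exp (Real.log X ^ B))) x ∧ radZ (∏ j, x j) ≤ X := by
  have hc : ∀ i j, i ≠ j → IsCoprime (x i) (x j) := by
    rcases Nat.lt_or_ge 3 n with h | h
    · exact hx.2.1 h
    · have h3 : n = 3 := le_antisymm h hn
      subst h3
      exact adm_cop3 hx.1
  refine ⟨⟨hx.1, hc, fun i => ?_⟩, hx.2.2.1⟩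
  refine le_trans ?_ hx.2.2.2
  have h1 : (x i).natAbs ≤ htn x := Finset.le_sup (f := fun j => (x j).natAbs) (mem_univ i)
  rw [← Int.cast_abs, ← Nat.cast_natAbs]
  exact_mod_cast h1

theorem tpl_finite (n B X : ℕ) : (Tpl n B X).Finite := by
  set N : ℕ := ⌊Real.exp (Real.exp (Real.log X ^ B))⌋₊ with hN
  refine (Set.finite_Icc (fun _ : Fin n => -(N : ℤ)) (fun _ => (N : ℤ))).subset ?_
  intro x hx
  have h1 : htn x ≤ N := Nat.le_floor hx.2.2.2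
  have h2 : ∀ i, (x i).natAbs ≤ N := fun i => (Finset.le_sup (f := fun j => (x j).natAbs) (mem_univ i)).trans h1
  rw [Set.mem_Icc, Pi.le_def, Pi.le_def]
  constructor
  · intro i
    have := h2 i
    omega
  · intro i
    have := h2 i
    omega

/-- **Theorem Q.** -/
theorem topN (n B : ℕ) (hn : 3 ≤ n) :
    (∀ ε : ℝ, 0 < ε → ∃ X₀ : ℕ, ∀ X : ℕ, X₀ ≤ X →
      (({x | x ∈ Tpl n B X ∧ ¬ Shape ((X : ℝ) ^ ε) x} : Set (Fin n → ℤ)).ncard : ℝ) ≤ (X : ℝ) ^ (1 - ε / (4 * n))) ∧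
    (∀ η : ℝ, 0 < η → ∃ ε : ℝ, 0 < ε ∧ ∃ X₀ : ℕ, ∀ X : ℕ, X₀ ≤ X →
      (({x | x ∈ Tpl n B X ∧ Shape ((X : ℝ) ^ ε) x} : Set (Fin n → ℤ)).ncard : ℝ) ≤ (X : ℝ) ^ (1 - 1 / (n : ℝ) + η)) ∧
    ∃ δ : ℝ, 0 < δ ∧ ∃ X₀ : ℕ, ∀ X : ℕ, X₀ ≤ X → (Tpl n B X).Finite ∧ ((Tpl n B X).ncard : ℝ) ≤ (X : ℝ) ^ (1 - δ) := by
  classical
  have hn2 : 2 ≤ n := by omega
  refine ⟨fun ε hε => ?_, fun η hη => ?_, ?_⟩
  · obtain ⟨X₁, hX₁⟩ := structN n B hn2 hε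
    refine ⟨X₁, fun X hX => ?_⟩
    have hfin : ({x | x ∈ Tpl n B X ∧ ¬ Shape ((X : ℝ) ^ ε) x} : Set (Fin n → ℤ)).Finite :=
      (tpl_finite n B X).subset fun _ hx => hx.1
    rw [Set.ncard_eq_toFinset_card _ hfin]
    apply hX₁ X hX
    intro x hx
    rw [Set.Finite.mem_toFinset] at hx
    exact ⟨(tpl_cadm hn hx.1).1, (tpl_cadm hn hx.1).2, hx.2⟩
  · obtain ⟨ε, hε, X₁, hX₁⟩ := shapeN n B hn2 hη
    refine ⟨ε, hε, X₁, fun X hX => ?_⟩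
    have hfin : ({x | x ∈ Tpl n B X ∧ Shape ((X : ℝ) ^ ε) x} : Set (Fin n → ℤ)).Finite :=
      (tpl_finite n B X).subset fun _ hx => hx.1
    rw [Set.ncard_eq_toFinset_card _ hfin]
    apply hX₁ X hX
    intro x hx
    rw [Set.Finite.mem_toFinset] at hx
    exact ⟨(tpl_cadm hn hx.1).1, (tpl_cadm hn hx.1).2, hx.2⟩
  · obtain ⟨δ, hδ, X₁, hX₁⟩ := totalN n B hn2
    refine ⟨δ, hδ, X₁, fun X hX => ⟨tpl_finite n B X, ?_⟩⟩
    rw [Set.ncard_eq_toFinset_card _ (tpl_finite n B X)]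
    apply hX₁ X hX
    intro x hx
    rw [Set.Finite.mem_toFinset] at hx
    exact tpl_cadm hn hx

end Pool.MP_a95293_nt.TN
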