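import Pool.Agent.Lib_MP_a95293_tn.Sf

/-!
# Piece TN-USPLIT: minimal vanishing subsums
-/

set_option autoImplicit false

namespace Pool.MP_a95293_nt.TN

open Finset

/-- the bound for the number of solutions with `k` terms -/
def UBd (k C : ℕ) : Prop := ∀ (ι : Type) [Fintype ι] [DecidableEq ι], Fintype.card ι = k → ∀ S : Finset ℕ, (∀ p ∈ S, p.Prime) →
  ∀ (Λ : ℕ) (b : ι → ℤ), (∀ i, b i ≠ 0) → ∀ Z : Finset (ι → ℤ), (∀ x ∈ Z, USol S Λ b x) → Z.card ≤ Bd C S.card Λ

/-- PROOF: an element of minimal cardinality of the non-empty subsets of `P` with sum zero. -/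
theorem exists_min {ι : Type} [DecidableEq ι] (t : ι → ℤ) {P : Finset ι} (hP : P.Nonempty) (hsum : ∑ i ∈ P, t i = 0) :
    ∃ I ⊆ P, I.Nonempty ∧ ∑ i ∈ I, t i = 0 ∧ ∀ J ⊆ I, J.Nonempty → J ≠ I → ∑ i ∈ J, t i ≠ 0 := by
  classical
  have hne : (P.powerset.filter fun I => I.Nonempty ∧ ∑ i ∈ I, t i = 0).Nonempty :=
    ⟨P, Finset.mem_filter.2 ⟨Finset.mem_powerset.2 (Finset.Subset.refl P), hP, hsum⟩⟩
  obtain ⟨I, hI, hmin⟩ := Finset.exists_min_image _ Finset.card hne
  obtain ⟨hIP, hI1, hI2⟩ := Finset.mem_filter.1 hI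
  rw [Finset.mem_powerset] at hIP
  refine ⟨I, hIP, hI1, hI2, fun J hJ hJ1 hJI h => ?_⟩
  have h1 := hmin J (Finset.mem_filter.2 ⟨Finset.mem_powerset.2 (hJ.trans hIP), hJ1, h⟩)
  have h2 := Finset.card_lt_card (lt_of_le_of_ne hJ hJI)
  omega

/-- Base. PROOF: `b 0 x 0 = - b 1 x 1`; for two solutions `x 0 x' 1 = x' 0 x 1`, both pairs coprime, so `x' = ± x`. -/
theorem ubd_two : UBd 2 2 := by
  classical
  intro ι _ _ hι S _ Λ b hb Z hZ
  obtain ⟨i₀, i₁, hne, huniv⟩ := Finset.card_eq_two.1 (Finset.card_univ.trans hι)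
  have hall : ∀ i : ι, i = i₀ ∨ i = i₁ := by
    intro i
    have := Finset.mem_univ i
    rw [huniv] at this
    simpa using this
  have hcard : Z.card ≤ 2 := by
    rcases Z.eq_empty_or_nonempty with hem | ⟨x, hx⟩
    · rw [hem]
      simp
    have hsub : Z ⊆ {x, -x} := by
      intro y hy
      obtain ⟨a1, a2, -, -, a5, -⟩ := hZ x hx
      obtain ⟨c1, c2, -, -, c5, -⟩ := hZ y hy
      rw [huniv, Finset.sum_pair hne] at a5 c5
      have key : x i₀ * y i₁ = y i₀ * x i₁ := by
        have h1 : b i₀ * b i₁ * (x i₀ * y i₁) = b i₀ * b i₁ * (y i₀ * x i₁) := by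
          linear_combination (b i₁ * y i₁) * a5 - (b i₁ * x i₁) * c5
        exact mul_left_cancel₀ (mul_ne_zero (hb i₀) (hb i₁)) h1
      have d1 : x i₀ ∣ y i₀ := by
        have h2 : x i₀ ∣ y i₀ * x i₁ := ⟨y i₁, by rw [← key]⟩
        exact (a2 i₀ i₁ hne).dvd_of_dvd_mul_right h2
      have d2 : y i₀ ∣ x i₀ := by
        have h2 : y i₀ ∣ x i₀ * y i₁ := ⟨x i₁, by rw [key]⟩
        exact (c2 i₀ i₁ hne).dvd_of_dvd_mul_right h2
      rw [Finset.mem_insert, Finset.mem_singleton]
      rcases Int.associated_iff.1 (associated_of_dvd_dvd d1 d2) with h3 | h3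
      · left
        have h4 : y i₁ = x i₁ := by
          rw [h3] at key
          exact mul_left_cancel₀ (c1 i₀) key
        funext i
        rcases hall i with rfl | rfl
        · exact h3.symm
        · exact h4
      · right
        have h4 : y i₁ = - x i₁ := by
          rw [h3] at key
          have h5 : y i₀ * y i₁ = y i₀ * (- x i₁) := by linear_combination -key
          exact mul_left_cancel₀ (c1 i₀) h5
        funext i
        rcases hall i with rfl | rfl
        · rw [Pi.neg_apply, h3, neg_neg]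
        · exact h4
    exact (Finset.card_le_card hsub).trans Finset.card_le_two
  refine hcard.trans ?_
  unfold Bd
  have h1 : 2 ≤ 2 ^ (S.card + 1) * (Nat.log 2 Λ + 2) := by
    have h2 : 1 ≤ 2 ^ (S.card + 1) := Nat.one_le_two_pow
    nlinarith
  calc 2 ≤ 2 ^ (S.card + 1) * (Nat.log 2 Λ + 2) := h1
    _ = (2 ^ (S.card + 1) * (Nat.log 2 Λ + 2)) ^ 1 := (pow_one _).symm
    _ ≤ (2 ^ (S.card + 1) * (Nat.log 2 Λ + 2)) ^ 2 := Nat.pow_le_pow_right (by omega) (by omega)

/-- The restriction to a minimal set. -/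
private theorem USplit_restr {ι : Type} [Fintype ι] [DecidableEq ι] {S : Finset ℕ} {Λ : ℕ} {b x : ι → ℤ}
    (hx : USol S Λ b x) (B : ι → ℤ) (I : Finset ι) (hsum : ∑ o ∈ I, B o * x o = 0)
    (hmin : ∀ J ⊆ I, J.Nonempty → J ≠ I → ∑ o ∈ J, B o * x o ≠ 0) :
    USol S Λ (fun o : {o // o ∈ I} => B o.1) (fun o : {o // o ∈ I} => x o.1) := by
  obtain ⟨h1, h2, h3, h4, -, -⟩ := hx
  refine ⟨fun o => h1 _, fun o o' hoo => h2 _ _ fun h => hoo (Subtype.ext h), fun o => h3 _,
    fun o => h4 _, ?_, fun J hJ hJu => ?_⟩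
  · rw [← hsum, ← Finset.sum_coe_sort I]
  · have h8 := hmin (J.map (Function.Embedding.subtype _)) (fun o ho => by
      obtain ⟨o', -, rfl⟩ := Finset.mem_map.1 ho
      exact o'.2) (hJ.map) (fun h => hJu (by
        rw [Finset.eq_univ_iff_forall]
        intro o
        have h9 : o.1 ∈ J.map (Function.Embedding.subtype _) := by
          rw [h]
          exact o.2
        obtain ⟨o', ho', ho''⟩ := Finset.mem_map.1 h9
        have h10 : o' = o := Subtype.ext ho''
        rwa [h10] at ho'))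
    rw [Finset.sum_map] at h8
    exact h8

/-- the coefficients of the collapsed equation -/
private def USplit_b {ι : Type} (c : ℤ) (b : ι → ℤ) (I : Finset ι) : Option {i : ι // i ∉ I} → ℤ
  | none => c
  | some i => b i.1

/-- the entries of the collapsed equation -/
private def USplit_x {ι : Type} (x : ι → ℤ) (I : Finset ι) : Option {i : ι // i ∉ I} → ℤ
  | none => 1
  | some i => x i.1

/-- The sum over a set of the collapsed indices. -/
private theorem USplit_sum {ι : Type} [Fintype ι] [DecidableEq ι] (b x x0 : ι → ℤ) (I : Finset ι)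
    (hfib : ∀ i ∈ I, x i = x0 i) (J : Finset (Option {i : ι // i ∉ I})) :
    ∑ o ∈ J, USplit_b (∑ i ∈ I, b i * x0 i) b I o * USplit_x x I o =
      ∑ i ∈ (if none ∈ J then I else ∅) ∪ (univ.filter fun i : ι => ∃ h : i ∉ I, some ⟨i, h⟩ ∈ J),
        b i * x i := by
  classical
  have hdisj : Disjoint (if none ∈ J then I else ∅)
      (univ.filter fun i : ι => ∃ h : i ∉ I, some ⟨i, h⟩ ∈ J) := by
    rw [Finset.disjoint_left]
    intro i hi hi'
    obtain ⟨-, h, -⟩ := Finset.mem_filter.1 hi'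
    split_ifs at hi with h0
    · exact h hi
    · exact absurd hi (Finset.notMem_empty i)
  rw [Finset.sum_union hdisj]
  have hJ : ∑ o ∈ J, USplit_b (∑ i ∈ I, b i * x0 i) b I o * USplit_x x I o =
      ∑ o, if o ∈ J then USplit_b (∑ i ∈ I, b i * x0 i) b I o * USplit_x x I o else 0 := by
    rw [Finset.sum_ite_mem, Finset.univ_inter]
  rw [hJ, Fintype.sum_option]
  congr 1
  · by_cases h0 : none ∈ J
    · rw [if_pos h0, if_pos h0]
      simp only [USplit_b, USplit_x, mul_one]
      exact Finset.sum_congr rfl fun i hi => by rw [hfib i hi]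
    · rw [if_neg h0, if_neg h0, Finset.sum_empty]
  · rw [Finset.sum_filter]
    have h1 : ∑ i : ι, (if ∃ h : i ∉ I, some ⟨i, h⟩ ∈ J then b i * x i else 0) =
        ∑ i ∈ univ.filter (fun i : ι => i ∉ I), (if ∃ h : i ∉ I, some ⟨i, h⟩ ∈ J then b i * x i else 0) := by
      rw [Finset.sum_filter]
      refine Finset.sum_congr rfl fun i _ => ?_
      by_cases hi : i ∉ I
      · rw [if_pos hi]
      · rw [if_neg hi, if_neg]
        rintro ⟨h, -⟩
        exact hi h
    rw [h1, Finset.sum_subtype (univ.filter fun i : ι => i ∉ I) (p := fun i => i ∉ I) (by simp)]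
    refine Finset.sum_congr rfl fun i _ => ?_
    by_cases hi : some i ∈ J
    · rw [if_pos hi, if_pos ⟨i.2, hi⟩]
      rfl
    · rw [if_neg hi, if_neg]
      rintro ⟨h, h'⟩
      exact hi h'

private theorem USplit_coll {ι : Type} [Fintype ι] [DecidableEq ι] {S : Finset ℕ} {Λ : ℕ}
    {b x x0 : ι → ℤ} (hx : USol S Λ b x) (I : Finset ι) (hI : I.Nonempty)
    (hfib : ∀ i ∈ I, x i = x0 i) :
    USol S Λ (USplit_b (∑ i ∈ I, b i * x0 i) b I) (USplit_x x I) := by
  classical
  obtain ⟨h1, h2, h3, h4, h5, h6⟩ := hx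
  refine ⟨fun o => ?_, fun o o' hoo => ?_, fun o => ?_, fun o => ?_, ?_, fun J hJ hJu => ?_⟩
  · rcases o with _ | i
    · exact one_ne_zero
    · exact h1 _
  · rcases o with _ | i
    · exact isCoprime_one_left
    · rcases o' with _ | i'
      · exact isCoprime_one_right
      · refine h2 _ _ fun h => hoo ?_
        rw [Subtype.ext h]
  · rcases o with _ | i
    · simp [USplit_x]
    · exact h3 _
  · rcases o with _ | i
    · simp only [USplit_x, Int.natAbs_one]
      exact Nat.one_le_two_pow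
    · exact h4 _
  · rw [USplit_sum b x x0 I hfib univ, ← h5]
    refine Finset.sum_congr ?_ fun i _ => rfl
    rw [if_pos (Finset.mem_univ _), Finset.eq_univ_iff_forall]
    intro i
    by_cases hi : i ∈ I
    · exact Finset.mem_union_left _ hi
    · exact Finset.mem_union_right _ (Finset.mem_filter.2 ⟨Finset.mem_univ _, hi, Finset.mem_univ _⟩)
  · rw [USplit_sum b x x0 I hfib J]
    apply h6
    · obtain ⟨o, ho⟩ := hJ
      rcases o with _ | i
      · rw [if_pos ho]
        exact hI.mono Finset.subset_union_left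
      · exact ⟨i.1, Finset.mem_union_right _ (Finset.mem_filter.2 ⟨Finset.mem_univ _, i.2, ho⟩)⟩
    · intro h
      rw [Finset.eq_univ_iff_forall] at h
      apply hJu
      rw [Finset.eq_univ_iff_forall]
      intro o
      rcases o with _ | i
      · obtain ⟨i₀, hi₀⟩ := hI
        by_contra h0
        have h7 := h i₀
        rw [if_neg h0, Finset.empty_union, Finset.mem_filter] at h7
        obtain ⟨-, h8, -⟩ := h7
        exact h8 hi₀
      · have h7 := h i.1
        rcases Finset.mem_union.1 h7 with h8 | h8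
        · split_ifs at h8 with h0
          · exact absurd h8 i.2
          · exact absurd h8 (Finset.notMem_empty _)
        · obtain ⟨-, h9, h10⟩ := Finset.mem_filter.1 h8
          exact h10

/-- PROOF: `P = {i | b' i ≠ 0}` (`j ∉ P`, `P` not empty as `b' ≠ 0`). For `x ∈ Z` let `I x ⊆ P` be a minimal non-empty set with `∑_{I} b' i b i x i = 0` (`exists_min`), `2 ≤ |I| ≤ k - 1` (the terms are not zero).
At most `2^k` sets `I`. For fixed `I`: the restriction `x ↦ x|_I : {i // i ∈ I} → ℤ` is a solution with coefficients `b' i b i`, so takes at most `Bd C` values `z`. For fixed `z`: `c = ∑_I b i z i ≠ 0` (no vanishing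
proper subsum, `I ≠ univ`), `x ↦ (none ↦ 1, some i ↦ x i) : Option {i // i ∉ I} → ℤ` is injective on the fiber, a solution with coefficients `none ↦ c`, `some i ↦ b i`, number of terms `k - |I| + 1 ≤ k - 1`, at least 2. -/
theorem usplit {k C : ℕ} (hk : 3 ≤ k) (hC : ∀ k', 2 ≤ k' → k' < k → UBd k' C) (ι : Type) [Fintype ι] [DecidableEq ι] (hι : Fintype.card ι = k)
    (j : ι) (S : Finset ℕ) (hS : ∀ p ∈ S, p.Prime) (Λ : ℕ) (b : ι → ℤ) (hb : ∀ i, b i ≠ 0) (Z : Finset (ι → ℤ))
    (hZ : ∀ x ∈ Z, USol S Λ b x) (b' : ι → ℤ) (hb' : b' ≠ 0) (hj : b' j = 0) (hrel : ∀ x ∈ Z, ∑ i, b' i * b i * x i = 0) :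
    Z.card ≤ 2 ^ k * (Bd C S.card Λ * Bd C S.card Λ) := by
  classical
  have _ := hk
  set B : ι → ℤ := fun i => b' i * b i with hB
  have hPne : (univ.filter fun o => b' o ≠ 0).Nonempty := by
    obtain ⟨i, hi⟩ : ∃ i, b' i ≠ 0 := by
      by_contra h
      push Not at h
      exact hb' (funext h)
    exact ⟨i, Finset.mem_filter.2 ⟨Finset.mem_univ _, hi⟩⟩
  have hex : ∀ x, ∃ I : Finset ι, x ∈ Z → (I ⊆ univ.filter fun o => b' o ≠ 0) ∧ I.Nonempty ∧
      ∑ o ∈ I, B o * x o = 0 ∧
      ∀ J ⊆ I, J.Nonempty → J ≠ I → ∑ o ∈ J, B o * x o ≠ 0 := by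
    intro x
    by_cases hx : x ∈ Z
    · have h1 : ∑ o ∈ univ.filter (fun o => b' o ≠ 0), B o * x o = 0 := by
        rw [Finset.sum_filter_of_ne]
        · exact hrel x hx
        · intro o _ ho h
          apply ho
          simp only [hB, h, zero_mul]
      obtain ⟨I, hI1, hI2, hI3, hI4⟩ := exists_min (fun o => B o * x o) hPne h1
      exact ⟨I, fun _ => ⟨hI1, hI2, hI3, hI4⟩⟩
    · exact ⟨∅, fun h => absurd h hx⟩
  choose I hI using hex
  have hBne : ∀ x ∈ Z, ∀ o ∈ I x, B o ≠ 0 := by
    intro x hx o ho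
    exact mul_ne_zero (Finset.mem_filter.1 ((hI x hx).1 ho)).2 (hb o)
  have hcard2 : ∀ x ∈ Z, 2 ≤ (I x).card := by
    intro x hx
    obtain ⟨h1, h2, h3, -⟩ := hI x hx
    have h4 := h2.card_pos
    by_contra h5
    have h6 : (I x).card = 1 := by omega
    obtain ⟨o, ho⟩ := Finset.card_eq_one.1 h6
    rw [ho, Finset.sum_singleton] at h3
    have h7 : o ∈ I x := by
      rw [ho]
      exact Finset.mem_singleton_self o
    rcases mul_eq_zero.1 h3 with h8 | h8
    · exact hBne x hx o h7 h8
    · exact (hZ x hx).1 o h8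
  have hjI : ∀ x ∈ Z, j ∉ I x := by
    intro x hx h
    exact (Finset.mem_filter.1 ((hI x hx).1 h)).2 hj
  have hcardk : ∀ x ∈ Z, (I x).card < k := by
    intro x hx
    rw [← hι, ← Finset.card_univ]
    refine Finset.card_lt_card (lt_of_le_of_ne (Finset.subset_univ _) fun h => ?_)
    exact hjI x hx (by rw [h]; exact Finset.mem_univ j)
  have hfibI : ∀ J : Finset ι, (Z.filter fun x => I x = J).card ≤ Bd C S.card Λ * Bd C S.card Λ := by
    intro J
    rcases (Z.filter fun x => I x = J).eq_empty_or_nonempty with hem | ⟨y, hy⟩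
    · rw [hem]
      simp
    obtain ⟨hyZ, hyJ⟩ := Finset.mem_filter.1 hy
    have hJ2 : 2 ≤ J.card := by
      rw [← hyJ]
      exact hcard2 y hyZ
    have hJk : J.card < k := by
      rw [← hyJ]
      exact hcardk y hyZ
    have hJne : J.Nonempty := Finset.card_pos.1 (by omega)
    have hjJ : j ∉ J := by
      rw [← hyJ]
      exact hjI y hyZ
    have himg : ((Z.filter fun x => I x = J).image fun x => fun o : {o // o ∈ J} => x o.1).card ≤
        Bd C S.card Λ := by
      refine hC J.card hJ2 hJk {o // o ∈ J} (Fintype.card_coe J) S hS Λ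
        (fun o => B o.1) (fun o => ?_) _ fun z hz => ?_
      · have h1 := hBne y hyZ
        rw [hyJ] at h1
        exact h1 o.1 o.2
      · obtain ⟨x, hx, rfl⟩ := Finset.mem_image.1 hz
        obtain ⟨hxZ, hxJ⟩ := Finset.mem_filter.1 hx
        obtain ⟨-, -, h3, h4⟩ := hI x hxZ
        rw [hxJ] at h3 h4
        exact USplit_restr (hZ x hxZ) B J h3 h4
    have hfib : ∀ z ∈ (Z.filter fun x => I x = J).image (fun x => fun o : {o // o ∈ J} => x o.1),
        ((Z.filter fun x => I x = J).filter fun x =>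
          (fun o : {o // o ∈ J} => x o.1) = z).card ≤ Bd C S.card Λ := by
      intro z hz
      obtain ⟨x0, hx0, rfl⟩ := Finset.mem_image.1 hz
      obtain ⟨hx0Z, hx0J⟩ := Finset.mem_filter.1 hx0
      have hc : Fintype.card {i : ι // i ∉ J} = k - J.card := by
        rw [Fintype.card_subtype_compl, Fintype.card_coe, hι]
      have hval : ∀ x ∈ (Z.filter fun x => I x = J).filter (fun x =>
          (fun o : {o // o ∈ J} => x o.1) = fun o : {o // o ∈ J} => x0 o.1),
          ∀ i ∈ J, x i = x0 i := by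
        intro x hx i hi
        exact congrFun (Finset.mem_filter.1 hx).2 ⟨i, hi⟩
      have h1 : (((Z.filter fun x => I x = J).filter (fun x =>
          (fun o : {o // o ∈ J} => x o.1) = fun o : {o // o ∈ J} => x0 o.1)).image
            fun x => USplit_x x J).card ≤ Bd C S.card Λ := by
        refine hC (k - J.card + 1) (by omega) (by omega) (Option {i : ι // i ∉ J})
          (by rw [Fintype.card_option, hc]) S hS Λ (USplit_b (∑ i ∈ J, b i * x0 i) b J)
          (fun o => ?_) _ fun w hw => ?_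
        · rcases o with _ | i
          · exact (hZ x0 hx0Z).2.2.2.2.2 J hJne fun h => hjJ (by rw [h]; exact Finset.mem_univ j)
          · exact hb _
        · obtain ⟨x, hx, rfl⟩ := Finset.mem_image.1 hw
          have hxZ := (Finset.mem_filter.1 (Finset.mem_filter.1 hx).1).1
          exact USplit_coll (hZ x hxZ) J hJne (hval x hx)
      rwa [Finset.card_image_of_injOn] at h1
      intro x hx x' hx' hxx
      have hx1 := hval x hx
      have hx2 := hval x' hx'
      funext i
      by_cases hi : i ∈ J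
      · rw [hx1 i hi, hx2 i hi]
      · exact congrFun hxx (some ⟨i, hi⟩)
    exact (Finset.card_le_mul_card_image _ _ hfib).trans (Nat.mul_le_mul_left _ himg)
  have h1 : Z.card ≤ (Bd C S.card Λ * Bd C S.card Λ) * (Z.image I).card :=
    Finset.card_le_mul_card_image _ _ fun J _ => hfibI J
  have h2 : (Z.image I).card ≤ 2 ^ k := by
    refine (Finset.card_le_univ _).trans ?_
    rw [Fintype.card_finset, hι]
  calc Z.card ≤ (Bd C S.card Λ * Bd C S.card Λ) * (Z.image I).card := h1
    _ ≤ (Bd C S.card Λ * Bd C S.card Λ) * 2 ^ k := Nat.mul_le_mul_left _ h2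
    _ = 2 ^ k * (Bd C S.card Λ * Bd C S.card Λ) := by ring

end Pool.MP_a95293_nt.TN
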