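import Pool.Agent.Lib_MP_a95293_tn.TDefs

/-!
# Piece TN-ASY: the bound is `X^κ`
-/

set_option autoImplicit false

namespace Pool.MP_a95293_nt.TN

open Finset

private theorem asy_card (Y : ℕ) (S : Finset ℕ) (hS : ∀ p ∈ S, p.Prime) :
    Y ^ (S.card - Y) ≤ ∏ p ∈ S, p := by
  rcases Nat.eq_zero_or_pos Y with rfl | hY
  · rcases Nat.eq_zero_or_pos S.card with h | h
    · rw [Finset.card_eq_zero.1 h]; simp
    · rw [Nat.sub_zero, zero_pow (by omega)]; exact Nat.zero_le _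
  have h1 : (S.filter fun p => Y ≤ p).card ≥ S.card - Y := by
    have h2 := Finset.card_filter_add_card_filter_not (s := S) (fun p => Y ≤ p)
    have h3 : (S.filter fun p => ¬ Y ≤ p).card ≤ Y := by
      calc (S.filter fun p => ¬ Y ≤ p).card ≤ (Finset.range Y).card := by
            apply Finset.card_le_card
            intro p hp
            rw [Finset.mem_filter] at hp
            exact Finset.mem_range.2 (not_le.1 hp.2)
        _ = Y := Finset.card_range Y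
    omega
  calc Y ^ (S.card - Y) ≤ Y ^ (S.filter fun p => Y ≤ p).card := Nat.pow_le_pow_right hY h1
    _ ≤ ∏ p ∈ S.filter (fun p => Y ≤ p), p := by
        apply Finset.pow_card_le_prod
        intro p hp
        exact (Finset.mem_filter.1 hp).2
    _ ≤ ∏ p ∈ S, p := by
        apply Finset.prod_le_prod_of_subset_of_one_le'
        · exact Finset.filter_subset _ _
        · intro p hp _
          exact (hS p hp).one_lt.le

/-- PROOF: `|S|`: for every fixed integer `Y ≥ 2`, `Y ^ (|S| - Y) ≤ ∏ p ∈ S, p ≤ X` (at most `Y` of the primes are smaller than `Y`), so `|S| ≤ Y + log X / log Y` for all `Y`; choose `Y` with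
`C log (C + 1) / log Y ≤ κ / 4`. `Nat.log 2 Λ + 2 ≤ 2 (log X)^B + 6` or so (`Nat.log 2 Λ ≤ log Λ / log 2`), `(…)^C ≤ X^(κ/4)` for large `X`. -/
theorem Bd_small (C B : ℕ) {κ : ℝ} (hκ : 0 < κ) : ∃ X₀ : ℕ, ∀ X ≥ X₀, ∀ S : Finset ℕ, (∀ p ∈ S, p.Prime) → ∏ p ∈ S, p ≤ X →
    (Bd C S.card ⌈2 * Real.exp (Real.log X ^ B)⌉₊ : ℝ) ≤ (X : ℝ) ^ κ := by
  have hlogN : Filter.Tendsto (fun n : ℕ => Real.log (n : ℝ)) Filter.atTop Filter.atTop :=
    Real.tendsto_log_atTop.comp tendsto_natCast_atTop_atTop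
  set D : ℝ := C * Real.log (C + 1) with hD
  have hD0 : 0 ≤ D := mul_nonneg (Nat.cast_nonneg _) (Real.log_nonneg (by
    have : (0 : ℝ) ≤ C := Nat.cast_nonneg _
    linarith))
  obtain ⟨Y, hY2, hY⟩ : ∃ Y : ℕ, 2 ≤ Y ∧ 4 * D / κ ≤ Real.log Y := by
    have := (hlogN.eventually_ge_atTop (4 * D / κ)).and (Filter.eventually_ge_atTop 2)
    obtain ⟨Y, h1, h2⟩ := this.exists
    exact ⟨Y, h2, h1⟩
  have hlogY : 0 < Real.log Y := Real.log_pos (by exact_mod_cast (by omega : 1 < Y))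
  have hDY : D ≤ κ / 4 * Real.log Y := by
    rw [div_le_iff₀ hκ] at hY
    linarith
  have E1 : ∀ᶠ X : ℕ in Filter.atTop, D * (Y + 1) * 4 / κ ≤ Real.log X :=
    hlogN.eventually_ge_atTop _
  have E2 : ∀ᶠ X : ℕ in Filter.atTop, 8 ^ C * Real.log X ^ (B * C) ≤ (X : ℝ) ^ (κ / 2) := by
    have h1 := (isLittleO_log_rpow_rpow_atTop ((B * C : ℕ) : ℝ) (half_pos hκ)).bound
      (show (0 : ℝ) < 1 / 8 ^ C by positivity)
    have h2 := tendsto_natCast_atTop_atTop (R := ℝ) |>.eventually h1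
    filter_upwards [h2, Filter.eventually_ge_atTop 1] with X hX hX1
    have hlog0 : 0 ≤ Real.log X := Real.log_natCast_nonneg X
    rw [Real.rpow_natCast, Real.norm_of_nonneg (pow_nonneg hlog0 _),
      Real.norm_of_nonneg (Real.rpow_nonneg (Nat.cast_nonneg _) _)] at hX
    have h8 : (0 : ℝ) < 8 ^ C := by positivity
    calc 8 ^ C * Real.log X ^ (B * C) ≤ 8 ^ C * (1 / 8 ^ C * (X : ℝ) ^ (κ / 2)) :=
          mul_le_mul_of_nonneg_left hX h8.le
      _ = (X : ℝ) ^ (κ / 2) := by field_simp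
  have E3 : ∀ᶠ X : ℕ in Filter.atTop, 1 ≤ Real.log X := hlogN.eventually_ge_atTop 1
  obtain ⟨X₀, hX₀⟩ := Filter.eventually_atTop.1 ((E1.and E2).and (E3.and (Filter.eventually_ge_atTop 1)))
  refine ⟨X₀, fun X hX S hS hprod => ?_⟩
  obtain ⟨⟨e1, e2⟩, e3, e4⟩ := hX₀ X hX
  have hXpos : (0 : ℝ) < X := by exact_mod_cast e4
  set s := S.card with hs
  set T : ℝ := Real.log X ^ B with hT
  have hT1 : 1 ≤ T := one_le_pow₀ e3
  -- the number of primes
  have hcard : ((s : ℝ) - Y) * Real.log Y ≤ Real.log X := by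
    rcases le_or_gt s Y with h | h
    · have : ((s : ℝ) - Y) ≤ 0 := by
        have : (s : ℝ) ≤ Y := by exact_mod_cast h
        linarith
      nlinarith
    · have h1 : Y ^ (s - Y) ≤ X := (asy_card Y S hS).trans hprod
      have h2 : ((Y : ℝ)) ^ (s - Y) ≤ X := by exact_mod_cast h1
      have h3 := Real.log_le_log (by positivity) h2
      rw [Real.log_pow, Nat.cast_sub h.le] at h3
      exact h3
  -- the first factor
  have hf1 : ((C : ℝ) + 1) ^ ((s + 1) * C) ≤ (X : ℝ) ^ (κ / 2) := by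
    have hC1 : (0 : ℝ) < (C : ℝ) + 1 := by positivity
    rw [← Real.exp_log (pow_pos hC1 _), Real.log_pow, Real.rpow_def_of_pos hXpos, Real.exp_le_exp]
    push_cast
    have h1 : ((s : ℝ) + 1) * C * Real.log (C + 1) = D * (Y + 1) + ((s : ℝ) - Y) * D := by
      rw [hD]; ring
    rw [h1]
    have h2 : D * (Y + 1) ≤ κ / 4 * Real.log X := by
      rw [div_le_iff₀ hκ] at e1
      linarith
    have h3 : ((s : ℝ) - Y) * D ≤ κ / 4 * Real.log X := by
      rcases le_or_gt ((s : ℝ) - Y) 0 with h | h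
      · have : ((s : ℝ) - Y) * D ≤ 0 := mul_nonpos_of_nonpos_of_nonneg h hD0
        have : 0 ≤ κ / 4 * Real.log X := by positivity
        linarith
      · calc ((s : ℝ) - Y) * D ≤ ((s : ℝ) - Y) * (κ / 4 * Real.log Y) :=
              mul_le_mul_of_nonneg_left hDY h.le
          _ = κ / 4 * (((s : ℝ) - Y) * Real.log Y) := by ring
          _ ≤ κ / 4 * Real.log X := mul_le_mul_of_nonneg_left hcard (by positivity)
    linarith
  -- the second factor
  have hL : ((Nat.log 2 ⌈2 * Real.exp T⌉₊ : ℝ) + 2) ≤ 8 * T := by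
    have hexp1 : 1 ≤ Real.exp T := Real.one_le_exp (by linarith)
    have hceil : ((⌈2 * Real.exp T⌉₊ : ℕ) : ℝ) ≤ 3 * Real.exp T := by
      have := (Nat.ceil_lt_add_one (show (0 : ℝ) ≤ 2 * Real.exp T by positivity)).le
      linarith
    have hne : ⌈2 * Real.exp T⌉₊ ≠ 0 := by
      have : 0 < ⌈2 * Real.exp T⌉₊ := Nat.ceil_pos.2 (by positivity)
      omega
    have hpow : (2 : ℝ) ^ (Nat.log 2 ⌈2 * Real.exp T⌉₊) ≤ 3 * Real.exp T := by
      have := Nat.pow_log_le_self 2 hne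
      have h2 : ((2 : ℝ)) ^ (Nat.log 2 ⌈2 * Real.exp T⌉₊) ≤ ((⌈2 * Real.exp T⌉₊ : ℕ) : ℝ) := by
        exact_mod_cast this
      exact h2.trans hceil
    have hlog := Real.log_le_log (by positivity) hpow
    rw [Real.log_pow, Real.log_mul (by norm_num) (Real.exp_pos _).ne', Real.log_exp] at hlog
    have hlog2 : (1 : ℝ) / 2 ≤ Real.log 2 := by
      have := Real.log_two_gt_d9
      linarith
    have hlog3 : Real.log 3 ≤ 2 := by
      have := Real.log_le_sub_one_of_pos (show (0 : ℝ) < 3 by norm_num)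
      linarith
    have hn : (0 : ℝ) ≤ (Nat.log 2 ⌈2 * Real.exp T⌉₊ : ℝ) := Nat.cast_nonneg _
    nlinarith
  have hf2 : ((Nat.log 2 ⌈2 * Real.exp T⌉₊ : ℝ) + 2) ^ C ≤ (X : ℝ) ^ (κ / 2) := by
    calc ((Nat.log 2 ⌈2 * Real.exp T⌉₊ : ℝ) + 2) ^ C ≤ (8 * T) ^ C :=
          pow_le_pow_left₀ (by positivity) hL _
      _ = 8 ^ C * Real.log X ^ (B * C) := by rw [mul_pow, hT, pow_mul]
      _ ≤ (X : ℝ) ^ (κ / 2) := e2
  have hsplit : (X : ℝ) ^ κ = (X : ℝ) ^ (κ / 2) * (X : ℝ) ^ (κ / 2) := by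
    rw [← Real.rpow_add hXpos]; congr 1; ring
  rw [hsplit]
  unfold Bd
  push_cast
  rw [mul_pow, ← pow_mul]
  refine mul_le_mul ?_ hf2 (by positivity) (by positivity)
  refine le_trans (pow_le_pow_left₀ (by positivity) (by linarith) _) hf1

/-- PROOF: `log 2 ≥ 1/2`, so `2 ^ Λ = exp (Λ log 2) ≥ exp (exp T)` for `Λ ≥ 2 exp T`. -/
theorem abs_le_two_pow {x : ℤ} {T : ℝ} (hx : |(x : ℝ)| ≤ Real.exp (Real.exp T)) : x.natAbs ≤ 2 ^ ⌈2 * Real.exp T⌉₊ := by
  have h1 : Real.exp (Real.exp T) ≤ (2 : ℝ) ^ ⌈2 * Real.exp T⌉₊ := by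
    rw [← Real.exp_log (pow_pos (show (0 : ℝ) < 2 by norm_num) ⌈2 * Real.exp T⌉₊), Real.log_pow, Real.exp_le_exp]
    have hlog2 : (1 : ℝ) / 2 ≤ Real.log 2 := by
      have := Real.log_two_gt_d9
      linarith
    have hc : 2 * Real.exp T ≤ (⌈2 * Real.exp T⌉₊ : ℝ) := Nat.le_ceil _
    have he := Real.exp_pos T
    nlinarith
  have h2 : ((x.natAbs : ℕ) : ℝ) ≤ ((2 ^ ⌈2 * Real.exp T⌉₊ : ℕ) : ℝ) := by
    rw [Nat.cast_natAbs, Int.cast_abs]
    push_cast
    exact hx.trans h1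
  exact_mod_cast h2

end Pool.MP_a95293_nt.TN
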