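import Pool.Agent.Lib_MP_a95293_tn.TDefs

/-!
# Piece TN-KEYS: counting exponent vectors; a bound with keys
-/

set_option autoImplicit false

namespace Pool.MP_a95293_nt.TN

open Finset

private theorem Keys_geom (T : ℕ) : ∑ m ∈ range (T + 1), 2 ^ (T - m) < 2 ^ (T + 1) := by
  induction T with
  | zero => simp
  | succ T ih =>
    rw [Finset.sum_range_succ']
    have h : ∀ k ∈ range (T + 1), 2 ^ (T + 1 - (k + 1)) = 2 ^ (T - k) := by
      intro k _
      congr 1
      omega
    rw [Finset.sum_congr rfl h]
    have h2 : (2 : ℕ) ^ (T + 1 + 1) = 2 ^ (T + 1) + 2 ^ (T + 1) := by ring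
    simp only [Nat.sub_zero]
    omega

/-- PROOF: `F` injects (restriction to `S`) into `Fintype.piFinset (fun _ : S => range (T + 1))`, and `1 ≤ 2^T ∏ (1/2)^(f a)`; sum over the `piFinset` (`Finset.prod_univ_sum`): at most
`2^T * (∑ m ∈ range (T+1), (1/2)^m)^|S| ≤ 2^T 2^|S|`. (Or induction on `S` with `F` replaced by the fibers.) -/
theorem card_exp {α : Type} [DecidableEq α] (S : Finset α) (T : ℕ) (F : Finset (α → ℕ)) (hF : ∀ f ∈ F, (∀ a, a ∉ S → f a = 0) ∧ ∑ a ∈ S, f a ≤ T) :
    F.card ≤ 2 ^ (T + S.card) := by
  classical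
  induction S using Finset.induction_on generalizing T F with
  | empty =>
    have h1 : F ⊆ {fun _ => 0} := by
      intro f hf
      rw [Finset.mem_singleton]
      funext a
      exact (hF f hf).1 a (Finset.notMem_empty a)
    calc F.card ≤ ({fun _ => 0} : Finset (α → ℕ)).card := Finset.card_le_card h1
      _ = 1 := Finset.card_singleton _
      _ ≤ 2 ^ (T + (∅ : Finset α).card) := Nat.one_le_two_pow
  | insert a S ha ih =>
    have h1 : F.card = ∑ m ∈ range (T + 1), (F.filter (fun f => f a = m)).card := by
      apply Finset.card_eq_sum_card_fiberwise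
      intro f hf
      have := (hF f hf).2
      rw [Finset.sum_insert ha] at this
      simp only [Finset.coe_range, Set.mem_Iio]
      omega
    have h2 : ∀ m ∈ range (T + 1), (F.filter (fun f => f a = m)).card ≤ 2 ^ (T - m) * 2 ^ S.card := by
      intro m hm
      have hinj : Set.InjOn (fun f : α → ℕ => Function.update f a 0) (F.filter (fun f => f a = m)) := by
        intro f hf g hg hfg
        have hf' := (Finset.mem_filter.1 (Finset.mem_coe.1 hf)).2
        have hg' := (Finset.mem_filter.1 (Finset.mem_coe.1 hg)).2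
        funext b
        by_cases hb : b = a
        · rw [hb, hf', hg']
        · have := congrFun hfg b
          simpa [Function.update_of_ne hb] using this
      rw [← Finset.card_image_of_injOn hinj, ← pow_add]
      apply ih
      intro g hg
      obtain ⟨f, hf, rfl⟩ := Finset.mem_image.1 hg
      obtain ⟨hfF, hfa⟩ := Finset.mem_filter.1 hf
      obtain ⟨hz, hs⟩ := hF f hfF
      constructor
      · intro b hb
        by_cases hba : b = a
        · rw [hba]; simp
        · rw [Function.update_of_ne hba]
          apply hz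
          rw [Finset.mem_insert]
          tauto
      · rw [Finset.sum_insert ha, hfa] at hs
        have h3 : ∑ b ∈ S, Function.update f a 0 b = ∑ b ∈ S, f b := by
          apply Finset.sum_congr rfl
          intro b hb
          rw [Function.update_of_ne]
          rintro rfl
          exact ha hb
        rw [h3]
        omega
    rw [h1, Finset.card_insert_of_notMem ha]
    calc ∑ m ∈ range (T + 1), (F.filter (fun f => f a = m)).card
        ≤ ∑ m ∈ range (T + 1), 2 ^ (T - m) * 2 ^ S.card := Finset.sum_le_sum h2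
      _ = (∑ m ∈ range (T + 1), 2 ^ (T - m)) * 2 ^ S.card := by rw [Finset.sum_mul]
      _ ≤ 2 ^ (T + 1) * 2 ^ S.card := Nat.mul_le_mul_right _ (Keys_geom T).le
      _ = 2 ^ (T + (S.card + 1)) := by ring

/-- PROOF: `F ⊆ Fintype.piFinset fun i => F.image (· i)`, `card_exp`. -/
theorem card_key {κ α : Type} [Fintype κ] [DecidableEq κ] [DecidableEq α] (S : Finset α) (T : ℕ) (F : Finset (κ → α → ℕ))
    (hF : ∀ f ∈ F, ∀ i, (∀ a, a ∉ S → f i a = 0) ∧ ∑ a ∈ S, f i a ≤ T) : F.card ≤ (2 ^ (T + S.card)) ^ Fintype.card κ := by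
  classical
  have h1 : F ⊆ Fintype.piFinset (fun i => F.image (fun f => f i)) := by
    intro f hf
    rw [Fintype.mem_piFinset]
    intro i
    exact Finset.mem_image_of_mem (fun f : κ → α → ℕ => f i) hf
  have h2 : ∀ i : κ, (F.image (fun f => f i)).card ≤ 2 ^ (T + S.card) := by
    intro i
    apply card_exp
    intro g hg
    obtain ⟨f, hf, rfl⟩ := Finset.mem_image.1 hg
    exact hF f hf i
  calc F.card ≤ (Fintype.piFinset (fun i => F.image (fun f => f i))).card := Finset.card_le_card h1
    _ = ∏ i : κ, (F.image (fun f => f i)).card := Fintype.card_piFinset _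
    _ ≤ ∏ _i : κ, 2 ^ (T + S.card) := Finset.prod_le_prod' (fun i _ => h2 i)
    _ = (2 ^ (T + S.card)) ^ Fintype.card κ := by
      rw [Finset.prod_const, Finset.card_univ]

end Pool.MP_a95293_nt.TN
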