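import Pool.Agent.Lib_MP_a95293_tn.Step
import Pool.Agent.Lib_MP_a95293_tn.Keys

/-!
# Piece TN-COVER: windows and classes
-/

set_option autoImplicit false

namespace Pool.MP_a95293_nt.TN

open Finset

private theorem Cover_arith (k s : ℕ) : (2 ^ (2 * (6 * (k + 1) * (s + 1)) + s)) ^ k * (2 * (6 * (k + 1) * (s + 1)) + 1) ≤
    (2 ^ (k * (12 * (k + 1) + 1) + 12 * (k + 1) + 1)) ^ (s + 1) := by
  have h1 : 2 * (6 * (k + 1) * (s + 1)) + 1 ≤ 2 ^ (2 * (6 * (k + 1) * (s + 1)) + 1) := Nat.lt_two_pow_self.le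
  refine (Nat.mul_le_mul_left _ h1).trans ?_
  rw [← pow_mul, ← pow_mul, ← pow_add]
  apply Nat.pow_le_pow_right (by norm_num)
  have h2 : s * k ≤ k * (s + 1) := by
    rw [mul_comm]
    exact Nat.mul_le_mul_left _ (Nat.le_succ s)
  calc (2 * (6 * (k + 1) * (s + 1)) + s) * k + (2 * (6 * (k + 1) * (s + 1)) + 1)
      = k * (12 * (k + 1)) * (s + 1) + s * k + 12 * (k + 1) * (s + 1) + 1 := by ring
    _ ≤ k * (12 * (k + 1)) * (s + 1) + k * (s + 1) + 12 * (k + 1) * (s + 1) + (s + 1) := by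
        have : 1 ≤ s + 1 := by omega
        omega
    _ = (k * (12 * (k + 1) + 1) + 12 * (k + 1) + 1) * (s + 1) := by ring

/-- the window of a number -/
private theorem Cover_win {h' H Λ : ℕ} (h2 : 2 ≤ h') (h3 : h' ≤ H) (h4 : H ≤ h' * 2 ^ Λ) :
    Nat.log 2 ⌊Real.log H / Real.log h'⌋₊ < Nat.log 2 Λ + 2 ∧
      (2 : ℝ) ^ (Nat.log 2 ⌊Real.log H / Real.log h'⌋₊) * Real.log h' ≤ Real.log H ∧
      Real.log H ≤ 2 * ((2 : ℝ) ^ (Nat.log 2 ⌊Real.log H / Real.log h'⌋₊) * Real.log h') := by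
  have g2 : (2 : ℝ) ≤ h' := by exact_mod_cast h2
  have g3 : (h' : ℝ) ≤ H := by exact_mod_cast h3
  have g4 : (H : ℝ) ≤ h' * 2 ^ Λ := by exact_mod_cast h4
  have l2 : Real.log 2 ≤ Real.log h' := Real.log_le_log (by norm_num) g2
  have l0 : 0 < Real.log 2 := Real.log_pos (by norm_num)
  have lh : 0 < Real.log h' := l0.trans_le l2
  have l3 : Real.log h' ≤ Real.log H := Real.log_le_log (by linarith) g3
  have l4 : Real.log H ≤ Real.log h' + Λ * Real.log 2 := by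
    have := Real.log_le_log (by linarith) g4
    rwa [Real.log_mul (by linarith) (by positivity), Real.log_pow] at this
  set q := Real.log H / Real.log h' with hq
  have q1 : 1 ≤ q := by rw [hq, le_div_iff₀ lh]; linarith
  have q2 : q ≤ Λ + 1 := by
    rw [hq, div_le_iff₀ lh]
    have : (Λ : ℝ) * Real.log 2 ≤ Λ * Real.log h' := mul_le_mul_of_nonneg_left l2 (Nat.cast_nonneg _)
    linarith
  have f1 : 1 ≤ ⌊q⌋₊ := Nat.le_floor (by exact_mod_cast q1)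
  have f2 : ⌊q⌋₊ ≤ Λ + 1 := Nat.floor_le_of_le (by exact_mod_cast q2)
  have f3 : (2 : ℕ) ^ Nat.log 2 ⌊q⌋₊ ≤ ⌊q⌋₊ := Nat.pow_log_le_self 2 (by omega)
  have f4 : ⌊q⌋₊ < 2 ^ (Nat.log 2 ⌊q⌋₊ + 1) := Nat.lt_pow_succ_log_self (by norm_num) _
  have f5 : (⌊q⌋₊ : ℝ) ≤ q := Nat.floor_le (by linarith)
  have f6 : q < ⌊q⌋₊ + 1 := Nat.lt_floor_add_one q
  refine ⟨?_, ?_, ?_⟩
  · have e1 : Nat.log 2 ⌊q⌋₊ ≤ Nat.log 2 (Λ * 2 + 1) := Nat.log_mono_right (by omega)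
    rcases Nat.eq_zero_or_pos Λ with h0 | h0
    · subst h0
      have e2 : ⌊q⌋₊ = 1 := by omega
      rw [e2]
      simp
    · have e2 : Nat.log 2 ⌊q⌋₊ ≤ Nat.log 2 (Λ * 2) := Nat.log_mono_right (by omega)
      rw [Nat.log_mul_base (by norm_num) (by omega)] at e2
      omega
  · have e1 : (2 : ℝ) ^ Nat.log 2 ⌊q⌋₊ ≤ q := le_trans (by exact_mod_cast f3) f5
    calc (2 : ℝ) ^ Nat.log 2 ⌊q⌋₊ * Real.log h' ≤ q * Real.log h' := mul_le_mul_of_nonneg_right e1 lh.le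
      _ = Real.log H := by rw [hq]; exact div_mul_cancel₀ _ lh.ne'
  · have e1 : q ≤ 2 * (2 : ℝ) ^ Nat.log 2 ⌊q⌋₊ := by
      have e2 : (⌊q⌋₊ : ℝ) + 1 ≤ (2 : ℝ) ^ (Nat.log 2 ⌊q⌋₊ + 1) := by exact_mod_cast f4
      rw [pow_succ] at e2
      linarith
    calc Real.log H = q * Real.log h' := by rw [hq]; exact (div_mul_cancel₀ _ lh.ne').symm
      _ ≤ (2 * (2 : ℝ) ^ Nat.log 2 ⌊q⌋₊) * Real.log h' := mul_le_mul_of_nonneg_right e1 lh.le
      _ = 2 * ((2 : ℝ) ^ Nat.log 2 ⌊q⌋₊ * Real.log h') := by ring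

/-- the sum of the keys -/
private theorem Cover_sum {S : Finset ℕ} (hS : ∀ p ∈ S, p.Prime) {y Q : ℕ} {L : ℝ} (hL : 0 < L) {v : ℕ → ℕ} (h1 : ∏ p ∈ S, p ^ v p ≤ y)
    (h2 : Real.log y ≤ 2 * L) : ∑ p ∈ S, ⌊(Q : ℝ) * (v p * Real.log p) / L⌋₊ ≤ 2 * Q := by
  have h3 : ((∑ p ∈ S, ⌊(Q : ℝ) * (v p * Real.log p) / L⌋₊ : ℕ) : ℝ) ≤ ((2 * Q : ℕ) : ℝ) := by
    push_cast
    calc ∑ p ∈ S, (⌊(Q : ℝ) * (v p * Real.log p) / L⌋₊ : ℝ) ≤ ∑ p ∈ S, (Q : ℝ) * (v p * Real.log p) / L := by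
          refine sum_le_sum fun p hp => Nat.floor_le ?_
          have : 0 ≤ Real.log p := Real.log_natCast_nonneg p
          positivity
      _ = Q * (∑ p ∈ S, v p * Real.log p) / L := by rw [← sum_div, mul_sum]
      _ = Q * Real.log ((∏ p ∈ S, p ^ v p : ℕ) : ℝ) / L := by
          rw [Nat.cast_prod, Real.log_prod]
          · congr 2
            refine sum_congr rfl fun p _ => ?_
            rw [Nat.cast_pow, Real.log_pow]
          · intro p hp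
            have := (hS p hp).pos
            positivity
      _ ≤ Q * (2 * L) / L := by
          have h4 : Real.log ((∏ p ∈ S, p ^ v p : ℕ) : ℝ) ≤ 2 * L := by
            refine le_trans (Real.log_le_log ?_ (by exact_mod_cast h1)) h2
            exact_mod_cast Finset.prod_pos fun p hp => pow_pos (hS p hp).pos _
          gcongr
      _ = 2 * Q := by field_simp
  exact_mod_cast h3

/-- PROOF: `C₁ = (k! k)^6`, `h' = max h (C₁ + 1) ≥ 2`. For `a ∈ A` let `H a` be the maximum of `|Y a i|`. The `a` with `H a ≤ C₁` are one set `A'`. For the others `h' ≤ H a ≤ h' 2^Λ`; window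
`W a = Nat.log 2 ⌊log (H a) / log h'⌋₊` (at most `Nat.log 2 (Λ + 1) ≤ Nat.log 2 Λ + 1`), `L = 2^(W a) log h'`, so `exp L ≤ H a ≤ exp (2 L)` and `(k! k)^3 < exp (L/2)`; keys
`m a i p = ⌊Q (v a i p log p) / L⌋₊` for `p ∈ S`, zero for `p ∉ S`, and `⌊Q log |Y a j| / L⌋₊ ≤ 2 Q`; `∑_p m a i p ≤ Q log |Y a i| / L ≤ 2 Q` (`|Y a i| ≥ ∏ p^v`, as `r i * w ≥ 1`). By `card_key` at most
`(2^(2Q + s))^k (2Q+1)` keys per window; each (window, keys) class satisfies a relation by `step_rel`. Use `Finset.card_le_mul_card_image`. -/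
theorem cover (k : ℕ) : ∃ C : ℕ, 1 ≤ C ∧ ∀ (κ : Type) [Fintype κ] [DecidableEq κ], Fintype.card κ = k → ∀ (j : κ) (S : Finset ℕ),
    (∀ p ∈ S, p.Prime) → ∀ (r : κ → ℕ) (α : Type) [DecidableEq α] (A : Finset α) (Y : α → κ → ℤ) (v : α → κ → ℕ → ℕ) (w : α → ℕ),
    (∀ a ∈ A, Vec j S r (Y a) (v a) (w a)) → ∀ h Λ : ℕ, (∀ a ∈ A, ∃ i, h ≤ (Y a i).natAbs) →
    (∀ a ∈ A, ∀ i, (Y a i).natAbs ≤ h * 2 ^ Λ) → ∀ N : ℕ,
    (∀ A' ⊆ A, ((∃ b : κ → ℤ, b ≠ 0 ∧ b j = 0 ∧ ∀ a ∈ A', ∑ i, b i * Y a i = 0) ∨ (∀ a ∈ A', ∀ i, (Y a i).natAbs ≤ C)) →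
      A'.card ≤ N) →
    A.card ≤ C ^ (S.card + 1) * (Nat.log 2 Λ + 2) * N := by
  classical
  set t := k * (12 * (k + 1) + 1) + 12 * (k + 1) + 1 with ht
  set C₁ := (k.factorial * k) ^ 6 with hC₁
  refine ⟨C₁ + 2 ^ t + 1, Nat.le_add_left 1 _, ?_⟩
  intro κ _ _ hκ j S hS r α _ A Y v w hY h Λ hlow hup N hN
  have hk1 : 1 ≤ k := by
    rw [← hκ]
    exact Fintype.card_pos_iff.2 ⟨j⟩
  have hC₁1 : 1 ≤ C₁ := Nat.one_le_pow _ _ (Nat.mul_pos (Nat.factorial_pos k) hk1)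
  set s := S.card with hs
  set Q := 6 * (k + 1) * (s + 1) with hQ
  set H : α → ℕ := fun a => univ.sup fun i => (Y a i).natAbs with hH
  have hHi : ∀ a i, (Y a i).natAbs ≤ H a := fun a i => le_sup (f := fun i => (Y a i).natAbs) (mem_univ i)
  have hHe : ∀ a, ∃ i, H a = (Y a i).natAbs := by
    intro a
    obtain ⟨i, -, hi⟩ := exists_mem_eq_sup (univ : Finset κ) ⟨j, mem_univ j⟩ fun i => (Y a i).natAbs
    exact ⟨i, hi⟩
  set h' := max h (C₁ + 1) with hh'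
  have hh2 : 2 ≤ h' := le_trans (by omega) (le_max_right _ _)
  set W : α → ℕ := fun a => Nat.log 2 ⌊Real.log (H a) / Real.log h'⌋₊ with hW
  set L : ℕ → ℝ := fun u => (2 : ℝ) ^ u * Real.log h' with hLd
  have hlh : 0 < Real.log h' := Real.log_pos (by exact_mod_cast (lt_of_lt_of_le one_lt_two hh2))
  have hL0 : ∀ u, 0 < L u := fun u => mul_pos (pow_pos (by norm_num) _) hlh
  set A₀ := A.filter fun a => H a ≤ C₁ with hA₀
  set A₁ := A.filter fun a => ¬ H a ≤ C₁ with hA₁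
  have hcard : A₀.card + A₁.card = A.card := card_filter_add_card_filter_not _
  have hA₀N : A₀.card ≤ N := by
    refine hN A₀ (filter_subset _ _) (Or.inr fun a ha i => ?_)
    have := (mem_filter.1 ha).2
    exact (hHi a i).trans (this.trans (by rw [add_assoc]; exact Nat.le_add_right _ _))
  -- facts on the elements of A₁
  have hwin : ∀ a ∈ A₁, W a < Nat.log 2 Λ + 2 ∧ L (W a) ≤ Real.log (H a) ∧ Real.log (H a) ≤ 2 * L (W a) := by
    intro a ha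
    obtain ⟨haA, haC⟩ := mem_filter.1 ha
    have e1 : h' ≤ H a := by
      rw [hh', max_le_iff]
      obtain ⟨i, hi⟩ := hlow a haA
      exact ⟨hi.trans (hHi a i), by omega⟩
    have e2 : H a ≤ h' * 2 ^ Λ := by
      obtain ⟨i, hi⟩ := hHe a
      rw [hi]
      exact (hup a haA i).trans (Nat.mul_le_mul_right _ (le_max_left _ _))
    exact Cover_win hh2 e1 e2
  have hprod : ∀ a ∈ A, ∀ i, ∏ p ∈ S, p ^ v a i p ≤ (Y a i).natAbs := by
    intro a ha i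
    obtain ⟨g0, -, -, g1, g2, -⟩ := hY a ha
    have hne : (Y a i).natAbs ≠ 0 := Int.natAbs_ne_zero.2 (g0 i)
    by_cases hij : i = j
    · subst hij
      apply Nat.le_of_dvd (Nat.pos_of_ne_zero hne)
      rw [g2]
      exact Dvd.intro_left (r i) rfl |>.mul_right _
    · apply Nat.le_of_dvd (Nat.pos_of_ne_zero hne)
      rw [g1 i hij]
      exact Dvd.intro_left (r i) rfl
  -- the key
  set f : α → ℕ × ℕ × (κ → ℕ → ℕ) := fun a => (W a, ⌊(Q : ℝ) * Real.log ((Y a j).natAbs : ℝ) / L (W a)⌋₊,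
    fun i p => if p ∈ S then ⌊(Q : ℝ) * (v a i p * Real.log p) / L (W a)⌋₊ else 0) with hf
  set F := (A₁.image f).image fun y => y.2.2 with hF
  have hlogY : ∀ a ∈ A₁, ∀ i, Real.log ((Y a i).natAbs : ℝ) ≤ 2 * L (W a) := by
    intro a ha i
    have hne : (Y a i).natAbs ≠ 0 := Int.natAbs_ne_zero.2 ((hY a (mem_filter.1 ha).1).1 i)
    refine le_trans (Real.log_le_log ?_ ?_) (hwin a ha).2.2
    · exact_mod_cast Nat.pos_of_ne_zero hne
    · exact_mod_cast hHi a i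
  have hFc : F.card ≤ (2 ^ (2 * Q + s)) ^ k := by
    rw [← hκ]
    apply card_key S (2 * Q) F
    intro g hg i
    rw [hF, mem_image] at hg
    obtain ⟨y, hy, rfl⟩ := hg
    obtain ⟨a, ha, rfl⟩ := mem_image.1 hy
    refine ⟨fun p hp => by simp [hf, hp], ?_⟩
    have e1 : ∑ p ∈ S, (f a).2.2 i p = ∑ p ∈ S, ⌊(Q : ℝ) * (v a i p * Real.log p) / L (W a)⌋₊ :=
      sum_congr rfl fun p hp => by simp [hf, hp]
    rw [e1]
    exact Cover_sum hS (hL0 _) (hprod a (mem_filter.1 ha).1 i) (hlogY a ha i)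
  have himg : A₁.image f ⊆ range (Nat.log 2 Λ + 2) ×ˢ (range (2 * Q + 1) ×ˢ F) := by
    intro y hy
    have hy' := hy
    obtain ⟨a, ha, rfl⟩ := mem_image.1 hy
    rw [mem_product, mem_product, mem_range, mem_range]
    refine ⟨(hwin a ha).1, ?_, mem_image_of_mem _ hy'⟩
    rw [Nat.lt_succ_iff]
    have e2 : (Q : ℝ) * Real.log ((Y a j).natAbs : ℝ) / L (W a) ≤ ((2 * Q : ℕ) : ℝ) := by
      rw [div_le_iff₀ (hL0 _)]
      push_cast
      have := hlogY a ha j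
      have hQ0 : (0 : ℝ) ≤ Q := Nat.cast_nonneg _
      nlinarith
    exact Nat.floor_le_of_le e2
  have hfib : ∀ y ∈ A₁.image f, (A₁.filter fun a => f a = y).card ≤ N := by
    intro y hy
    obtain ⟨a₀, ha₀, hy₀⟩ := mem_image.1 hy
    refine hN _ ((filter_subset _ _).trans (filter_subset _ _)) (Or.inl ?_)
    have hWy : ∀ a ∈ A₁.filter (fun a => f a = y), W a = y.1 := by
      intro a ha
      rw [← (mem_filter.1 ha).2]
    have hres := step_rel (κ := κ) (j := j) (S := S) hS (r := r) (A := {a | a ∈ A₁.filter fun a => f a = y})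
      ⟨a₀, mem_filter.2 ⟨ha₀, hy₀⟩⟩ (Y := Y) (v := v) (w := w)
      (fun a ha => hY a (mem_filter.1 (mem_filter.1 ha).1).1) (L := L y.1) ?_ ?_ (Q := Q) ?_ ?_ ?_
    · obtain ⟨b, hb1, hb2, hb3⟩ := hres
      exact ⟨b, hb1, hb2, fun a ha => hb3 a ha⟩
    · rw [hκ]
      have e1 : ((C₁ : ℕ) : ℝ) + 1 ≤ h' := by exact_mod_cast le_max_right h (C₁ + 1)
      have e2 : Real.log h' ≤ L y.1 := by
        rw [hLd]
        have : (1 : ℝ) ≤ (2 : ℝ) ^ y.1 := one_le_pow₀ (by norm_num)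
        nlinarith
      have e3 : (h' : ℝ) ≤ Real.exp (L y.1) := by
        rw [← Real.log_le_iff_le_exp (by linarith [(Nat.cast_nonneg C₁ : (0 : ℝ) ≤ C₁)])]
        exact e2
      have e4 : ((((k.factorial : ℝ) * (k : ℝ)) ^ 3) ^ 2) < (Real.exp (L y.1 / 2)) ^ 2 := by
        have e5 : (Real.exp (L y.1 / 2)) ^ 2 = Real.exp (L y.1) := by
          rw [← Real.exp_nat_mul]
          congr 1
          push_cast
          ring
        rw [e5]
        have e6 : (((k.factorial : ℝ) * (k : ℝ)) ^ 3) ^ 2 = ((C₁ : ℕ) : ℝ) := by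
          rw [hC₁]
          push_cast
          ring
        rw [e6]
        linarith
      exact lt_of_pow_lt_pow_left₀ 2 (Real.exp_pos _).le e4
    · intro a ha
      have ha1 := (mem_filter.1 ha).1
      obtain ⟨i, hi⟩ := hHe a
      refine ⟨i, ?_⟩
      rw [← hi, ← hWy a ha]
      have e1 := (hwin a ha1).2.1
      have e2 : (0 : ℝ) < H a := by
        have : ¬ H a ≤ C₁ := (mem_filter.1 ha1).2
        exact_mod_cast (by omega : 0 < H a)
      rw [← Real.le_log_iff_exp_le e2]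
      exact e1
    · rw [hκ]
    · intro a ha a' ha' i p hp
      have e1 : f a = f a' := (mem_filter.1 ha).2.trans (mem_filter.1 ha').2.symm
      have e2 : (f a).2.2 i p = (f a').2.2 i p := by rw [e1]
      simp only [hf, if_pos hp] at e2
      rw [hWy a ha, hWy a' ha'] at e2
      exact e2
    · intro a ha a' ha'
      have e1 : f a = f a' := (mem_filter.1 ha).2.trans (mem_filter.1 ha').2.symm
      have e2 : (f a).2.1 = (f a').2.1 := by rw [e1]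
      simp only [hf] at e2
      rw [hWy a ha, hWy a' ha'] at e2
      exact e2
  have hA₁N : A₁.card ≤ N * ((Nat.log 2 Λ + 2) * (2 ^ t) ^ (s + 1)) := by
    refine (card_le_mul_card_image A₁ N hfib).trans (Nat.mul_le_mul_left _ ?_)
    refine (card_le_card himg).trans ?_
    rw [card_product, card_product, card_range, card_range]
    refine Nat.mul_le_mul_left _ ?_
    calc (2 * Q + 1) * F.card ≤ (2 * Q + 1) * (2 ^ (2 * Q + s)) ^ k := Nat.mul_le_mul_left _ hFc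
      _ = (2 ^ (2 * Q + s)) ^ k * (2 * Q + 1) := mul_comm _ _
      _ ≤ (2 ^ t) ^ (s + 1) := Cover_arith k s
  have hpow : 1 + (2 ^ t) ^ (s + 1) ≤ (C₁ + 2 ^ t + 1) ^ (s + 1) := by
    calc 1 + (2 ^ t) ^ (s + 1) ≤ (C₁ + 1) ^ (s + 1) + (2 ^ t) ^ (s + 1) :=
          Nat.add_le_add_right (Nat.one_le_pow _ _ (by omega)) _
      _ ≤ ((C₁ + 1) + 2 ^ t) ^ (s + 1) := pow_add_pow_le (Nat.zero_le _) (Nat.zero_le _) (by omega)
      _ = (C₁ + 2 ^ t + 1) ^ (s + 1) := by ring_nf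
  rw [← hcard]
  calc A₀.card + A₁.card ≤ N + N * ((Nat.log 2 Λ + 2) * (2 ^ t) ^ (s + 1)) := Nat.add_le_add hA₀N hA₁N
    _ ≤ N * (Nat.log 2 Λ + 2) + N * ((Nat.log 2 Λ + 2) * (2 ^ t) ^ (s + 1)) :=
        Nat.add_le_add_right (Nat.le_mul_of_pos_right _ (by omega)) _
    _ = (1 + (2 ^ t) ^ (s + 1)) * (Nat.log 2 Λ + 2) * N := by ring
    _ ≤ (C₁ + 2 ^ t + 1) ^ (s + 1) * (Nat.log 2 Λ + 2) * N :=
        Nat.mul_le_mul_right _ (Nat.mul_le_mul_right _ hpow)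

end Pool.MP_a95293_nt.TN
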