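import Pool.Agent.Lib_MP_a95293_tn.TDefs

/-!
# Piece TN-SF: the part prime to S; bounds
-/

set_option autoImplicit false

namespace Pool.MP_a95293_nt.TN

open Finset

/-- PROOF: `Nat.factorization_mul`, `Finsupp.filter_add`, `Finsupp.prod_add_index'`. -/
theorem sf_mul (S : Finset ℕ) {m n : ℕ} (hm : m ≠ 0) (hn : n ≠ 0) : sf S (m * n) = sf S m * sf S n := by
  unfold sf
  rw [Nat.factorization_mul hm hn, Finsupp.filter_add]
  exact Finsupp.prod_add_index' (fun a => pow_zero a) (fun a b₁ b₂ => pow_add a b₁ b₂)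

theorem sf_one (S : Finset ℕ) {m : ℕ} (h : m.primeFactors ⊆ S) : sf S m = 1 := by
  have h0 : (m.factorization.filter fun p => p ∉ S) = 0 := by
    rw [Finsupp.filter_eq_zero_iff]
    intro p hp
    rw [← Finsupp.notMem_support_iff, Nat.support_factorization]
    exact fun hp' => hp (h hp')
  unfold sf
  rw [h0, Finsupp.prod_zero_index]

private theorem pow_fac_pos_Sf (m p : ℕ) : 1 ≤ p ^ m.factorization p := by
  by_cases h : m.factorization p = 0
  · rw [h, pow_zero]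
  · have hp : p ∈ m.primeFactors := by
      rw [← Nat.support_factorization]
      exact Finsupp.mem_support_iff.2 h
    exact Nat.one_le_pow _ _ (Nat.prime_of_mem_primeFactors hp).pos

private theorem sf_eq_Sf (S : Finset ℕ) (m : ℕ) :
    sf S m = ∏ p ∈ m.primeFactors.filter (fun p => p ∉ S), p ^ m.factorization p := by
  unfold sf Finsupp.prod
  rw [Finsupp.support_filter, Nat.support_factorization]
  refine Finset.prod_congr rfl fun p hp => ?_
  have e : (m.factorization.filter fun p => p ∉ S) p = m.factorization p :=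
    Finsupp.filter_apply_pos (fun p => p ∉ S) m.factorization (Finset.mem_filter.1 hp).2
  simp only [e]

/-- PROOF: `Nat.factorization_prod_pow_eq_self`, `Finsupp.prod_filter_mul_prod_filter_not`; primes of `S` which do not divide `m` have exponent 0. -/
theorem sf_mul_prod {S : Finset ℕ} (hS : ∀ p ∈ S, p.Prime) {m : ℕ} (hm : m ≠ 0) : m = sf S m * ∏ p ∈ S, p ^ m.factorization p := by
  have _ := hS
  have h1 : m = ∏ p ∈ m.primeFactors, p ^ m.factorization p := by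
    conv_lhs => rw [← Nat.prod_factorization_pow_eq_self hm]
    unfold Finsupp.prod
    rw [Nat.support_factorization]
  have h2 : ∏ p ∈ S, p ^ m.factorization p = ∏ p ∈ m.primeFactors.filter (fun p => ¬ p ∉ S), p ^ m.factorization p := by
    symm
    apply Finset.prod_subset
    · intro p hp
      exact not_not.1 (Finset.mem_filter.1 hp).2
    · intro p hp hn
      have : p ∉ m.primeFactors := fun h => hn (Finset.mem_filter.2 ⟨h, not_not.2 hp⟩)
      rw [← Nat.support_factorization, Finsupp.notMem_support_iff] at this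
      rw [this, pow_zero]
  rw [h2, sf_eq_Sf, Finset.prod_filter_mul_prod_filter_not]
  exact h1

theorem sf_pos (S : Finset ℕ) (m : ℕ) : 1 ≤ sf S m := by
  rw [sf_eq_Sf]
  exact Finset.one_le_prod' fun p _ => pow_fac_pos_Sf m p

theorem sf_dvd (S : Finset ℕ) {m n : ℕ} (hn : n ≠ 0) (h : m ∣ n) : sf S m ∣ sf S n := by
  obtain ⟨k, rfl⟩ := h
  rw [sf_mul S (left_ne_zero_of_mul hn) (right_ne_zero_of_mul hn)]
  exact Dvd.intro _ rfl

/-- PROOF: the primes of `m` outside `S` are in `K`. -/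
theorem sf_le_prod (S K : Finset ℕ) {m : ℕ} (hm : m ≠ 0) (h : m.primeFactors ⊆ S ∪ K) : sf S m ≤ ∏ p ∈ K, p ^ m.factorization p := by
  have _ := hm
  rw [sf_eq_Sf]
  apply Finset.prod_le_prod_of_subset_of_one_le'
  · intro p hp
    have hp' := Finset.mem_filter.1 hp
    rcases Finset.mem_union.1 (h hp'.1) with h1 | h1
    · exact absurd h1 hp'.2
    · exact h1
  · intro p _ _
    exact pow_fac_pos_Sf m p

private theorem base_pos_Sf {C s Λ : ℕ} (hC : 1 ≤ C) : 1 ≤ C ^ (s + 1) * (Nat.log 2 Λ + 2) :=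
  Nat.mul_pos (Nat.one_le_pow _ _ hC) (by omega)

private theorem base_mono_Sf {C C' s Λ : ℕ} (h : C ≤ C') :
    C ^ (s + 1) * (Nat.log 2 Λ + 2) ≤ C' ^ (s + 1) * (Nat.log 2 Λ + 2) :=
  Nat.mul_le_mul_right _ (Nat.pow_le_pow_left h _)

theorem Bd_mono {C C' s Λ : ℕ} (hC : 1 ≤ C) (h : C ≤ C') : Bd C s Λ ≤ Bd C' s Λ := by
  unfold Bd
  calc (C ^ (s + 1) * (Nat.log 2 Λ + 2)) ^ C ≤ (C' ^ (s + 1) * (Nat.log 2 Λ + 2)) ^ C :=
        Nat.pow_le_pow_left (base_mono_Sf h) _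
    _ ≤ (C' ^ (s + 1) * (Nat.log 2 Λ + 2)) ^ C' :=
        Nat.pow_le_pow_right (base_pos_Sf (hC.trans h)) h

theorem Bd_mul {C C' s Λ : ℕ} (hC : 1 ≤ C) (hC' : 1 ≤ C') : Bd C s Λ * Bd C' s Λ ≤ Bd (C + C') s Λ := by
  have _ := hC
  have _ := hC'
  unfold Bd
  rw [pow_add ((C + C') ^ (s + 1) * (Nat.log 2 Λ + 2)) C C']
  exact Nat.mul_le_mul (Nat.pow_le_pow_left (base_mono_Sf (Nat.le_add_right _ _)) _)
    (Nat.pow_le_pow_left (base_mono_Sf (Nat.le_add_left _ _)) _)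

theorem le_Bd {C s Λ : ℕ} (hC : 1 ≤ C) : C ^ (s + 1) * (Nat.log 2 Λ + 2) ≤ Bd C s Λ := by
  unfold Bd
  calc C ^ (s + 1) * (Nat.log 2 Λ + 2) = (C ^ (s + 1) * (Nat.log 2 Λ + 2)) ^ 1 := (pow_one _).symm
    _ ≤ (C ^ (s + 1) * (Nat.log 2 Λ + 2)) ^ C := Nat.pow_le_pow_right (base_pos_Sf hC) hC

private theorem log_shift_Sf (c t Λ : ℕ) :
    Nat.log 2 (c * Λ + t) + 2 ≤ (c + t + 3) * (Nat.log 2 Λ + 2) := by
  have h1 : Λ < 2 ^ (Nat.log 2 Λ + 1) := Nat.lt_pow_succ_log_self (by norm_num) Λ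
  have h2 : c < 2 ^ c := Nat.lt_two_pow_self
  have h3 : t < 2 ^ t := Nat.lt_two_pow_self
  set L := Nat.log 2 Λ with hL
  have h4 : c * Λ ≤ 2 ^ (c + t + L + 1) := by
    calc c * Λ ≤ 2 ^ c * 2 ^ (L + 1) := Nat.mul_le_mul h2.le h1.le
      _ = 2 ^ (c + (L + 1)) := (pow_add _ _ _).symm
      _ ≤ 2 ^ (c + t + L + 1) := Nat.pow_le_pow_right (by norm_num) (by omega)
  have h5 : t < 2 ^ (c + t + L + 1) :=
    lt_of_lt_of_le h3 (Nat.pow_le_pow_right (by norm_num) (by omega))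
  have h6 : c * Λ + t < 2 ^ (c + t + L + 2) := by
    have : 2 ^ (c + t + L + 2) = 2 ^ (c + t + L + 1) + 2 ^ (c + t + L + 1) := by
      rw [pow_succ]; ring
    omega
  have h7 : Nat.log 2 (c * Λ + t) < c + t + L + 2 := Nat.log_lt_of_lt_pow' (by omega) h6
  nlinarith [Nat.zero_le ((c + t) * L), Nat.zero_le L, Nat.zero_le c, Nat.zero_le t]

/-- PROOF: `Nat.log 2 (Λ + t) ≤ Nat.log 2 Λ + t + 1` and so on: `C' = C * (t + 3)`, say: `Nat.log 2 (c * Λ + t) + 2 ≤ (c + t + 3) * (Nat.log 2 Λ + 2)`. -/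
theorem Bd_shift (C c t : ℕ) : ∃ C' : ℕ, 1 ≤ C' ∧ ∀ s Λ : ℕ, Bd C s (c * Λ + t) ≤ Bd C' s Λ := by
  rcases Nat.eq_zero_or_pos C with h0 | h0
  · refine ⟨1, le_refl 1, fun s Λ => ?_⟩
    subst h0
    unfold Bd
    rw [pow_zero]
    exact Nat.one_le_pow _ _ (base_pos_Sf (le_refl 1))
  · have hC' : 1 ≤ C * (c + t + 3) := Nat.mul_pos h0 (by omega)
    refine ⟨C * (c + t + 3), hC', fun s Λ => ?_⟩
    unfold Bd
    have h1 : C ^ (s + 1) * (Nat.log 2 (c * Λ + t) + 2) ≤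
        (C * (c + t + 3)) ^ (s + 1) * (Nat.log 2 Λ + 2) := by
      calc C ^ (s + 1) * (Nat.log 2 (c * Λ + t) + 2)
          ≤ C ^ (s + 1) * ((c + t + 3) * (Nat.log 2 Λ + 2)) := Nat.mul_le_mul_left _ (log_shift_Sf c t Λ)
        _ = C ^ (s + 1) * (c + t + 3) * (Nat.log 2 Λ + 2) := (mul_assoc _ _ _).symm
        _ ≤ C ^ (s + 1) * (c + t + 3) ^ (s + 1) * (Nat.log 2 Λ + 2) := by
            apply Nat.mul_le_mul_right
            apply Nat.mul_le_mul_left
            calc c + t + 3 = (c + t + 3) ^ 1 := (pow_one _).symm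
              _ ≤ (c + t + 3) ^ (s + 1) := Nat.pow_le_pow_right (by omega) (by omega)
        _ = (C * (c + t + 3)) ^ (s + 1) * (Nat.log 2 Λ + 2) := by rw [mul_pow]
    calc (C ^ (s + 1) * (Nat.log 2 (c * Λ + t) + 2)) ^ C
        ≤ ((C * (c + t + 3)) ^ (s + 1) * (Nat.log 2 Λ + 2)) ^ C := Nat.pow_le_pow_left h1 _
      _ ≤ ((C * (c + t + 3)) ^ (s + 1) * (Nat.log 2 Λ + 2)) ^ (C * (c + t + 3)) :=
          Nat.pow_le_pow_right (base_pos_Sf hC') (Nat.le_mul_of_pos_right _ (by omega))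

end Pool.MP_a95293_nt.TN
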