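import Pool.Agent.Lib_MP_a95293_tn.USplit

/-!
# Piece TN-TSPLIT
-/

set_option autoImplicit false

namespace Pool.MP_a95293_nt.TN

open Finset

/-- the bound for the number of solutions with `m` full sides and one free side -/
def TBd (m C : ℕ) : Prop := ∀ (ι : Type) [Fintype ι] [DecidableEq ι], Fintype.card ι = m → ∀ S : Finset ℕ, (∀ p ∈ S, p.Prime) →
  ∀ (Λ : ℕ) (c : ℤ) (Z : Finset (Option ι → ℤ)), (∀ x ∈ Z, TSol S Λ c x) → Z.card ≤ Bd C S.card Λ

/-- PROOF: `x none = - c`. -/
theorem tbd_zero : TBd 0 1 := by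
  intro ι _ _ hι S hS Λ c Z hZ
  have hE : IsEmpty ι := Fintype.card_eq_zero_iff.1 hι
  have h1 : Z.card ≤ 1 := by
    rw [Finset.card_le_one]
    intro x hx y hy
    have h2 := (hZ x hx).2.2.2.2.2.1
    have h3 := (hZ y hy).2.2.2.2.2.1
    rw [Fintype.sum_option] at h2 h3
    simp only [Finset.univ_eq_empty, Finset.sum_empty] at h2 h3
    funext o
    cases o with
    | none => linarith
    | some i => exact hE.elim i
  refine h1.trans ?_
  unfold Bd
  simp

/-- the coefficients of the relation -/
private def TSplit_B {ι : Type} (v : ℤ) (b : ι → ℤ) : Option ι → ℤ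
  | none => v
  | some i => b i

/-- the entries of the relation -/
private def TSplit_x {ι : Type} (x : Option ι → ℤ) : Option ι → ℤ
  | none => 1
  | some i => x (some i)

/-- the embedding of the remaining entries -/
private def TSplit_e {ι : Type} (I : Finset (Option ι)) : Option {i : ι // some i ∉ I} → Option ι
  | none => none
  | some i => some i.1

private theorem TSplit_e_inj {ι : Type} (I : Finset (Option ι)) : Function.Injective (TSplit_e I) := by
  intro a b hab
  cases a with
  | none =>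
    cases b with
    | none => rfl
    | some b => exact absurd hab (by simp [TSplit_e])
  | some a =>
    cases b with
    | none => exact absurd hab (by simp [TSplit_e])
    | some b =>
      have h1 : (some a.1 : Option ι) = some b.1 := hab
      rw [Subtype.ext (Option.some.inj h1)]

private theorem TSplit_usol {ι : Type} [Fintype ι] [DecidableEq ι] {S : Finset ℕ} {Λ : ℕ} {c : ℤ}
    {x : Option ι → ℤ} (hx : TSol S Λ c x) (v : ℤ) (b : ι → ℤ) (I : Finset (Option ι))
    (hsum : ∑ o ∈ I, TSplit_B v b o * TSplit_x x o = 0)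
    (hmin : ∀ J ⊆ I, J.Nonempty → J ≠ I → ∑ o ∈ J, TSplit_B v b o * TSplit_x x o ≠ 0) :
    USol S Λ (fun o : {o // o ∈ I} => TSplit_B v b o.1) (fun o : {o // o ∈ I} => TSplit_x x o.1) := by
  obtain ⟨h1, h2, h3, h4, h5, h6, h7⟩ := hx
  refine ⟨fun o => ?_, fun o o' hoo => ?_, fun o => ?_, fun o => ?_, ?_, fun J hJ hJu => ?_⟩
  · rcases o with ⟨_ | i, ho⟩
    · exact one_ne_zero
    · exact h1 _
  · rcases o with ⟨_ | i, ho⟩
    · exact isCoprime_one_left
    · rcases o' with ⟨_ | i', ho'⟩
      · exact isCoprime_one_right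
      · refine h2 _ _ fun h => hoo ?_
        exact Subtype.ext h
  · rcases o with ⟨_ | i, ho⟩
    · simp [TSplit_x]
    · exact h3 i
  · rcases o with ⟨_ | i, ho⟩
    · simp only [TSplit_x, Int.natAbs_one]
      exact Nat.one_le_two_pow
    · exact h5 _
  · rw [← hsum, ← Finset.sum_coe_sort I]
  · have h8 := hmin (J.map (Function.Embedding.subtype _)) (fun o ho => by
      obtain ⟨o', -, rfl⟩ := Finset.mem_map.1 ho
      exact o'.2) (hJ.map) (fun h => hJu (by
        rw [Finset.eq_univ_iff_forall]
        intro o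
        have h9 : o.1 ∈ J.map (Function.Embedding.subtype _) := by
          rw [h]
          exact o.2
        obtain ⟨o', ho', ho''⟩ := Finset.mem_map.1 h9
        have h10 : o' = o := Subtype.ext ho''
        rwa [h10] at ho'))
    rw [Finset.sum_map] at h8
    exact h8

private theorem TSplit_tsol {ι : Type} [Fintype ι] [DecidableEq ι] {S : Finset ℕ} {Λ : ℕ} {c : ℤ}
    {x x0 : Option ι → ℤ} (hx : TSol S Λ c x) (hx0 : TSol S Λ c x0) (I : Finset (Option ι)) (i0 : ι)
    (hi0 : some i0 ∈ I) (hfib : ∀ i : ι, some i ∈ I → x (some i) = x0 (some i)) :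
    TSol S Λ (-∑ o, x0 (TSplit_e I o)) (fun o => x (TSplit_e I o)) := by
  obtain ⟨h1, h2, h3, h4, h5, h6, h7⟩ := hx
  have hx0' := hx0.2.2.2.2.2.1
  refine ⟨fun o => h1 _, fun o o' hoo => h2 _ _ fun h => hoo (TSplit_e_inj I h), fun i => h3 i.1, h4,
    fun o => h5 _, ?_, fun J hJ _ => ?_⟩
  · have h8 : ∑ o, (x (TSplit_e I o) - x0 (TSplit_e I o)) = ∑ o, (x o - x0 o) := by
      refine Fintype.sum_of_injective (TSplit_e I) (TSplit_e_inj I) _ _ (fun o ho => ?_) fun o => rfl
      cases o with
      | none => exact absurd ⟨none, rfl⟩ ho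
      | some i =>
        by_cases hi : some i ∈ I
        · rw [hfib i hi, sub_self]
        · exact absurd ⟨some ⟨i, hi⟩, rfl⟩ ho
    rw [Finset.sum_sub_distrib, Finset.sum_sub_distrib] at h8
    linarith
  · have h8 := h7 (J.map ⟨TSplit_e I, TSplit_e_inj I⟩) (hJ.map) (fun h => by
      have h9 : some i0 ∈ J.map ⟨TSplit_e I, TSplit_e_inj I⟩ := by
        rw [h]
        exact Finset.mem_univ _
      obtain ⟨o, -, ho⟩ := Finset.mem_map.1 h9
      cases o with
      | none => exact absurd ho (by simp [TSplit_e])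
      | some i =>
        have h10 : (some i.1 : Option ι) = some i0 := ho
        have h11 := i.2
        rw [h10] at h11
        exact h11 hi0)
    rw [Finset.sum_map] at h8
    exact h8

/-- PROOF: terms on `Option ι`: `B none = β c`, `B (some i) = b i`, `x' none = 1`, `x' (some i) = x (some i)`; `∑ B i x' i = 0`. `P = {i : Option ι | B i ≠ 0}` is not empty (`b ≠ 0`). For `x ∈ Z` let `I ⊆ P` be minimal
non-empty with `∑_I B i x' i = 0` (`exists_min`), `|I| ≥ 2` (terms not zero), so `I` contains some `some i`. At most `2^(m+1)` sets `I`. For fixed `I` the restriction of `x'` to `{i // i ∈ I}` is a `USol` with coefficients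
`B` (`1` has no primes): at most `Bd C` values `z` (`2 ≤ |I| ≤ m + 1`). For fixed `z`: `ι' = {i : ι // some i ∉ I}`, `c' = c + ∑_{i : some i ∈ I} z (some i)`, `x'' : Option ι' → ℤ`, `none ↦ x none`,
`some i ↦ x (some i)`: injective on the fiber, `TSol S Λ c' x''` (subsums of `x''` are proper subsums of `x`), `|ι'| < m`. -/
theorem tsplit {m C : ℕ} (hm : 1 ≤ m) (hU : ∀ k', 2 ≤ k' → k' ≤ m + 1 → UBd k' C) (hT : ∀ m' < m, TBd m' C) (ι : Type) [Fintype ι]
    [DecidableEq ι] (hι : Fintype.card ι = m) (S : Finset ℕ) (hS : ∀ p ∈ S, p.Prime) (Λ : ℕ) (c : ℤ) (Z : Finset (Option ι → ℤ))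
    (hZ : ∀ x ∈ Z, TSol S Λ c x) (β : ℤ) (b : ι → ℤ) (hb : b ≠ 0) (hβ : c = 0 → β = 0)
    (hrel : ∀ x ∈ Z, β * c + ∑ i, b i * x (some i) = 0) :
    Z.card ≤ 2 ^ (m + 1) * (Bd C S.card Λ * Bd C S.card Λ) := by
  classical
  set B : Option ι → ℤ := TSplit_B (β * c) b with hB
  have hPne : (univ.filter fun o => B o ≠ 0).Nonempty := by
    obtain ⟨i, hi⟩ : ∃ i, b i ≠ 0 := by
      by_contra h
      push Not at h
      exact hb (funext h)
    exact ⟨some i, Finset.mem_filter.2 ⟨Finset.mem_univ _, hi⟩⟩
  have hex : ∀ x, ∃ I : Finset (Option ι), x ∈ Z → (I ⊆ univ.filter fun o => B o ≠ 0) ∧ I.Nonempty ∧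
      ∑ o ∈ I, B o * TSplit_x x o = 0 ∧
      ∀ J ⊆ I, J.Nonempty → J ≠ I → ∑ o ∈ J, B o * TSplit_x x o ≠ 0 := by
    intro x
    by_cases hx : x ∈ Z
    · have h1 : ∑ o ∈ univ.filter (fun o => B o ≠ 0), B o * TSplit_x x o = 0 := by
        rw [Finset.sum_filter_of_ne]
        · rw [Fintype.sum_option]
          have h2 := hrel x hx
          have h3 : B none * TSplit_x x none = β * c := by
            simp [hB, TSplit_B, TSplit_x]
          rw [h3]
          exact h2
        · intro o _ ho h
          rw [h, zero_mul] at ho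
          exact ho rfl
      obtain ⟨I, hI1, hI2, hI3, hI4⟩ := exists_min (fun o => B o * TSplit_x x o) hPne h1
      exact ⟨I, fun _ => ⟨hI1, hI2, hI3, hI4⟩⟩
    · exact ⟨∅, fun h => absurd h hx⟩
  choose I hI using hex
  have hxne : ∀ x ∈ Z, ∀ o, TSplit_x x o ≠ 0 := by
    intro x hx o
    cases o with
    | none => exact one_ne_zero
    | some i => exact (hZ x hx).1 _
  have hcard2 : ∀ x ∈ Z, 2 ≤ (I x).card := by
    intro x hx
    obtain ⟨h1, h2, h3, -⟩ := hI x hx
    have h4 := h2.card_pos
    by_contra h5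
    have h6 : (I x).card = 1 := by omega
    obtain ⟨o, ho⟩ := Finset.card_eq_one.1 h6
    rw [ho, Finset.sum_singleton] at h3
    have h7 : o ∈ I x := by
      rw [ho]
      exact Finset.mem_singleton_self o
    rcases mul_eq_zero.1 h3 with h8 | h8
    · exact (Finset.mem_filter.1 (h1 h7)).2 h8
    · exact hxne x hx o h8
  have hcardm : ∀ J : Finset (Option ι), J.card ≤ m + 1 := by
    intro J
    have h1 := Finset.card_le_univ J
    rwa [Fintype.card_option, hι] at h1
  have hsome : ∀ J : Finset (Option ι), 2 ≤ J.card → ∃ i : ι, some i ∈ J := by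
    intro J hJ
    by_contra h1
    push Not at h1
    have h2 : J ⊆ {none} := by
      intro o ho
      cases o with
      | none => exact Finset.mem_singleton_self _
      | some i => exact absurd ho (h1 i)
    have h3 := Finset.card_le_card h2
    rw [Finset.card_singleton] at h3
    omega
  -- fibres of `I`
  have hfibI : ∀ J : Finset (Option ι), (Z.filter fun x => I x = J).card ≤ Bd C S.card Λ * Bd C S.card Λ := by
    intro J
    rcases (Z.filter fun x => I x = J).eq_empty_or_nonempty with hem | ⟨y, hy⟩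
    · rw [hem]
      simp
    obtain ⟨hyZ, hyJ⟩ := Finset.mem_filter.1 hy
    have hJ2 : 2 ≤ J.card := by
      rw [← hyJ]
      exact hcard2 y hyZ
    obtain ⟨i0, hi0⟩ := hsome J hJ2
    have himg : ((Z.filter fun x => I x = J).image fun x => fun o : {o // o ∈ J} => TSplit_x x o.1).card ≤
        Bd C S.card Λ := by
      refine hU J.card hJ2 (hcardm J) {o // o ∈ J} (Fintype.card_coe J) S hS Λ
        (fun o => B o.1) (fun o => ?_) _ fun z hz => ?_
      · have h1 := (hI y hyZ).1
        rw [hyJ] at h1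
        exact (Finset.mem_filter.1 (h1 o.2)).2
      · obtain ⟨x, hx, rfl⟩ := Finset.mem_image.1 hz
        obtain ⟨hxZ, hxJ⟩ := Finset.mem_filter.1 hx
        obtain ⟨-, -, h3, h4⟩ := hI x hxZ
        rw [hxJ] at h3 h4
        exact TSplit_usol (hZ x hxZ) (β * c) b J h3 h4
    have hfib : ∀ z ∈ (Z.filter fun x => I x = J).image (fun x => fun o : {o // o ∈ J} => TSplit_x x o.1),
        ((Z.filter fun x => I x = J).filter fun x =>
          (fun o : {o // o ∈ J} => TSplit_x x o.1) = z).card ≤ Bd C S.card Λ := by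
      intro z hz
      obtain ⟨x0, hx0, rfl⟩ := Finset.mem_image.1 hz
      obtain ⟨hx0Z, hx0J⟩ := Finset.mem_filter.1 hx0
      have hlt : Fintype.card {i : ι // some i ∉ J} < m := by
        rw [← hι]
        exact Fintype.card_subtype_lt (x := i0) (by simpa using hi0)
      have hval : ∀ x ∈ (Z.filter fun x => I x = J).filter (fun x =>
          (fun o : {o // o ∈ J} => TSplit_x x o.1) = fun o : {o // o ∈ J} => TSplit_x x0 o.1),
          ∀ i : ι, some i ∈ J → x (some i) = x0 (some i) := by
        intro x hx i hi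
        exact congrFun (Finset.mem_filter.1 hx).2 ⟨some i, hi⟩
      have h1 : (((Z.filter fun x => I x = J).filter (fun x =>
          (fun o : {o // o ∈ J} => TSplit_x x o.1) = fun o : {o // o ∈ J} => TSplit_x x0 o.1)).image
            fun x => fun o => x (TSplit_e J o)).card ≤ Bd C S.card Λ := by
        refine hT _ hlt {i : ι // some i ∉ J} rfl S hS Λ (-∑ o, x0 (TSplit_e J o)) _ fun w hw => ?_
        obtain ⟨x, hx, rfl⟩ := Finset.mem_image.1 hw
        have hxZ := (Finset.mem_filter.1 (Finset.mem_filter.1 hx).1).1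
        exact TSplit_tsol (hZ x hxZ) (hZ x0 hx0Z) J i0 hi0 (hval x hx)
      rwa [Finset.card_image_of_injOn] at h1
      intro x hx x' hx' hxx
      have hx1 := hval x hx
      have hx2 := hval x' hx'
      funext o
      cases o with
      | none => exact congrFun hxx none
      | some i =>
        by_cases hi : some i ∈ J
        · rw [hx1 i hi, hx2 i hi]
        · exact congrFun hxx (some ⟨i, hi⟩)
    exact (Finset.card_le_mul_card_image _ _ hfib).trans (Nat.mul_le_mul_left _ himg)
  have h1 : Z.card ≤ (Bd C S.card Λ * Bd C S.card Λ) * (Z.image I).card :=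
    Finset.card_le_mul_card_image _ _ fun J _ => hfibI J
  have h2 : (Z.image I).card ≤ 2 ^ (m + 1) := by
    refine (Finset.card_le_univ _).trans ?_
    rw [Fintype.card_finset, Fintype.card_option, hι]
  calc Z.card ≤ (Bd C S.card Λ * Bd C S.card Λ) * (Z.image I).card := h1
    _ ≤ (Bd C S.card Λ * Bd C S.card Λ) * 2 ^ (m + 1) := Nat.mul_le_mul_left _ h2
    _ = 2 ^ (m + 1) * (Bd C S.card Λ * Bd C S.card Λ) := by ring

end Pool.MP_a95293_nt.TN
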