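import Pool.Agent.Lib_MP_a95293_pq.Rds
import Pool.Agent.Lib_MP_a95293_tn.Sf
import Pool.Agent.Lib_MP_a95293_tn.USplit
import Pool.Agent.Lib_MP_a95293_tn.TSplit

/-!
# Piece TN-CADM: pairwise coprime admissible tuples as solutions
-/

set_option autoImplicit false

namespace Pool.MP_a95293_nt.TN

open Finset Pool.MP_a95293_nt.RC Pool.MP_a95293_nt.PQ

/-- pairwise coprime admissible `n`-tuples of height at most `H` -/
def CAdm {n : ℕ} (H : ℝ) (x : Fin n → ℤ) : Prop :=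
  Adm x ∧ (∀ i j, i ≠ j → IsCoprime (x i) (x j)) ∧ ∀ i, |(x i : ℝ)| ≤ H

private theorem CAdm_ne {n : ℕ} (hn : 2 ≤ n) {x : Fin n → ℤ} (hx : Adm x) (i : Fin n) : x i ≠ 0 := by
  have h := hx.2.2 {i} (singleton_nonempty i) (fun h => by
    have h1 := congrArg Finset.card h
    rw [card_singleton, card_univ, Fintype.card_fin] at h1
    omega)
  rwa [sum_singleton] at h

private theorem CAdm_rad {n : ℕ} (hn : 2 ≤ n) {x : Fin n → ℤ} (hx : Adm x) (i : Fin n) :
    (x i).natAbs.primeFactors ⊆ (radZ (∏ i, x i)).primeFactors := by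
  have h1 : (radZ (∏ i, x i)).primeFactors = (∏ i, x i).natAbs.primeFactors := by
    unfold radZ
    exact Nat.primeFactors_prod fun p hp => Nat.prime_of_mem_primeFactors hp
  rw [h1]
  exact Nat.primeFactors_mono (Int.natAbs_dvd_natAbs.2 (dvd_prod_of_mem _ (mem_univ i)))
    (Int.natAbs_ne_zero.2 (prod_ne_zero_iff.2 fun m _ => CAdm_ne hn hx m))

/-- PROOF: `x i ≠ 0` from the subsum `{i}`, `2 ≤ n`. -/
theorem cadm_tup {n : ℕ} (hn : 2 ≤ n) {H : ℝ} {x : Fin n → ℤ} (hx : CAdm H x) : Tup H x := by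
  exact ⟨fun i => CAdm_ne hn hx.1 i, hx.2.1, hx.1.2.1, hx.2.2⟩

/-- PROOF: the primes of `x i` divide `∏ x i`, so are among the primes of `R = radZ (∏ x i)` (a squarefree number with the same primes). -/
theorem cadm_usol {n : ℕ} (hn : 2 ≤ n) {H : ℝ} {x : Fin n → ℤ} (hx : CAdm H x) {Λ : ℕ} (hΛ : ∀ i, (x i).natAbs ≤ 2 ^ Λ) :
    USol (radZ (∏ i, x i)).primeFactors Λ (fun _ => 1) x := by
  refine ⟨fun i => CAdm_ne hn hx.1 i, hx.2.1, fun i => CAdm_rad hn hx.1 i, hΛ, ?_, fun I hI hI' => ?_⟩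
  · simp only [one_mul]
    exact hx.1.2.1
  · simp only [one_mul]
    exact hx.1.2.2 I hI hI'

/-- the tuple with the side `j` as the entry `none` -/
def opt {n : ℕ} (j : Fin n) (x : Fin n → ℤ) : Option {i : Fin n // i ≠ j} → ℤ
  | none => x j
  | some i => x i

private theorem CAdm_opt {n : ℕ} (j : Fin n) (x : Fin n → ℤ) (o : Option {i : Fin n // i ≠ j}) :
    opt j x o = x (Equiv.optionSubtypeNe j o) := by
  cases o with
  | none => rw [Equiv.optionSubtypeNe_none]; rfl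
  | some i => rw [Equiv.optionSubtypeNe_some]; rfl

/-- PROOF: primes of `x i`, `i ≠ j`, are not in `K` (coprime to `x j`); `sf_le_prod` for `x j`; subsums correspond to subsets of `Fin n`; `c = 0`. -/
theorem cadm_tsol {n : ℕ} (hn : 2 ≤ n) {H : ℝ} {x : Fin n → ℤ} (hx : CAdm H x) {Λ : ℕ} (hΛ : ∀ i, (x i).natAbs ≤ 2 ^ Λ) (j : Fin n)
    {K : Finset ℕ} (hK : K ⊆ (x j).natAbs.primeFactors) (hw : (∏ p ∈ K, p ^ (x j).natAbs.factorization p) ^ 3 ≤ (x j).natAbs ^ 2) :
    TSol ((radZ (∏ i, x i)).primeFactors \ K) Λ 0 (opt j x) := by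
  refine ⟨fun o => ?_, fun o o' ho => ?_, fun i => ?_, ?_, fun o => ?_, ?_, fun I hI hI' => ?_⟩
  · rw [CAdm_opt]
    exact CAdm_ne hn hx.1 _
  · rw [CAdm_opt, CAdm_opt]
    exact hx.2.1 _ _ fun h => ho ((Equiv.optionSubtypeNe j).injective h)
  · intro p hp
    change p ∈ (x i.1).natAbs.primeFactors at hp
    refine mem_sdiff.2 ⟨CAdm_rad hn hx.1 _ hp, fun hpK => ?_⟩
    have h1 := hK hpK
    have h2 : (p : ℤ) ∣ x i.1 := Int.natCast_dvd.2 (Nat.dvd_of_mem_primeFactors hp)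
    have h3 : (p : ℤ) ∣ x j := Int.natCast_dvd.2 (Nat.dvd_of_mem_primeFactors h1)
    have h4 := (hx.2.1 _ _ i.2).isUnit_of_dvd' h2 h3
    have h5 := (Nat.prime_of_mem_primeFactors hp).one_lt
    rcases Int.isUnit_iff.1 h4 with h6 | h6 <;> omega
  · refine le_trans (Nat.pow_le_pow_left (sf_le_prod _ K (Int.natAbs_ne_zero.2 (CAdm_ne hn hx.1 j)) ?_) 3) hw
    intro p hp
    by_cases hpK : p ∈ K
    · exact mem_union_right _ hpK
    · exact mem_union_left _ (mem_sdiff.2 ⟨CAdm_rad hn hx.1 j hp, hpK⟩)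
  · rw [CAdm_opt]
    exact hΛ _
  · rw [zero_add]
    have h1 : ∑ o, opt j x o = ∑ o, x (Equiv.optionSubtypeNe j o) := sum_congr rfl fun o _ => CAdm_opt j x o
    rw [h1, Equiv.sum_comp (Equiv.optionSubtypeNe j) x]
    exact hx.1.2.1
  · have h1 : ∑ o ∈ I, opt j x o = ∑ i ∈ I.map (Equiv.optionSubtypeNe j).toEmbedding, x i := by
      rw [sum_map]
      exact sum_congr rfl fun o _ => CAdm_opt j x o
    rw [h1]
    refine hx.1.2.2 _ (hI.map) fun h => hI' ?_
    have h2 : I.map (Equiv.optionSubtypeNe j).toEmbedding = univ.map (Equiv.optionSubtypeNe j).toEmbedding := by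
      rw [h, Finset.map_univ_equiv]
    exact Finset.map_injective _ h2

theorem opt_inj {n : ℕ} (j : Fin n) : Function.Injective (opt j) := by
  intro x y h
  funext i
  by_cases hi : i = j
  · subst hi
    exact congrFun h none
  · exact congrFun h (some ⟨i, hi⟩)

end Pool.MP_a95293_nt.TN
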