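import Pool.Agent.Lib_MP_a95293_tn.TCov
import Pool.Agent.Lib_MP_a95293_tn.TSplit
import Pool.Agent.Lib_MP_a95293_tn.UFin

/-!
# Piece TN-TFIN: Lemma T
-/

set_option autoImplicit false

namespace Pool.MP_a95293_nt.TN

open Finset

theorem TBd_mono {m C C' : ℕ} (hC : 1 ≤ C) (h : C ≤ C') (hT : TBd m C) : TBd m C' := by
  intro ι _ _ hι S hS Λ c Z hZ
  exact (hT ι hι S hS Λ c Z hZ).trans (Bd_mono hC h)

private theorem TFin_common (m : ℕ) (ih : ∀ m' < m, ∃ C : ℕ, 1 ≤ C ∧ TBd m' C) :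
    ∃ C : ℕ, 1 ≤ C ∧ ∀ m' < m, TBd m' C := by
  choose! f hf1 hf2 using ih
  refine ⟨1 + ∑ i ∈ range m, f i, by omega, ?_⟩
  intro m' hm'
  have hle : f m' ≤ ∑ i ∈ range m, f i :=
    Finset.single_le_sum (f := f) (fun _ _ => Nat.zero_le _) (mem_range.2 hm')
  exact TBd_mono (hf1 m' hm') (by omega) (hf2 m' hm')

private theorem TFin_one_le_Bd {C s Λ : ℕ} (hC : 1 ≤ C) : C ≤ Bd C s Λ := by
  have h1 := le_Bd (C := C) (s := s) (Λ := Λ) hC
  have h2 : C ≤ C ^ (s + 1) := Nat.le_self_pow (by omega) C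
  have h3 : C ^ (s + 1) * 1 ≤ C ^ (s + 1) * (Nat.log 2 Λ + 2) := Nat.mul_le_mul_left _ (by omega)
  rw [mul_one] at h3
  exact h2.trans (h3.trans h1)

/-- **Lemma T.** PROOF: strong induction: `tbd_zero`; `m ≥ 1`: a common constant `C` for the `TBd m'`, `m' < m`, and `lemU_all (m + 1)`; `tcover` with `N = 2^(m+1) * (Bd C * Bd C)` and `tsplit`; `Bd_mul`, `le_Bd`. -/
theorem lemT (m : ℕ) : ∃ C : ℕ, 1 ≤ C ∧ TBd m C := by
  induction m using Nat.strong_induction_on with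
  | _ m ih =>
    rcases Nat.eq_zero_or_pos m with rfl | hm
    · exact ⟨1, le_rfl, tbd_zero⟩
    · obtain ⟨C1, hC1, hT1⟩ := TFin_common m ih
      obtain ⟨CU, hCU, hU1⟩ := lemU_all (m + 1)
      obtain ⟨C0, hC0, hcov⟩ := tcover m hm
      have hC : 1 ≤ C1 + CU := by omega
      have hT : ∀ m' < m, TBd m' (C1 + CU) := fun m' h => TBd_mono hC1 (by omega) (hT1 m' h)
      have hU : ∀ k', 2 ≤ k' → k' ≤ m + 1 → UBd k' (C1 + CU) :=
        fun k' h1 h2 => UBd_mono hCU (by omega) (hU1 k' h1 h2)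
      have hD : 1 ≤ 2 ^ (m + 1) := Nat.one_le_two_pow
      refine ⟨C0 + (2 ^ (m + 1) + ((C1 + CU) + (C1 + CU))), by omega, ?_⟩
      intro ι _ _ hι S hS Λ c Z hZ
      have hB : 1 ≤ Bd (C1 + CU) S.card Λ := hC.trans (TFin_one_le_Bd hC)
      have hN : 1 ≤ 2 ^ (m + 1) * (Bd (C1 + CU) S.card Λ * Bd (C1 + CU) S.card Λ) :=
        Nat.one_le_iff_ne_zero.2 (mul_ne_zero (by omega) (mul_ne_zero (by omega) (by omega)))
      have key := hcov ι hι S hS Λ c Z hZ _ hN (by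
        rintro Z' hZ' ⟨β, b, hb, hβ, hrel⟩
        exact tsplit hm hU hT ι hι S hS Λ c Z' (fun x hx => hZ x (hZ' hx)) β b hb hβ hrel)
      refine key.trans ?_
      refine le_trans (Nat.mul_le_mul (le_Bd hC0) (Nat.mul_le_mul (TFin_one_le_Bd (s := S.card) (Λ := Λ) hD) (Bd_mul hC hC))) ?_
      exact (Nat.mul_le_mul_left _ (Bd_mul hD (by omega))).trans (Bd_mul hC0 (by omega))

end Pool.MP_a95293_nt.TN
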