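import Pool.Agent.Lib_MP_a95293_tn.CAdm
import Pool.Agent.Lib_MP_a95293_tn.TFin
import Pool.Agent.Lib_MP_a95293_tn.Asy

/-!
# The tuples with a light set of primes of large product on one side, general heights
-/

set_option autoImplicit false

namespace Pool.MP_a95293_nt.TN

open Finset Pool.MP_a95293_nt.RC Pool.MP_a95293_nt.PQ

private theorem CntTH_radZ_primeFactors (m : ℤ) : (radZ m).primeFactors = m.natAbs.primeFactors := by
  unfold radZ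
  exact Nat.primeFactors_prod fun p hp => Nat.prime_of_mem_primeFactors hp

private theorem CntTH_fiber {n C : ℕ} {T : ℝ} (hn : 2 ≤ n) (hT : TBd (n - 1) C) {X : ℕ} {Z : Finset (Fin n → ℤ)} {M : ℝ}
    (hX : ∀ S : Finset ℕ, (∀ p ∈ S, p.Prime) → ∏ p ∈ S, p ≤ X →
      (Bd C S.card ⌈2 * Real.exp T⌉₊ : ℝ) ≤ M)
    (j : Fin n) (R : ℕ) (hRX : ∏ p ∈ R.primeFactors, p ≤ X)
    (hZ : ∀ x ∈ Z, CAdm (Real.exp (Real.exp T)) x ∧
      ∃ K ⊆ (x j).natAbs.primeFactors, (∏ p ∈ K, p ^ (x j).natAbs.factorization p) ^ 3 ≤ (x j).natAbs ^ 2 ∧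
        R.primeFactors = (radZ (∏ i, x i)).primeFactors \ K) :
    (Z.card : ℝ) ≤ M := by
  classical
  have h1 : (Z.image (opt j)).card = Z.card := card_image_of_injective _ (opt_inj j)
  have hcard : Fintype.card {i : Fin n // i ≠ j} = n - 1 := by
    rw [Fintype.card_subtype_compl, Fintype.card_fin, Fintype.card_subtype_eq]
  have h2 : (Z.image (opt j)).card ≤ Bd C R.primeFactors.card ⌈2 * Real.exp T⌉₊ := by
    apply hT {i : Fin n // i ≠ j} hcard R.primeFactors (fun p hp => Nat.prime_of_mem_primeFactors hp) _ 0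
    intro y hy
    obtain ⟨x, hx, rfl⟩ := mem_image.1 hy
    obtain ⟨hc, K, hK1, hK2, hK3⟩ := hZ x hx
    rw [hK3]
    exact cadm_tsol hn hc (fun i => abs_le_two_pow (hc.2.2 i)) j hK1 hK2
  rw [← h1]
  exact le_trans (by exact_mod_cast h2) (hX R.primeFactors (fun p hp => Nat.prime_of_mem_primeFactors hp) hRX)

/-- as `cntT`, with a general bound for the heights -/
theorem cntTH (n : ℕ) (hn : 2 ≤ n) : ∃ C : ℕ, 1 ≤ C ∧ ∀ ε : ℝ, 0 < ε → ∃ X₀ : ℕ, ∀ X ≥ X₀, ∀ T : ℝ,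
    (∀ S : Finset ℕ, (∀ p ∈ S, p.Prime) → ∏ p ∈ S, p ≤ X → (Bd C S.card ⌈2 * Real.exp T⌉₊ : ℝ) ≤ (X : ℝ) ^ (ε / 4)) →
    ∀ Z : Finset (Fin n → ℤ),
    (∀ x ∈ Z, CAdm (Real.exp (Real.exp T)) x ∧ radZ (∏ i, x i) ≤ X ∧
      ∃ j, ∃ K ⊆ (x j).natAbs.primeFactors, (∏ p ∈ K, p ^ (x j).natAbs.factorization p) ^ 3 ≤ (x j).natAbs ^ 2 ∧
        (X : ℝ) ^ ε ≤ ∏ p ∈ K, (p : ℝ)) →
    (Z.card : ℝ) ≤ (X : ℝ) ^ (1 - ε / 2) := by
  classical
  obtain ⟨C, hC, hT⟩ := lemT (n - 1)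
  refine ⟨C, hC, fun ε hε => ?_⟩
  obtain ⟨X₂, hX₂⟩ := Filter.eventually_atTop.1 (tendsto_natCast_atTop_atTop.eventually
    (((tendsto_rpow_atTop (show 0 < ε / 4 by positivity)).eventually_ge_atTop (n : ℝ)).and
      (Filter.eventually_ge_atTop (1 : ℝ))))
  refine ⟨X₂, fun X hX T hTX Z hZ => ?_⟩
  obtain ⟨g2, g3⟩ := hX₂ X hX
  have hX0 : (0 : ℝ) < X := by linarith
  have hne0 : Nonempty (Fin n) := ⟨⟨0, by omega⟩⟩
  have hch : ∀ x : Fin n → ℤ, ∃ (j : Fin n) (K : Finset ℕ), x ∈ Z → K ⊆ (x j).natAbs.primeFactors ∧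
      (∏ p ∈ K, p ^ (x j).natAbs.factorization p) ^ 3 ≤ (x j).natAbs ^ 2 ∧ (X : ℝ) ^ ε ≤ ∏ p ∈ K, (p : ℝ) := by
    intro x
    by_cases hx : x ∈ Z
    · obtain ⟨j, K, hK⟩ := (hZ x hx).2.2
      exact ⟨j, K, fun _ => hK⟩
    · exact ⟨Classical.arbitrary _, ∅, fun h => absurd h hx⟩
  choose j K hK using hch
  set key : (Fin n → ℤ) → Fin n × ℕ := fun x => (j x, ∏ p ∈ (radZ (∏ i, x i)).primeFactors \ K x, p) with hkey
  have hpf : ∀ x, (∏ p ∈ (radZ (∏ i, x i)).primeFactors \ K x, p).primeFactors = (radZ (∏ i, x i)).primeFactors \ K x :=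
    fun x => Nat.primeFactors_prod fun p hp => Nat.prime_of_mem_primeFactors (mem_sdiff.1 hp).1
  have hpos : ∀ x, 1 ≤ ∏ p ∈ (radZ (∏ i, x i)).primeFactors \ K x, p :=
    fun x => Finset.prod_pos fun p hp => (Nat.prime_of_mem_primeFactors (mem_sdiff.1 hp).1).pos
  have hprod : ∀ x ∈ Z, (∏ p ∈ (radZ (∏ i, x i)).primeFactors \ K x, p) * ∏ p ∈ K x, p = radZ (∏ i, x i) := by
    intro x hx
    have hne : ∀ i, x i ≠ 0 := (cadm_tup hn (hZ x hx).1).1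
    have hsub : K x ⊆ (radZ (∏ i, x i)).primeFactors := by
      rw [CntTH_radZ_primeFactors]
      refine (hK x hx).1.trans ?_
      apply Nat.primeFactors_mono
      · exact Int.natAbs_dvd_natAbs.2 (dvd_prod_of_mem _ (mem_univ _))
      · exact Int.natAbs_ne_zero.2 (prod_ne_zero_iff.2 fun i _ => hne i)
    rw [prod_sdiff hsub, CntTH_radZ_primeFactors]
    rfl
  set M := ⌊(X : ℝ) ^ (1 - ε)⌋₊ with hM
  have himg : Z.image key ⊆ univ ×ˢ Icc 1 M := by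
    intro a ha
    obtain ⟨x, hx, rfl⟩ := mem_image.1 ha
    rw [mem_product, mem_Icc]
    refine ⟨mem_univ _, hpos x, ?_⟩
    show (∏ p ∈ (radZ (∏ i, x i)).primeFactors \ K x, p) ≤ M
    rw [hM, Nat.le_floor_iff (by positivity)]
    have h1 : ((∏ p ∈ (radZ (∏ i, x i)).primeFactors \ K x, p : ℕ) : ℝ) * (X : ℝ) ^ ε ≤ X := by
      calc ((∏ p ∈ (radZ (∏ i, x i)).primeFactors \ K x, p : ℕ) : ℝ) * (X : ℝ) ^ ε
          ≤ ((∏ p ∈ (radZ (∏ i, x i)).primeFactors \ K x, p : ℕ) : ℝ) * ∏ p ∈ K x, (p : ℝ) :=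
            mul_le_mul_of_nonneg_left (hK x hx).2.2 (Nat.cast_nonneg _)
        _ = ((radZ (∏ i, x i) : ℕ) : ℝ) := by
            have h0 := congrArg (fun t : ℕ => (t : ℝ)) (hprod x hx)
            push_cast at h0 ⊢
            exact h0
        _ ≤ X := by exact_mod_cast (hZ x hx).2.1
    have h2 : (X : ℝ) ^ (1 - ε) * (X : ℝ) ^ ε = X := by
      rw [← Real.rpow_add hX0]
      simp
    have h3 : (0 : ℝ) < (X : ℝ) ^ ε := Real.rpow_pos_of_pos hX0 _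
    exact le_of_mul_le_mul_right (h1.trans h2.symm.le) h3
  have hfib : ∀ a ∈ Z.image key, (Z.filter fun x => key x = a).card ≤ ⌊(X : ℝ) ^ (ε / 4)⌋₊ := by
    intro a ha
    rw [Nat.le_floor_iff (by positivity)]
    obtain ⟨x₀, hx₀, rfl⟩ := mem_image.1 ha
    refine CntTH_fiber hn hT hTX (j x₀) (∏ p ∈ (radZ (∏ i, x₀ i)).primeFactors \ K x₀, p) ?_ ?_
    · rw [hpf x₀]
      have h1 := hprod x₀ hx₀
      have h2 : 1 ≤ ∏ p ∈ K x₀, p := Finset.prod_pos fun p hp =>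
        (Nat.prime_of_mem_primeFactors ((hK x₀ hx₀).1 hp)).pos
      calc (∏ p ∈ (radZ (∏ i, x₀ i)).primeFactors \ K x₀, p)
          ≤ (∏ p ∈ (radZ (∏ i, x₀ i)).primeFactors \ K x₀, p) * ∏ p ∈ K x₀, p := Nat.le_mul_of_pos_right _ h2
        _ = radZ (∏ i, x₀ i) := h1
        _ ≤ X := (hZ x₀ hx₀).2.1
    · intro x hx
      obtain ⟨hxZ, hxk⟩ := mem_filter.1 hx
      have hj : j x = j x₀ := congrArg Prod.fst hxk
      have hR : (∏ p ∈ (radZ (∏ i, x i)).primeFactors \ K x, p) = ∏ p ∈ (radZ (∏ i, x₀ i)).primeFactors \ K x₀, p :=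
        congrArg Prod.snd hxk
      refine ⟨(hZ x hxZ).1, K x, ?_, ?_, ?_⟩
      · rw [← hj]
        exact (hK x hxZ).1
      · rw [← hj]
        exact (hK x hxZ).2.1
      · rw [← hR, hpf x]
  have hmain := Finset.card_le_mul_card_image Z _ hfib
  have hcard : (Z.image key).card ≤ n * M := by
    refine (card_le_card himg).trans ?_
    rw [card_product, card_univ, Fintype.card_fin, Nat.card_Icc]
    simp
  have hfin : (Z.card : ℝ) ≤ (X : ℝ) ^ (ε / 4) * (n * (X : ℝ) ^ (1 - ε)) := by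
    have h1 : (Z.card : ℝ) ≤ (⌊(X : ℝ) ^ (ε / 4)⌋₊ : ℝ) * ((n : ℝ) * M) := by
      exact_mod_cast hmain.trans (Nat.mul_le_mul_left _ hcard)
    refine h1.trans ?_
    apply mul_le_mul (Nat.floor_le (by positivity)) _ (by positivity) (by positivity)
    exact mul_le_mul_of_nonneg_left (Nat.floor_le (by positivity)) (Nat.cast_nonneg _)
  calc (Z.card : ℝ) ≤ (X : ℝ) ^ (ε / 4) * (n * (X : ℝ) ^ (1 - ε)) := hfin
    _ ≤ (X : ℝ) ^ (ε / 4) * ((X : ℝ) ^ (ε / 4) * (X : ℝ) ^ (1 - ε)) := by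
        apply mul_le_mul_of_nonneg_left _ (by positivity)
        exact mul_le_mul_of_nonneg_right g2 (by positivity)
    _ = (X : ℝ) ^ (1 - ε / 2) := by
        rw [← Real.rpow_add hX0, ← Real.rpow_add hX0]
        congr 1
        ring

end Pool.MP_a95293_nt.TN
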