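import Pool.Agent.Lib_MP_a95293_tn.CAdm
import Pool.Agent.Lib_MP_a95293_tn.UFin
import Pool.Agent.Lib_MP_a95293_tn.Asy

/-!
# Piece TN-CNTU: the tuples with a given radical
-/

set_option autoImplicit false

namespace Pool.MP_a95293_nt.TN

open Finset Pool.MP_a95293_nt.RC Pool.MP_a95293_nt.PQ

/-- PROOF: `lemU n` (constant `C`), `Bd_small C B`, `cadm_usol`, `abs_le_two_pow`; `∏ p ∈ R.primeFactors, p ≤ R ≤ X` (`Z` not empty, `R ≠ 0`; `Nat.prod_primeFactors_dvd`). -/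
theorem cntU (n B : ℕ) (hn : 2 ≤ n) {κ : ℝ} (hκ : 0 < κ) : ∃ X₀ : ℕ, ∀ X ≥ X₀, ∀ R ≤ X, ∀ Z : Finset (Fin n → ℤ),
    (∀ x ∈ Z, CAdm (Real.exp (Real.exp (Real.log X ^ B))) x ∧ radZ (∏ i, x i) = R) → (Z.card : ℝ) ≤ (X : ℝ) ^ κ := by
  classical
  obtain ⟨C, hC, hU⟩ := lemU n hn
  obtain ⟨X₀, hX₀⟩ := Bd_small C B hκ
  refine ⟨X₀, fun X hX R hR Z hZ => ?_⟩
  rcases Z.eq_empty_or_nonempty with rfl | ⟨x₀, hx₀⟩
  · rw [card_empty, Nat.cast_zero]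
    exact Real.rpow_nonneg (Nat.cast_nonneg X) κ
  have hR0 : R ≠ 0 := by
    rw [← (hZ x₀ hx₀).2]
    unfold radZ
    exact (Finset.prod_pos fun p hp => (Nat.prime_of_mem_primeFactors hp).pos).ne'
  have hprod : ∏ p ∈ R.primeFactors, p ≤ X :=
    (Nat.le_of_dvd (Nat.pos_of_ne_zero hR0) (Nat.prod_primeFactors_dvd R)).trans hR
  have h1 := hU (Fin n) (Fintype.card_fin n) R.primeFactors (fun p hp => Nat.prime_of_mem_primeFactors hp)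
    ⌈2 * Real.exp (Real.log X ^ B)⌉₊ (fun _ => 1) (fun _ => one_ne_zero) Z (fun x hx => by
      have h2 := cadm_usol hn (hZ x hx).1 (Λ := ⌈2 * Real.exp (Real.log X ^ B)⌉₊)
        (fun i => abs_le_two_pow ((hZ x hx).1.2.2 i))
      rwa [(hZ x hx).2] at h2)
  have h3 := hX₀ X hX R.primeFactors (fun p hp => Nat.prime_of_mem_primeFactors hp) hprod
  exact le_trans (by exact_mod_cast h1) h3

/-- **Tuples with terms `a q^e`.** PROOF: as `shape3` in `Lib_MP_a95293_pq/Cnt3.lean`: `shapeR n B` with `η / 2` for the set of the radicals `Z.image (radZ ∘ ∏)`, `cntU` with `κ = η / 2` for the fibers. -/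
theorem shapeN (n B : ℕ) (hn : 2 ≤ n) {η : ℝ} (hη : 0 < η) : ∃ ε : ℝ, 0 < ε ∧ ∃ X₀ : ℕ, ∀ X ≥ X₀, ∀ Z : Finset (Fin n → ℤ),
    (∀ x ∈ Z, CAdm (Real.exp (Real.exp (Real.log X ^ B))) x ∧ radZ (∏ i, x i) ≤ X ∧ Shape ((X : ℝ) ^ ε) x) →
    (Z.card : ℝ) ≤ (X : ℝ) ^ (1 - 1 / (n : ℝ) + η) := by
  classical
  obtain ⟨ε, hε, X₁, hX₁⟩ := shapeR n B (by omega) (show 0 < η / 2 by positivity)
  obtain ⟨X₂, hX₂⟩ := cntU n B hn (show 0 < η / 2 by positivity)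
  refine ⟨ε, hε, max X₁ (max X₂ 1), fun X hX Z hZ => ?_⟩
  have g1 : X₁ ≤ X := (le_max_left _ _).trans hX
  have g2 : X₂ ≤ X := ((le_max_left _ _).trans (le_max_right _ _)).trans hX
  have g3 : 1 ≤ X := ((le_max_right _ _).trans (le_max_right _ _)).trans hX
  have hX0 : (0 : ℝ) < X := by exact_mod_cast g3
  set ρ : (Fin n → ℤ) → ℕ := fun x => radZ (∏ i, x i) with hρ
  have hR : ((Z.image ρ).card : ℝ) ≤ (X : ℝ) ^ (1 - 1 / (n : ℝ) + η / 2) := by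
    apply hX₁ X g1
    intro R hR
    rw [mem_image] at hR
    obtain ⟨x, hx, rfl⟩ := hR
    obtain ⟨h1, h2, h3⟩ := hZ x hx
    exact ⟨h2, x, cadm_tup hn h1, rfl, h3⟩
  have hone : ∀ R ∈ Z.image ρ, ((Z.filter fun x => ρ x = R).card : ℝ) ≤ (X : ℝ) ^ (η / 2) := by
    intro R hR
    rw [mem_image] at hR
    obtain ⟨x, hx, rfl⟩ := hR
    obtain ⟨-, h2, -⟩ := hZ x hx
    exact hX₂ X g2 (ρ x) h2 _ fun y hy => by
      rw [mem_filter] at hy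
      exact ⟨(hZ y hy.1).1, hy.2⟩
  have hsum : (Z.card : ℝ) = ∑ R ∈ Z.image ρ, ((Z.filter fun x => ρ x = R).card : ℝ) := by
    exact_mod_cast card_eq_sum_card_image ρ Z
  rw [hsum]
  calc ∑ R ∈ Z.image ρ, ((Z.filter fun x => ρ x = R).card : ℝ) ≤ ∑ R ∈ Z.image ρ, (X : ℝ) ^ (η / 2) := sum_le_sum hone
    _ = (Z.image ρ).card * (X : ℝ) ^ (η / 2) := by rw [sum_const, nsmul_eq_mul]
    _ ≤ (X : ℝ) ^ (1 - 1 / (n : ℝ) + η / 2) * (X : ℝ) ^ (η / 2) := mul_le_mul_of_nonneg_right hR (by positivity)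
    _ = (X : ℝ) ^ (1 - 1 / (n : ℝ) + η) := by
        rw [← Real.rpow_add hX0]
        congr 1
        ring

end Pool.MP_a95293_nt.TN
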