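import Pool.Agent.Lib_MP_a95293_tn.TDefs

/-!
# Piece TN-GAP: determinants and relations
-/

set_option autoImplicit false

namespace Pool.MP_a95293_nt.TN

open Finset

/-- the linear functional of the row -/
private theorem gap_lin {κ : Type} [Fintype κ] [DecidableEq κ] {j : κ} {V : Matrix κ κ ℤ}
    (hV : ∀ a, a ≠ j → ∑ i, V a i = 0) (u : κ → ℤ) (hu : ∑ i, u i = 0) :
    (V.updateRow j u).det = 0 := by
  have h : ∃ v : κ → ℤ, v ≠ 0 ∧ (V.updateRow j u).mulVec v = 0 := by
    refine ⟨fun _ => 1, ?_, ?_⟩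
    · intro h0
      have := congrFun h0 j
      simp at this
    · funext a
      by_cases ha : a = j
      · subst ha
        simp [Matrix.mulVec, dotProduct, hu]
      · simp [Matrix.mulVec, dotProduct, Matrix.updateRow_ne ha, hV a ha]
  exact Matrix.exists_mulVec_eq_zero_iff.mp h

/-- PROOF: for a row vector `u` put `D u = det (V.updateRow j u)`, linear in `u` (`Matrix.det_updateRow_add`, `det_updateRow_smul`). `D (e_i - e_i') = 0`: the matrix kills the
all-ones vector (`Matrix.exists_mulVec_eq_zero_iff`). So `D e_i = D e_j` for all `i`. -/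
theorem det_unit {κ : Type} [Fintype κ] [DecidableEq κ] {j : κ} {V : Matrix κ κ ℤ} (hV : ∀ a, a ≠ j → ∑ i, V a i = 0) (i : κ) :
    (V.updateRow j (Pi.single i 1)).det = (V.updateRow j (Pi.single j 1)).det := by
  have h := gap_lin hV (Pi.single i 1 - Pi.single j 1) (by
    simp [Finset.sum_sub_distrib])
  rw [sub_eq_add_neg, Matrix.det_updateRow_add] at h
  have h2 : (V.updateRow j (-(Pi.single j 1 : κ → ℤ))).det = - (V.updateRow j (Pi.single j 1)).det := by
    have := Matrix.det_updateRow_smul V j (-1 : ℤ) (Pi.single j 1 : κ → ℤ)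
    simpa using this
  rw [h2] at h
  omega

private theorem gap_term {κ : Type} [Fintype κ] [DecidableEq κ] {j : κ} {V : Matrix κ κ ℤ} (i : κ) (σ : Equiv.Perm κ) :
    (∏ m, (V.updateRow j (Pi.single i 1)) (σ m) m) = if σ i = j then ∏ m ∈ univ.erase i, V (σ m) m else 0 := by
  split_ifs with h
  · rw [← Finset.mul_prod_erase univ _ (Finset.mem_univ i)]
    have h1 : (V.updateRow j (Pi.single i 1)) (σ i) i = 1 := by
      rw [h]; simp
    rw [h1, one_mul]
    refine Finset.prod_congr rfl (fun m hm => ?_)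
    have hm' : m ≠ i := (Finset.mem_erase.mp hm).1
    have : σ m ≠ j := by
      intro h2
      exact hm' (σ.injective (h2.trans h.symm))
    rw [Matrix.updateRow_ne this]
  · refine Finset.prod_eq_zero (Finset.mem_univ (σ.symm j)) ?_
    have h3 : σ.symm j ≠ i := by
      intro h4; apply h; rw [← h4]; simp
    simp [h3]

/-- PROOF: `Matrix.det_apply`: in `det (V.updateRow j e_i) = ∑ σ, sign σ • ∏ m, M (σ m) m` the term of `σ` is zero unless `σ i = j`, and then it is `± ∏ m ∈ univ.erase i, V (σ m) m` with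
`σ m ≠ j`, divisible by `∏ m ∈ univ.erase i, G m`. With `det_unit` the same for `i = j` in the updated row. -/
theorem det_dvd {κ : Type} [Fintype κ] [DecidableEq κ] {j : κ} {V : Matrix κ κ ℤ} (hV : ∀ a, a ≠ j → ∑ i, V a i = 0) {G : κ → ℤ}
    (hG : ∀ a, a ≠ j → ∀ i, G i ∣ V a i) (i : κ) : (∏ m ∈ univ.erase i, G m) ∣ (V.updateRow j (Pi.single j 1)).det := by
  rw [← det_unit hV i, Matrix.det_apply]
  refine Finset.dvd_sum (fun σ _ => ?_)
  rw [gap_term]
  split_ifs with h
  · rw [Units.smul_def, zsmul_eq_mul]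
    refine Dvd.dvd.mul_left ?_ _
    refine Finset.prod_dvd_prod_of_dvd _ _ (fun m hm => ?_)
    have hm' : m ≠ i := (Finset.mem_erase.mp hm).1
    exact hG _ (fun h2 => hm' (σ.injective (h2.trans h.symm))) m
  · simp

/-- PROOF: as `det_dvd`; each of the `k!` terms is at most `∏ m ∈ univ.erase i, U m` in absolute value. -/
theorem det_le {κ : Type} [Fintype κ] [DecidableEq κ] {j : κ} {V : Matrix κ κ ℤ} (hV : ∀ a, a ≠ j → ∑ i, V a i = 0) {U : κ → ℝ}
    (hU : ∀ a, a ≠ j → ∀ i, |(V a i : ℝ)| ≤ U i) (i : κ) :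
    |((V.updateRow j (Pi.single j 1)).det : ℝ)| ≤ (Fintype.card κ).factorial * ∏ m ∈ univ.erase i, U m := by
  rw [← det_unit hV i, Matrix.det_apply, Int.cast_sum]
  refine (Finset.abs_sum_le_sum_abs _ _).trans ?_
  have key : ∀ σ ∈ (univ : Finset (Equiv.Perm κ)),
      |((Equiv.Perm.sign σ • ∏ m, (V.updateRow j (Pi.single i 1)) (σ m) m : ℤ) : ℝ)| ≤ |∏ m ∈ univ.erase i, U m| := by
    intro σ _
    rw [gap_term]
    split_ifs with h
    · have h1 : |((Equiv.Perm.sign σ • ∏ m ∈ univ.erase i, V (σ m) m : ℤ) : ℝ)| = ∏ m ∈ univ.erase i, |(V (σ m) m : ℝ)| := by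
        rw [Units.smul_def, zsmul_eq_mul, Int.cast_mul, abs_mul, Int.cast_prod, Finset.abs_prod]
        rcases Int.units_eq_one_or (Equiv.Perm.sign σ) with h2 | h2 <;> simp [h2]
      rw [h1, Finset.abs_prod]
      refine Finset.prod_le_prod (fun _ _ => abs_nonneg _) (fun m hm => ?_)
      have hm' : m ≠ i := (Finset.mem_erase.mp hm).1
      exact (hU _ (fun h2 => hm' (σ.injective (h2.trans h.symm))) m).trans (le_abs_self _)
    · simp
  by_cases hne : ∃ a : κ, a ≠ j
  · obtain ⟨a, ha⟩ := hne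
    have hU0 : ∀ m, 0 ≤ U m := fun m => (abs_nonneg _).trans (hU a ha m)
    refine (Finset.sum_le_card_nsmul _ _ _ key).trans ?_
    rw [Finset.card_univ, Fintype.card_perm, nsmul_eq_mul, abs_of_nonneg (Finset.prod_nonneg (fun m _ => hU0 m))]
  · simp only [not_exists, not_not] at hne
    have hi : i = j := hne i
    have he : univ.erase i = (∅ : Finset κ) := by
      apply Finset.eq_empty_of_forall_notMem
      intro m hm
      exact (Finset.mem_erase.mp hm).1 ((hne m).trans hi.symm)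
    refine (Finset.sum_le_card_nsmul _ _ _ key).trans ?_
    rw [Finset.card_univ, Fintype.card_perm, nsmul_eq_mul, he]
    simp

/-- **Gap lemma.** PROOF: let `Δ` be the determinant. `det_dvd`: `Δ * G i` is divisible by `P = ∏ m, G m` for every `i`; if no non-unit divides all `G i` then the ideal of the `G i` is the
unit ideal (`ℤ` is a PID: the generator of `Ideal.span (Set.range G)` divides all `G i`; or `Finset.gcd`), `1 = ∑ c i G i`, so `P ∣ Δ`. If `Δ ≠ 0` then `|P| ≤ |Δ|`, against `det_le`. -/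
theorem gap {κ : Type} [Fintype κ] [DecidableEq κ] {j : κ} {V : Matrix κ κ ℤ} (hV : ∀ a, a ≠ j → ∑ i, V a i = 0) {G : κ → ℤ}
    (hG : ∀ a, a ≠ j → ∀ i, G i ∣ V a i) (hgcd : ∀ d : ℤ, (∀ i, d ∣ G i) → IsUnit d) {U : κ → ℝ}
    (hU : ∀ a, a ≠ j → ∀ i, |(V a i : ℝ)| ≤ U i) {i₁ : κ}
    (hlt : (Fintype.card κ).factorial * ∏ m ∈ univ.erase i₁, U m < |((∏ m, G m : ℤ) : ℝ)|) :
    (V.updateRow j (Pi.single j 1)).det = 0 := by
  set Δ := (V.updateRow j (Pi.single j 1)).det with hΔ
  by_contra hne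
  have hP : ∀ i, (∏ m, G m) ∣ Δ * G i := by
    intro i
    have h1 := det_dvd hV hG i
    rw [← Finset.prod_erase_mul univ G (Finset.mem_univ i)]
    exact mul_dvd_mul h1 dvd_rfl
  have hdvd : (∏ m, G m) ∣ Δ := by
    have h1 : (∏ m, G m) ∣ Finset.gcd univ (fun i => Δ * G i) := Finset.dvd_gcd (fun i _ => hP i)
    rw [Finset.gcd_mul_left] at h1
    have h2 : IsUnit (Finset.gcd univ G) := hgcd _ (fun i => Finset.gcd_dvd (Finset.mem_univ i))
    have h3 : normalize Δ * Finset.gcd univ G ∣ Δ := by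
      have h4 : normalize Δ ∣ Δ := (normalize_associated Δ).dvd
      exact (h2.mul_right_dvd).mpr h4
    exact h1.trans h3
  have hle := det_le hV hU i₁
  rw [← hΔ] at hle
  have h5 : |(∏ m, G m)| ≤ |Δ| := by
    have := Int.natAbs_le_of_dvd_ne_zero hdvd hne
    rw [Int.abs_eq_natAbs, Int.abs_eq_natAbs]
    exact_mod_cast this
  have h6 : |((∏ m, G m : ℤ) : ℝ)| ≤ |(Δ : ℝ)| := by
    exact_mod_cast h5
  linarith

end Pool.MP_a95293_nt.TN
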