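import Mathlib

/-!
# Piece TN-GRP: one prime power or two groups
-/

set_option autoImplicit false

namespace Pool.MP_a95293_nt.TN

open Finset

/-- PROOF: write `P K = ∏ p ∈ K, p ^ m.factorization p`; `P m.primeFactors = m` (`Nat.factorization_prod_pow_eq_self`, `Nat.prod_factorization_eq_prod_primeFactors`). (A) If some prime `q ∣ m` has `m ≤ (q ^ v)^3`,
`v = m.factorization q`: `K₁ = m.primeFactors.erase q`, `K₂ = ∅`, `e = v`: `P K₁ ^ 3 * m ≤ P K₁ ^ 3 * (q ^ v) ^ 3 = m ^ 3`. (B) Otherwise `q = 1`, `e = 0`, `K₁ ⊆ m.primeFactors` of maximal cardinality with `P K₁ ^ 3 ≤ m ^ 2`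
(`∅` is allowed), `K₂ = m.primeFactors \ K₁`. If `K₂` contains `p` then `m ^ 2 < (P K₁ * p ^ v) ^ 3` and `(p ^ v) ^ 3 < m`, so `m < P K₁ ^ 3`, and `P K₁ * P K₂ = m` gives `P K₂ ^ 3 ≤ m ^ 2`. -/
theorem grp {m : ℕ} (hm : 1 ≤ m) : ∃ (K₁ K₂ : Finset ℕ) (q e : ℕ), K₁ ∪ K₂ ⊆ m.primeFactors ∧ (q = 1 ∨ q.Prime) ∧
    m = (∏ p ∈ K₁ ∪ K₂, p ^ m.factorization p) * q ^ e ∧ (∏ p ∈ K₁, p ^ m.factorization p) ^ 3 ≤ m ^ 2 ∧
    (∏ p ∈ K₂, p ^ m.factorization p) ^ 3 ≤ m ^ 2 := by
  classical
  have hm0 : m ≠ 0 := Nat.one_le_iff_ne_zero.mp hm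
  have hP : ∏ p ∈ m.primeFactors, p ^ m.factorization p = m := by
    have h := Nat.prod_factorization_pow_eq_self hm0
    rw [Nat.prod_factorization_eq_prod_primeFactors] at h
    exact h
  have hpos : ∀ K : Finset ℕ, K ⊆ m.primeFactors → 0 < ∏ p ∈ K, p ^ m.factorization p := by
    intro K hK
    apply Finset.prod_pos
    intro p hp
    exact pow_pos (Nat.prime_of_mem_primeFactors (hK hp)).pos _
  have h1m : 1 ≤ m ^ 2 := Nat.one_le_pow _ _ hm
  by_cases hA : ∃ q ∈ m.primeFactors, m ≤ (q ^ m.factorization q) ^ 3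
  · obtain ⟨q, hq, hqm⟩ := hA
    have hsub : m.primeFactors.erase q ⊆ m.primeFactors := Finset.erase_subset _ _
    have hmul : q ^ m.factorization q * ∏ p ∈ m.primeFactors.erase q, p ^ m.factorization p = m := by
      rw [Finset.mul_prod_erase m.primeFactors (fun p => p ^ m.factorization p) hq, hP]
    refine ⟨m.primeFactors.erase q, ∅, q, m.factorization q, ?_, Or.inr (Nat.prime_of_mem_primeFactors hq), ?_, ?_, ?_⟩
    · rw [Finset.union_empty]
      exact hsub
    · rw [Finset.union_empty, mul_comm]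
      exact hmul.symm
    · set A := ∏ p ∈ m.primeFactors.erase q, p ^ m.factorization p with hAdef
      have h2 : A ^ 3 * m ≤ m ^ 2 * m := by
        calc A ^ 3 * m ≤ A ^ 3 * (q ^ m.factorization q) ^ 3 := Nat.mul_le_mul_left _ hqm
          _ = (q ^ m.factorization q * A) ^ 3 := by ring
          _ = m ^ 2 * m := by rw [hmul]; ring
      exact Nat.le_of_mul_le_mul_right h2 (Nat.pos_of_ne_zero hm0)
    · rw [Finset.prod_empty, one_pow]
      exact h1m
  · push Not at hA
    obtain ⟨K₁, hK₁, hmax⟩ := Finset.exists_max_image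
      (m.primeFactors.powerset.filter (fun K => (∏ p ∈ K, p ^ m.factorization p) ^ 3 ≤ m ^ 2))
      Finset.card ⟨∅, by
        rw [Finset.mem_filter, Finset.mem_powerset]
        refine ⟨Finset.empty_subset _, ?_⟩
        rw [Finset.prod_empty, one_pow]
        exact h1m⟩
    rw [Finset.mem_filter, Finset.mem_powerset] at hK₁
    obtain ⟨hKs, hKle⟩ := hK₁
    have hun : K₁ ∪ m.primeFactors \ K₁ = m.primeFactors := Finset.union_sdiff_of_subset hKs
    have hmul : (∏ p ∈ m.primeFactors \ K₁, p ^ m.factorization p) *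
        (∏ p ∈ K₁, p ^ m.factorization p) = m := by
      rw [Finset.prod_sdiff hKs, hP]
    refine ⟨K₁, m.primeFactors \ K₁, 1, 0, ?_, Or.inl rfl, ?_, hKle, ?_⟩
    · rw [hun]
    · rw [hun, hP]
      simp
    · by_cases hne : (m.primeFactors \ K₁).Nonempty
      · obtain ⟨p, hp⟩ := hne
        rw [Finset.mem_sdiff] at hp
        obtain ⟨hp1, hp2⟩ := hp
        have hins : ¬ (∏ r ∈ insert p K₁, r ^ m.factorization r) ^ 3 ≤ m ^ 2 := by
          intro hle
          have h3 := hmax (insert p K₁) (by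
            rw [Finset.mem_filter, Finset.mem_powerset]
            exact ⟨Finset.insert_subset hp1 hKs, hle⟩)
          rw [Finset.card_insert_of_notMem hp2] at h3
          omega
        rw [Finset.prod_insert hp2] at hins
        have h4 := hA p hp1
        have hB : 0 < ∏ r ∈ K₁, r ^ m.factorization r := hpos K₁ hKs
        set B := ∏ r ∈ K₁, r ^ m.factorization r with hBdef
        set C := ∏ r ∈ m.primeFactors \ K₁, r ^ m.factorization r with hCdef
        have h5 : m ^ 2 < (p ^ m.factorization p * B) ^ 3 := not_le.mp hins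
        have hB3 : 0 < B ^ 3 := pow_pos hB 3
        have h6 : m * m < m * B ^ 3 := by
          calc m * m = m ^ 2 := by ring
            _ < (p ^ m.factorization p * B) ^ 3 := h5
            _ = (p ^ m.factorization p) ^ 3 * B ^ 3 := by ring
            _ ≤ m * B ^ 3 := Nat.mul_le_mul_right _ h4.le
        have h7 : m < B ^ 3 := Nat.lt_of_mul_lt_mul_left h6
        have h8 : C ^ 3 * m ≤ m ^ 2 * m := by
          calc C ^ 3 * m ≤ C ^ 3 * B ^ 3 := Nat.mul_le_mul_left _ h7.le
            _ = (C * B) ^ 3 := by ring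
            _ = m ^ 2 * m := by rw [hmul]; ring
        exact Nat.le_of_mul_le_mul_right h8 (Nat.pos_of_ne_zero hm0)
      · rw [Finset.not_nonempty_iff_eq_empty] at hne
        rw [hne, Finset.prod_empty, one_pow]
        exact h1m

end Pool.MP_a95293_nt.TN
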