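import Pool.Agent.Lib_MP_a95293_tn.TDefs

/-!
# Piece TN-REL: vanishing determinants give a relation
-/

set_option autoImplicit false

namespace Pool.MP_a95293_nt.TN

open Finset

/-- a rational relation can be made integral -/
private theorem Rel_int {κ : Type} [Fintype κ] [DecidableEq κ] (q : κ → ℚ) (hq : q ≠ 0) :
    ∃ (b : κ → ℤ) (D : ℚ), b ≠ 0 ∧ ∀ i, (b i : ℚ) = D * q i := by
  have hD : (∏ k, ((q k).den : ℚ)) ≠ 0 := prod_ne_zero_iff.2 fun k _ => by
    exact_mod_cast (q k).den_ne_zero
  have hb : ∀ i, (((q i).num * ∏ k ∈ univ.erase i, ((q k).den : ℤ) : ℤ) : ℚ) = (∏ k, ((q k).den : ℚ)) * q i := by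
    intro i
    have h1 : (∏ k, ((q k).den : ℚ)) = (q i).den * ∏ k ∈ univ.erase i, ((q k).den : ℚ) :=
      (mul_prod_erase univ (fun k => ((q k).den : ℚ)) (mem_univ i)).symm
    have h2 : ((q i).den : ℚ) * q i = (q i).num := by
      rw [mul_comm]
      exact Rat.mul_den_eq_num (q i)
    rw [h1]
    push_cast
    rw [← h2]
    ring
  refine ⟨fun i => (q i).num * ∏ k ∈ univ.erase i, ((q k).den : ℤ), ∏ k, ((q k).den : ℚ), ?_, hb⟩
  intro h0
  apply hq
  funext i
  have h1 := hb i
  have h2 : (q i).num * ∏ k ∈ univ.erase i, ((q k).den : ℤ) = 0 := congrFun h0 i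
  rw [h2, Int.cast_zero] at h1
  exact (mul_eq_zero.1 h1.symm).resolve_left hD

/-- **Relations.** PROOF: consider the restrictions `y' = (y i)_(i ≠ j) ∈ ℚ^{i // i ≠ j}` of the elements of `Y` and their span `W`. If `W ≠ ⊤` there is a non-zero functional which vanishes on
`W` (`Submodule.exists_le_ker_of_lt_top`); its coefficients, multiplied by a common denominator and extended by `b j = 0`, are the relation. If `W = ⊤` then `Module.Basis.ofSpan` gives a basis
of elements of the form `y'`, indexed (after `Basis.reindex`, cardinalities `Module.finrank_fintype_fun_eq_card`) by `{i // i ≠ j}`; let `V a` be the corresponding elements of `Y` (`V j` arbitrary, e.g. 0). The rows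
of `V.updateRow j e_j` (cast to `ℚ`) are linearly independent, so the determinant is not zero (`Matrix.linearIndependent_rows_iff_isUnit`), against `h`. -/
theorem relation {κ : Type} [Fintype κ] [DecidableEq κ] (j : κ) (Y : Set (κ → ℤ)) (hne : ∃ i, i ≠ j)
    (h : ∀ V : Matrix κ κ ℤ, (∀ a, a ≠ j → (fun i => V a i) ∈ Y) → (V.updateRow j (Pi.single j 1)).det = 0) :
    ∃ b : κ → ℤ, b ≠ 0 ∧ b j = 0 ∧ ∀ y ∈ Y, ∑ i, b i * y i = 0 := by
  classical
  set e : κ → ℚ := Pi.single j 1 with he
  have he0 : e ≠ 0 := by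
    intro h0
    have := congrFun h0 j
    rw [he, Pi.single_eq_same, Pi.zero_apply] at this
    exact one_ne_zero this
  set T : Set (κ → ℚ) := insert e ((fun (y : κ → ℤ) (i : κ) => (y i : ℚ)) '' Y) with hT
  by_cases hW : Submodule.span ℚ T = ⊤
  · exfalso
    have hs : LinearIndepOn ℚ id ({e} : Set (κ → ℚ)) := LinearIndepOn.singleton (R := ℚ) he0
    obtain ⟨B, hB1, hB2, hB3, hB4⟩ := exists_linearIndepOn_id_extension hs
      (show ({e} : Set (κ → ℚ)) ⊆ T from Set.singleton_subset_iff.2 (Set.mem_insert _ _))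
    have heB : e ∈ B := hB2 rfl
    have hspan : ⊤ ≤ Submodule.span ℚ (Set.range ((↑) : B → κ → ℚ)) := by
      rw [Subtype.range_coe, ← hW]
      exact Submodule.span_le.2 hB3
    have hli : LinearIndependent ℚ ((↑) : B → κ → ℚ) := hB4
    set bas := Module.Basis.mk hli hspan with hbas
    have hfin : Finite B := Module.Finite.finite_basis bas
    have : Fintype B := Fintype.ofFinite B
    have hcard : Fintype.card κ = Fintype.card B := by
      rw [← Module.finrank_eq_card_basis bas, Module.finrank_fintype_fun_eq_card]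
    let σ₀ : κ ≃ B := Fintype.equivOfCardEq hcard
    let σ : κ ≃ B := (Equiv.swap j (σ₀.symm ⟨e, heB⟩)).trans σ₀
    have hσj : σ j = ⟨e, heB⟩ := by
      show σ₀ (Equiv.swap j (σ₀.symm ⟨e, heB⟩) j) = _
      rw [Equiv.swap_apply_left, Equiv.apply_symm_apply]
    have hY : ∀ a, a ≠ j → ∃ y ∈ Y, (fun i => (y i : ℚ)) = (σ a : κ → ℚ) := by
      intro a ha
      have h1 : (σ a : κ → ℚ) ∈ T := hB1 (σ a).2
      rw [hT, Set.mem_insert_iff] at h1
      rcases h1 with h1 | h1
      · exfalso
        apply ha
        apply σ.injective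
        rw [hσj]
        exact Subtype.ext h1
      · obtain ⟨y, hy, hy2⟩ := h1
        exact ⟨y, hy, hy2⟩
    choose! y hy1 hy2 using hY
    set V : Matrix κ κ ℤ := fun a i => y a i with hV
    have hdet := h V (fun a ha => hy1 a ha)
    have hrow : ((V.updateRow j (Pi.single j 1)).map (Int.cast : ℤ → ℚ)) = fun a => (σ a : κ → ℚ) := by
      funext a i
      rw [Matrix.map_apply]
      by_cases ha : a = j
      · rw [ha, hσj, Matrix.updateRow_self]
        show _ = e i
        rw [he]
        by_cases hi : i = j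
        · rw [hi, Pi.single_eq_same, Pi.single_eq_same, Int.cast_one]
        · rw [Pi.single_eq_of_ne hi, Pi.single_eq_of_ne hi, Int.cast_zero]
      · rw [Matrix.updateRow_ne ha]
        exact congrFun (hy2 a ha) i
    have hli2 : LinearIndependent ℚ (fun a => (σ a : κ → ℚ)) := hli.comp σ σ.injective
    have hunit : IsUnit ((V.updateRow j (Pi.single j 1)).map (Int.cast : ℤ → ℚ)) := by
      rw [← Matrix.linearIndependent_rows_iff_isUnit, hrow]
      exact hli2
    rw [Matrix.isUnit_iff_isUnit_det] at hunit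
    have hdq : ((V.updateRow j (Pi.single j 1)).map (Int.cast : ℤ → ℚ)).det = 0 := by
      have h2 := RingHom.map_det (Int.castRingHom ℚ) (V.updateRow j (Pi.single j 1))
      rw [hdet, map_zero] at h2
      exact h2.symm
    rw [hdq] at hunit
    exact not_isUnit_zero hunit
  · obtain ⟨f, hf0, hf⟩ := Submodule.exists_le_ker_of_lt_top _ (lt_top_iff_ne_top.2 hW)
    have hfT : ∀ t ∈ T, f t = 0 := fun t ht => hf (Submodule.subset_span ht)
    set q : κ → ℚ := fun i => f (Pi.single i 1) with hq
    have hfq : ∀ t : κ → ℚ, f t = ∑ i, t i * q i := by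
      intro t
      conv_lhs => rw [← Finset.univ_sum_single t]
      rw [map_sum]
      refine sum_congr rfl fun i _ => ?_
      have h1 : (Pi.single i (t i) : κ → ℚ) = t i • (Pi.single i 1 : κ → ℚ) := by
        rw [← Pi.single_smul, smul_eq_mul, mul_one]
      rw [h1, map_smul, smul_eq_mul]
    have hq0 : q ≠ 0 := by
      intro h0
      apply hf0
      ext t
      have h1 := hfq (Pi.single t 1)
      rw [h0] at h1
      simpa using h1
    obtain ⟨b, D, hb0, hb⟩ := Rel_int q hq0
    refine ⟨b, hb0, ?_, fun y hy => ?_⟩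
    · have h1 : (b j : ℚ) = 0 := by
        rw [hb j]
        have h2 : q j = 0 := hfT e (Set.mem_insert _ _)
        rw [h2, mul_zero]
      exact_mod_cast h1
    · have h1 : f (fun i => (y i : ℚ)) = 0 := hfT _ (Set.mem_insert_of_mem _ ⟨y, hy, rfl⟩)
      rw [hfq] at h1
      have h2 : ((∑ i, b i * y i : ℤ) : ℚ) = 0 := by
        push_cast
        calc ∑ i, (b i : ℚ) * y i = D * ∑ i, (y i : ℚ) * q i := by
              rw [mul_sum]
              refine sum_congr rfl fun i _ => ?_
              rw [hb i]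
              ring
          _ = 0 := by rw [h1, mul_zero]
      exact_mod_cast h2

end Pool.MP_a95293_nt.TN
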