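import Pool.Agent.Lib_MP_a95293_tn.Gap
import Pool.Agent.Lib_MP_a95293_tn.Rel

/-!
# Piece TN-STEP: one class of vectors satisfies a relation
-/

set_option autoImplicit false

namespace Pool.MP_a95293_nt.TN

open Finset

/-- equal floors -/
private theorem Step_floor {Q : ℕ} {L a b : ℝ} (hQ : 0 < Q) (hL : 0 < L) (hb : 0 ≤ b)
    (h : ⌊(Q : ℝ) * a / L⌋₊ = ⌊(Q : ℝ) * b / L⌋₊) : a ≤ b + L / Q := by
  have hQR : (0 : ℝ) < Q := by exact_mod_cast hQ
  have h1 := Nat.lt_floor_add_one ((Q : ℝ) * a / L)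
  have h2 : ((⌊(Q : ℝ) * b / L⌋₊ : ℕ) : ℝ) ≤ (Q : ℝ) * b / L := Nat.floor_le (by positivity)
  rw [h] at h1
  have h3 : (Q : ℝ) * a / L < (Q : ℝ) * b / L + 1 := by linarith
  have h4 : (Q : ℝ) * a < Q * b + L := by
    rw [div_lt_iff₀ hL] at h3
    calc (Q : ℝ) * a < ((Q : ℝ) * b / L + 1) * L := h3
      _ = Q * b + L := by field_simp
  have h5 : a < (Q * b + L) / Q := by
    rw [lt_div_iff₀ hQR]
    linarith
  have h6 : ((Q : ℝ) * b + L) / Q = b + L / Q := by field_simp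
  linarith

/-- PROOF: let `k = card κ`, `s = |S|`, `E = exp (L s / Q)`, `E' = exp (L / Q)`, so `E^(3k) E'^3 ≤ exp (L / 2)`. `A` is nonempty; for `i`, `p ∈ S` let `μ i p` be the minimum of `v a i p` over `a ∈ A` (attained);
`G i = r i * ∏ p ∈ S, p ^ μ i p`. Then `G i ∣ Y a i` and, the floors being equal, `p ^ v a i p ≤ p ^ μ i p * exp (L / Q)`, so `|Y a i| ≤ E * G i` for `i ≠ j` and `|Y a j| ≤ E * G j * w a`; and
`|Y a j| ≤ E' * |Y a' j|` for all `a, a' ∈ A`. No non-unit divides all `G i` (it would divide all `Y a i`). Apply `relation` to `Y = {Y a | a ∈ A}`. Given `V` with rows in it (there is a row `a₀` as `card κ ≥ 2`: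
otherwise the sum zero gives `Y = 0`), let `i₁ ≠ j` have `|Y a₀ i₁|` maximal among the `|Y a₀ i|`, `i ≠ j`, and apply `gap` with `U i = E * G i` (`i ≠ j`), `U j = E' * |Y a₀ j|`. Suppose `∏ G ≤ k! ∏_{i ≠ i₁} U i`:
`G i₁ * G j ≤ k! E^(k-2) E' |Y a₀ j| ≤ k! E^(k-1) E' G j w`, so `|Y a₀ i₁| ≤ E G i₁ ≤ k! E^k E' w`, and `w^3 ≤ |Y a₀ j|^2 ≤ k^2 |Y a₀ i₁|^2` (sum zero), so
`|Y a₀ i₁| ≤ (k!)^3 k^2 E^(3k) E'^3`, all `|Y a₀ i| ≤ k |Y a₀ i₁| ≤ (k! k)^3 exp (L / 2) < exp L`, against `hbig`. -/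
theorem step_rel {κ : Type} [Fintype κ] [DecidableEq κ] {j : κ} {S : Finset ℕ} (hS : ∀ p ∈ S, p.Prime) {r : κ → ℕ} {α : Type} {A : Set α}
    (hA : A.Nonempty) {Y : α → κ → ℤ} {v : α → κ → ℕ → ℕ} {w : α → ℕ} (hY : ∀ a ∈ A, Vec j S r (Y a) (v a) (w a)) {L : ℝ}
    (hL : (((Fintype.card κ).factorial : ℝ) * (Fintype.card κ : ℝ)) ^ 3 < Real.exp (L / 2))
    (hbig : ∀ a ∈ A, ∃ i, Real.exp L ≤ ((Y a i).natAbs : ℝ)) {Q : ℕ} (hQ : Q = 6 * (Fintype.card κ + 1) * (S.card + 1))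
    (hcl : ∀ a ∈ A, ∀ a' ∈ A, ∀ i, ∀ p ∈ S, ⌊(Q : ℝ) * (v a i p * Real.log p) / L⌋₊ = ⌊(Q : ℝ) * (v a' i p * Real.log p) / L⌋₊)
    (hcj : ∀ a ∈ A, ∀ a' ∈ A, ⌊(Q : ℝ) * Real.log ((Y a j).natAbs : ℝ) / L⌋₊ = ⌊(Q : ℝ) * Real.log ((Y a' j).natAbs : ℝ) / L⌋₊) :
    ∃ b : κ → ℤ, b ≠ 0 ∧ b j = 0 ∧ ∀ a ∈ A, ∑ i, b i * Y a i = 0 := by
  classical
  set k := Fintype.card κ with hk
  set s := S.card with hs
  have hk1 : 1 ≤ k := Fintype.card_pos_iff.2 ⟨j⟩
  have hkR : (1 : ℝ) ≤ k := by exact_mod_cast hk1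
  have hf1 : (1 : ℝ) ≤ (k.factorial : ℝ) := by exact_mod_cast Nat.one_le_iff_ne_zero.2 k.factorial_ne_zero
  have hL0 : 0 < L := by
    by_contra hcon
    push Not at hcon
    have h1 : Real.exp (L / 2) ≤ 1 := by
      rw [Real.exp_le_one_iff]
      linarith
    have h2 : (1 : ℝ) ≤ ((k.factorial : ℝ) * (k : ℝ)) ^ 3 := one_le_pow₀ (by nlinarith)
    linarith
  have hQ0 : 0 < Q := by
    rw [hQ]
    positivity
  have hQR : (0 : ℝ) < Q := by exact_mod_cast hQ0
  set E : ℝ := Real.exp (L / Q) ^ s with hE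
  set E' : ℝ := Real.exp (L / Q) with hE'
  have hE'0 : 0 < E' := Real.exp_pos _
  have hE'1 : 1 ≤ E' := Real.one_le_exp (by positivity)
  have hE0 : 0 < E := pow_pos hE'0 _
  have hE1 : 1 ≤ E := one_le_pow₀ hE'1
  have hEE : E ^ (3 * k) * E' ^ 3 ≤ Real.exp (L / 2) := by
    rw [hE, ← pow_mul, ← pow_add, hE', ← Real.exp_nat_mul]
    apply Real.exp_le_exp.2
    have h1 : ((s * (3 * k) + 3 : ℕ) : ℝ) * 2 ≤ Q := by
      rw [hQ]
      have : (s * (3 * k) + 3) * 2 ≤ 6 * (k + 1) * (s + 1) := by nlinarith [Nat.zero_le (k * s)]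
      exact_mod_cast this
    rw [← mul_div_assoc, div_le_div_iff₀ hQR (by norm_num)]
    nlinarith
  -- the minima
  set μ : κ → ℕ → ℕ := fun i p => sInf ((fun a => v a i p) '' A) with hμ
  have hμ1 : ∀ i p, ∃ a ∈ A, v a i p = μ i p := by
    intro i p
    have h1 := Nat.sInf_mem (hA.image fun a => v a i p)
    obtain ⟨a, ha, h2⟩ := h1
    exact ⟨a, ha, h2⟩
  have hμ2 : ∀ a ∈ A, ∀ i p, μ i p ≤ v a i p := fun a ha i p => Nat.sInf_le ⟨a, ha, rfl⟩
  set g : κ → ℕ := fun i => r i * ∏ p ∈ S, p ^ μ i p with hg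
  set G : κ → ℤ := fun i => (g i : ℤ) with hG
  have hr : ∀ i, 0 < r i := by
    intro i
    obtain ⟨a, ha⟩ := hA
    obtain ⟨h1, -, -, h4, h5, -⟩ := hY a ha
    rcases Nat.eq_zero_or_pos (r i) with h0 | h0
    · exfalso
      by_cases hij : i = j
      · subst hij
        rw [h0, zero_mul, zero_mul, Int.natAbs_eq_zero] at h5
        exact h1 i h5
      · have h6 := h4 i hij
        rw [h0, zero_mul, Int.natAbs_eq_zero] at h6
        exact h1 i h6
    · exact h0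
  have hg0 : ∀ i, 0 < g i := fun i => Nat.mul_pos (hr i) (Finset.prod_pos fun p hp => pow_pos (hS p hp).pos _)
  have hdv : ∀ a ∈ A, ∀ i, (∏ p ∈ S, p ^ μ i p) ∣ ∏ p ∈ S, p ^ v a i p := fun a ha i =>
    Finset.prod_dvd_prod_of_dvd _ _ fun p _ => pow_dvd_pow p (hμ2 a ha i p)
  have hGd : ∀ a ∈ A, ∀ i, G i ∣ Y a i := by
    intro a ha i
    obtain ⟨-, -, -, h4, h5, -⟩ := hY a ha
    rw [hG]
    apply Int.natCast_dvd.2
    by_cases hij : i = j
    · subst hij
      rw [h5]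
      exact Dvd.dvd.mul_right (mul_dvd_mul_left _ (hdv a ha i)) _
    · rw [h4 i hij]
      exact mul_dvd_mul_left _ (hdv a ha i)
  have hpv : ∀ a ∈ A, ∀ i, ∀ p ∈ S, (p : ℝ) ^ v a i p ≤ E' * (p : ℝ) ^ μ i p := by
    intro a ha i p hp
    obtain ⟨a', ha', h1⟩ := hμ1 i p
    have hp1 : (1 : ℝ) < p := by exact_mod_cast (hS p hp).one_lt
    have hlp : 0 < Real.log p := Real.log_pos hp1
    have h2 := Step_floor (a := v a i p * Real.log p) (b := v a' i p * Real.log p) hQ0 hL0 (by positivity)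
      (hcl a ha a' ha' i p hp)
    rw [← h1, hE']
    have h3 : ∀ m : ℕ, (p : ℝ) ^ m = Real.exp (m * Real.log p) := by
      intro m
      rw [Real.exp_nat_mul, Real.exp_log (by linarith)]
    rw [h3, h3, ← Real.exp_add]
    apply Real.exp_le_exp.2
    linarith
  have hprod : ∀ a ∈ A, ∀ i, ((∏ p ∈ S, p ^ v a i p : ℕ) : ℝ) ≤ E * ((∏ p ∈ S, p ^ μ i p : ℕ) : ℝ) := by
    intro a ha i
    push_cast
    calc ∏ p ∈ S, (p : ℝ) ^ v a i p ≤ ∏ p ∈ S, (E' * (p : ℝ) ^ μ i p) :=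
          Finset.prod_le_prod (fun p _ => by positivity) fun p hp => hpv a ha i p hp
      _ = E * ∏ p ∈ S, (p : ℝ) ^ μ i p := by
          rw [Finset.prod_mul_distrib, prod_const]
  have hle1 : ∀ a ∈ A, ∀ i, i ≠ j → ((Y a i).natAbs : ℝ) ≤ E * g i := by
    intro a ha i hij
    obtain ⟨-, -, -, h4, -, -⟩ := hY a ha
    rw [h4 i hij, hg]
    push_cast
    have h1 := hprod a ha i
    push_cast at h1
    have h2 : (0 : ℝ) ≤ r i := Nat.cast_nonneg _
    nlinarith [mul_le_mul_of_nonneg_left h1 h2]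
  have hle2 : ∀ a ∈ A, ((Y a j).natAbs : ℝ) ≤ E * g j * w a := by
    intro a ha
    obtain ⟨-, -, -, -, h5, -⟩ := hY a ha
    rw [h5, hg]
    push_cast
    have h1 := hprod a ha j
    push_cast at h1
    have h2 : (0 : ℝ) ≤ r j * w a := by positivity
    nlinarith [mul_le_mul_of_nonneg_left h1 h2]
  have hle3 : ∀ a ∈ A, ∀ a' ∈ A, ((Y a j).natAbs : ℝ) ≤ E' * ((Y a' j).natAbs : ℝ) := by
    intro a ha a' ha'
    have h1 : 1 ≤ (Y a j).natAbs := Nat.one_le_iff_ne_zero.2 (Int.natAbs_ne_zero.2 ((hY a ha).1 j))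
    have h1' : 1 ≤ (Y a' j).natAbs := Nat.one_le_iff_ne_zero.2 (Int.natAbs_ne_zero.2 ((hY a' ha').1 j))
    have h2 : (1 : ℝ) ≤ ((Y a j).natAbs : ℝ) := by exact_mod_cast h1
    have h2' : (1 : ℝ) ≤ ((Y a' j).natAbs : ℝ) := by exact_mod_cast h1'
    have h3 := Step_floor hQ0 hL0 (Real.log_nonneg h2') (hcj a ha a' ha')
    calc ((Y a j).natAbs : ℝ) = Real.exp (Real.log ((Y a j).natAbs : ℝ)) := (Real.exp_log (by linarith)).symm
      _ ≤ Real.exp (L / Q + Real.log ((Y a' j).natAbs : ℝ)) := Real.exp_le_exp.2 (by linarith)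
      _ = E' * ((Y a' j).natAbs : ℝ) := by rw [Real.exp_add, Real.exp_log (by linarith)]
  -- another coordinate
  have hne : ∃ i, i ≠ j := by
    by_contra hcon
    push Not at hcon
    obtain ⟨a, ha⟩ := hA
    obtain ⟨h1, h2, -, -, -, -⟩ := hY a ha
    apply h1 j
    rw [← h2]
    exact (Fintype.sum_eq_single j fun i hi => absurd (hcon i) hi).symm
  obtain ⟨b, hb0, hbj, hb⟩ := relation j {y | ∃ a ∈ A, y = Y a} hne (by
    intro V hV
    obtain ⟨a₀, ha₀⟩ := hA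
    obtain ⟨k1, k2, k3, k4, k5, k6⟩ := hY a₀ ha₀
    -- the largest coordinate
    obtain ⟨i₁, hi₁, hmax⟩ := Finset.exists_max_image (univ.erase j) (fun i => (Y a₀ i).natAbs)
      (by
        obtain ⟨i, hi⟩ := hne
        exact ⟨i, mem_erase.2 ⟨hi, mem_univ i⟩⟩)
    have hi₁j : i₁ ≠ j := (mem_erase.1 hi₁).1
    set y₁ : ℝ := ((Y a₀ i₁).natAbs : ℝ) with hy₁
    have hy1pos : 0 < y₁ := by
      rw [hy₁]
      exact_mod_cast Int.natAbs_pos.2 (k1 i₁)
    have hyj : ((Y a₀ j).natAbs : ℝ) ≤ k * y₁ := by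
      have h1 : Y a₀ j = -∑ i ∈ univ.erase j, Y a₀ i := by
        have h2 : Y a₀ j + ∑ i ∈ univ.erase j, Y a₀ i = ∑ i, Y a₀ i := Finset.add_sum_erase univ (Y a₀) (mem_univ j)
        rw [k2] at h2
        linarith
      have h2 : (Y a₀ j).natAbs ≤ ∑ i ∈ univ.erase j, (Y a₀ i).natAbs := by
        rw [h1, Int.natAbs_neg]
        exact Int.natAbs_sum_le _ _
      have h3 : ∑ i ∈ univ.erase j, (Y a₀ i).natAbs ≤ (univ.erase j).card • (Y a₀ i₁).natAbs :=
        Finset.sum_le_card_nsmul _ _ _ hmax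
      have h4 : (univ.erase j).card ≤ k := (card_le_card (erase_subset _ _)).trans (le_of_eq card_univ)
      have h5 : (Y a₀ j).natAbs ≤ k * (Y a₀ i₁).natAbs := by
        refine (h2.trans h3).trans ?_
        rw [smul_eq_mul]
        exact Nat.mul_le_mul_right _ h4
      rw [hy₁]
      exact_mod_cast h5
    have hall : ∀ i, ((Y a₀ i).natAbs : ℝ) ≤ k * y₁ := by
      intro i
      by_cases hij : i = j
      · rw [hij]
        exact hyj
      · have h1 : (Y a₀ i).natAbs ≤ (Y a₀ i₁).natAbs := hmax i (mem_erase.2 ⟨hij, mem_univ i⟩)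
        have h2 : ((Y a₀ i).natAbs : ℝ) ≤ y₁ := by
          rw [hy₁]
          exact_mod_cast h1
        nlinarith
    set U : κ → ℝ := fun i => if i = j then E' * ((Y a₀ j).natAbs : ℝ) else E * g i with hU
    apply gap (G := G) (U := U) (i₁ := i₁)
    · intro a ha
      obtain ⟨a', ha', h1⟩ := hV a ha
      have h2 : ∀ i, V a i = Y a' i := fun i => congrFun h1 i
      exact (Finset.sum_congr rfl fun i _ => h2 i).trans (hY a' ha').2.1
    · intro a ha i
      obtain ⟨a', ha', h1⟩ := hV a ha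
      have h2 : V a i = Y a' i := congrFun h1 i
      rw [h2]
      exact hGd a' ha' i
    · intro d hd
      exact k3 d fun i => (hd i).trans (hGd a₀ ha₀ i)
    · intro a ha i
      obtain ⟨a', ha', h1⟩ := hV a ha
      have h2 : V a i = Y a' i := congrFun h1 i
      have h3 : |((Y a' i : ℤ) : ℝ)| = ((Y a' i).natAbs : ℝ) := by
        rw [← Int.cast_abs, ← Nat.cast_natAbs]
      rw [h2, h3, hU]
      by_cases hij : i = j
      · subst hij
        simp only [if_true]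
        exact hle3 a' ha' a₀ ha₀
      · simp only [if_neg hij]
        exact hle1 a' ha' i hij
    · -- the inequality
      have hgR : ∀ i, (0 : ℝ) < g i := fun i => by exact_mod_cast hg0 i
      have hjm : j ∈ univ.erase i₁ := mem_erase.2 ⟨hi₁j.symm, mem_univ j⟩
      set Pr : ℝ := ∏ m ∈ (univ.erase i₁).erase j, (g m : ℝ) with hPr
      have hPr0 : 0 < Pr := Finset.prod_pos fun m _ => hgR m
      have e1 : ∏ m ∈ univ.erase i₁, U m = E' * ((Y a₀ j).natAbs : ℝ) * (E ^ ((univ.erase i₁).erase j).card * Pr) := by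
        rw [← mul_prod_erase _ _ hjm]
        have h1 : U j = E' * ((Y a₀ j).natAbs : ℝ) := by
          rw [hU]
          simp only [if_true]
        have h2 : ∏ m ∈ (univ.erase i₁).erase j, U m = E ^ ((univ.erase i₁).erase j).card * Pr := by
          rw [hPr, ← prod_const, ← Finset.prod_mul_distrib]
          refine prod_congr rfl fun m hm => ?_
          rw [hU]
          simp only [if_neg (mem_erase.1 hm).1]
        rw [h1, h2]
      have e2 : |((∏ m, G m : ℤ) : ℝ)| = (g i₁ : ℝ) * (g j * Pr) := by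
        have h1 : ((∏ m, G m : ℤ) : ℝ) = ∏ m, (g m : ℝ) := by
          rw [hG]
          push_cast
          rfl
        rw [h1, abs_of_pos (Finset.prod_pos fun m _ => hgR m), ← mul_prod_erase _ _ (mem_univ i₁), ← mul_prod_erase _ _ hjm]
      rw [e1, e2]
      by_contra hcon
      push Not at hcon
      have hc1 : ((univ.erase i₁).erase j).card ≤ k := (card_le_card ((erase_subset _ _).trans (erase_subset _ _))).trans
        (le_of_eq card_univ)
      have hc2 : ((univ.erase i₁).erase j).card + 2 ≤ k := by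
        have h1 : (univ.erase i₁).card + 1 = k := by
          rw [card_erase_add_one (mem_univ i₁)]
          exact card_univ
        have h2 : ((univ.erase i₁).erase j).card + 1 = (univ.erase i₁).card := card_erase_add_one hjm
        omega
      set c := ((univ.erase i₁).erase j).card with hc
      -- divide by Pr
      have f1 : (g i₁ : ℝ) * g j ≤ k.factorial * (E' * ((Y a₀ j).natAbs : ℝ) * E ^ c) := by
        refine le_of_mul_le_mul_right ?_ hPr0
        calc (g i₁ : ℝ) * g j * Pr = (g i₁ : ℝ) * (g j * Pr) := by ring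
          _ ≤ k.factorial * (E' * ((Y a₀ j).natAbs : ℝ) * (E ^ c * Pr)) := hcon
          _ = _ := by ring
      have f2 : (g i₁ : ℝ) * g j ≤ k.factorial * (E' * (E * g j * w a₀) * E ^ c) := by
        refine f1.trans ?_
        have := hle2 a₀ ha₀
        gcongr
      have f3 : (g i₁ : ℝ) ≤ k.factorial * (E' * E ^ (c + 1) * w a₀) := by
        refine le_of_mul_le_mul_right ?_ (hgR j)
        refine f2.trans (le_of_eq ?_)
        ring
      have hw0 : (0 : ℝ) ≤ w a₀ := Nat.cast_nonneg _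
      have f4 : y₁ ≤ k.factorial * (E' * E ^ k * w a₀) := by
        calc y₁ ≤ E * g i₁ := hle1 a₀ ha₀ i₁ hi₁j
          _ ≤ E * (k.factorial * (E' * E ^ (c + 1) * w a₀)) := mul_le_mul_of_nonneg_left f3 hE0.le
          _ = k.factorial * (E' * E ^ (c + 2) * w a₀) := by ring
          _ ≤ k.factorial * (E' * E ^ k * w a₀) := by
              have := pow_le_pow_right₀ hE1 hc2
              gcongr
      have f5 : y₁ ^ 3 ≤ ((k.factorial : ℝ) ^ 3 * (E ^ (3 * k) * E' ^ 3)) * (k * y₁) ^ 2 := by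
        have h1 : (w a₀ : ℝ) ^ 3 ≤ (k * y₁) ^ 2 := by
          have h2 : ((w a₀ : ℝ)) ^ 3 ≤ ((Y a₀ j).natAbs : ℝ) ^ 2 := by exact_mod_cast k6
          exact h2.trans (pow_le_pow_left₀ (Nat.cast_nonneg _) hyj 2)
        calc y₁ ^ 3 ≤ (k.factorial * (E' * E ^ k * w a₀)) ^ 3 := pow_le_pow_left₀ hy1pos.le f4 3
          _ = ((k.factorial : ℝ) ^ 3 * (E ^ (3 * k) * E' ^ 3)) * (w a₀ : ℝ) ^ 3 := by ring
          _ ≤ _ := mul_le_mul_of_nonneg_left h1 (by positivity)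
      have f6 : y₁ ≤ (k.factorial : ℝ) ^ 3 * Real.exp (L / 2) * (k : ℝ) ^ 2 := by
        have h1 : y₁ * y₁ ^ 2 ≤ ((k.factorial : ℝ) ^ 3 * Real.exp (L / 2) * (k : ℝ) ^ 2) * y₁ ^ 2 := by
          calc y₁ * y₁ ^ 2 = y₁ ^ 3 := by ring
            _ ≤ ((k.factorial : ℝ) ^ 3 * (E ^ (3 * k) * E' ^ 3)) * (k * y₁) ^ 2 := f5
            _ ≤ ((k.factorial : ℝ) ^ 3 * Real.exp (L / 2)) * (k * y₁) ^ 2 := by gcongr
            _ = _ := by ring
        exact le_of_mul_le_mul_right h1 (by positivity)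
      obtain ⟨i, hi⟩ := hbig a₀ ha₀
      have f7 : Real.exp L ≤ k * y₁ := hi.trans (hall i)
      have f8 : Real.exp L < Real.exp L := by
        calc Real.exp L ≤ k * y₁ := f7
          _ ≤ k * ((k.factorial : ℝ) ^ 3 * Real.exp (L / 2) * (k : ℝ) ^ 2) := mul_le_mul_of_nonneg_left f6 (by positivity)
          _ = ((k.factorial : ℝ) * (k : ℝ)) ^ 3 * Real.exp (L / 2) := by ring
          _ < Real.exp (L / 2) * Real.exp (L / 2) := mul_lt_mul_of_pos_right hL (Real.exp_pos _)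
          _ = Real.exp L := by
              rw [← Real.exp_add]
              congr 1
              ring
      exact lt_irrefl _ f8)
  exact ⟨b, hb0, hbj, fun a ha => hb (Y a) ⟨a, ha, rfl⟩⟩

end Pool.MP_a95293_nt.TN
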