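import Pool.Agent.Lib_MP_a95293_tn.CntT
import Pool.Agent.Lib_MP_a95293_tn.Grp

/-!
# Piece TN-STRUC: the structure theorem
-/

set_option autoImplicit false

namespace Pool.MP_a95293_nt.TN

open Finset Pool.MP_a95293_nt.RC Pool.MP_a95293_nt.PQ

/-- PROOF: `grp` for every `|x i|` (`x i ≠ 0`): `K₁ i`, `K₂ i`, `q i`, `e i`; `a i = sign (x i) * ∏ p ∈ K₁ i ∪ K₂ i, p ^ v`. The primes of `∏ a i` are in `⋃ (K₁ i ∪ K₂ i)`, so `radZ (∏ a i) ≤ ∏_i (∏_{K₁ i} p) (∏_{K₂ i} p)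
< (X^(ε / (2 n)))^(2n) = X^ε`, unless some `K = K₁ i` or `K₂ i` has `∏ p ∈ K, p ≥ X^(ε/(2n))`. -/
theorem shape_or {n : ℕ} (hn : 1 ≤ n) {X : ℕ} (hX : 1 ≤ X) {ε : ℝ} {x : Fin n → ℤ} (hx0 : ∀ i, x i ≠ 0) : Shape ((X : ℝ) ^ ε) x ∨
    ∃ j, ∃ K ⊆ (x j).natAbs.primeFactors, (∏ p ∈ K, p ^ (x j).natAbs.factorization p) ^ 3 ≤ (x j).natAbs ^ 2 ∧
      (X : ℝ) ^ (ε / (2 * n)) ≤ ∏ p ∈ K, (p : ℝ) := by
  classical
  have hg : ∀ i, ∃ (K₁ K₂ : Finset ℕ) (q e : ℕ), K₁ ∪ K₂ ⊆ (x i).natAbs.primeFactors ∧ (q = 1 ∨ q.Prime) ∧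
      (x i).natAbs = (∏ p ∈ K₁ ∪ K₂, p ^ (x i).natAbs.factorization p) * q ^ e ∧
      (∏ p ∈ K₁, p ^ (x i).natAbs.factorization p) ^ 3 ≤ (x i).natAbs ^ 2 ∧
      (∏ p ∈ K₂, p ^ (x i).natAbs.factorization p) ^ 3 ≤ (x i).natAbs ^ 2 := fun i =>
    grp (Nat.one_le_iff_ne_zero.mpr (Int.natAbs_ne_zero.mpr (hx0 i)))
  choose K₁ K₂ q e hsub hq hm hw₁ hw₂ using hg
  by_cases h1 : ∃ j, (X : ℝ) ^ (ε / (2 * n)) ≤ ∏ p ∈ K₁ j, (p : ℝ)
  · obtain ⟨j, hj⟩ := h1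
    exact Or.inr ⟨j, K₁ j, subset_union_left.trans (hsub j), hw₁ j, hj⟩
  by_cases h2 : ∃ j, (X : ℝ) ^ (ε / (2 * n)) ≤ ∏ p ∈ K₂ j, (p : ℝ)
  · obtain ⟨j, hj⟩ := h2
    exact Or.inr ⟨j, K₂ j, subset_union_right.trans (hsub j), hw₂ j, hj⟩
  push Not at h1 h2
  left
  have hPp : ∀ i, ∀ p ∈ K₁ i ∪ K₂ i, p.Prime := fun i p hp => Nat.prime_of_mem_primeFactors (hsub i hp)
  refine ⟨fun i => (x i).sign * ((∏ p ∈ K₁ i ∪ K₂ i, p ^ (x i).natAbs.factorization p : ℕ) : ℤ), q, e, ?_, hq, ?_⟩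
  · intro j
    have h3 := Int.sign_mul_natAbs (x j)
    have h4 : (((x j).natAbs : ℕ) : ℤ) =
        ((∏ p ∈ K₁ j ∪ K₂ j, p ^ (x j).natAbs.factorization p : ℕ) : ℤ) * (q j : ℤ) ^ e j := by
      conv_lhs => rw [hm j]
      rw [Nat.cast_mul, Nat.cast_pow]
    rw [h4, ← mul_assoc] at h3
    exact h3.symm
  · have hN : radZ (∏ j, (x j).sign * ((∏ p ∈ K₁ j ∪ K₂ j, p ^ (x j).natAbs.factorization p : ℕ) : ℤ)) ∣
        ∏ j, ((∏ p ∈ K₁ j, p) * ∏ p ∈ K₂ j, p) := by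
      unfold radZ
      apply Finset.prod_primes_dvd
      · intro p hp
        exact (Nat.prime_of_mem_primeFactors hp).prime
      · intro p hp
        have hpp := Nat.prime_of_mem_primeFactors hp
        have h5 : (p : ℤ) ∣ ∏ j, (x j).sign * ((∏ p ∈ K₁ j ∪ K₂ j, p ^ (x j).natAbs.factorization p : ℕ) : ℤ) :=
          Int.natCast_dvd.2 (Nat.dvd_of_mem_primeFactors hp)
        rw [(Nat.prime_iff_prime_int.1 hpp).dvd_finsetProd_iff] at h5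
        obtain ⟨j, -, hj⟩ := h5
        have h6 : p ∣ ∏ p ∈ K₁ j ∪ K₂ j, p ^ (x j).natAbs.factorization p := by
          have h7 := Int.natCast_dvd.1 hj
          rw [Int.natAbs_mul, Int.natAbs_natCast] at h7
          rcases (hpp.dvd_mul).1 h7 with h8 | h8
          · rw [Int.natAbs_sign_of_ne_zero (hx0 j)] at h8
            exact absurd (Nat.dvd_one.1 h8) hpp.one_lt.ne'
          · exact h8
        rw [(hpp.prime).dvd_finsetProd_iff] at h6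
        obtain ⟨r, hr, hpr⟩ := h6
        have h7 : p = r := (Nat.prime_dvd_prime_iff_eq hpp (hPp j r hr)).1 (hpp.dvd_of_dvd_pow hpr)
        subst h7
        refine Dvd.dvd.trans ?_ (dvd_prod_of_mem _ (mem_univ j))
        rcases mem_union.1 hr with h8 | h8
        · exact (dvd_prod_of_mem _ h8).mul_right _
        · exact (dvd_prod_of_mem _ h8).mul_left _
    have hpos : 0 < ∏ j, ((∏ p ∈ K₁ j, p) * ∏ p ∈ K₂ j, p) := by
      apply Finset.prod_pos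
      intro j _
      apply Nat.mul_pos
      · exact Finset.prod_pos fun p hp => (hPp j p (mem_union_left _ hp)).pos
      · exact Finset.prod_pos fun p hp => (hPp j p (mem_union_right _ hp)).pos
    have h9 := Nat.le_of_dvd hpos hN
    have hX0 : (0 : ℝ) < X := by exact_mod_cast hX
    have hY0 : (0 : ℝ) ≤ (X : ℝ) ^ (ε / (2 * n)) := Real.rpow_nonneg hX0.le _
    calc (radZ (∏ j, (x j).sign * ((∏ p ∈ K₁ j ∪ K₂ j, p ^ (x j).natAbs.factorization p : ℕ) : ℤ)) : ℝ)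
        ≤ ((∏ j, ((∏ p ∈ K₁ j, p) * ∏ p ∈ K₂ j, p) : ℕ) : ℝ) := by exact_mod_cast h9
      _ = ∏ j, ((∏ p ∈ K₁ j, (p : ℝ)) * ∏ p ∈ K₂ j, (p : ℝ)) := by push_cast; rfl
      _ ≤ ∏ _j : Fin n, ((X : ℝ) ^ (ε / (2 * n)) * (X : ℝ) ^ (ε / (2 * n))) := by
          apply Finset.prod_le_prod
          · intro j _
            positivity
          · intro j _
            exact mul_le_mul (h1 j).le (h2 j).le (by positivity) hY0
      _ = (X : ℝ) ^ ε := by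
          rw [prod_const, card_univ, Fintype.card_fin, ← Real.rpow_add hX0, ← Real.rpow_mul_natCast hX0.le]
          congr 1
          have hn0 : (n : ℝ) ≠ 0 := by
            have : n ≠ 0 := by omega
            exact_mod_cast this
          field_simp
          ring

/-- **Structure theorem.** PROOF: `shape_or`, `cntT` with `ε / (2 n)`. -/
theorem structN (n B : ℕ) (hn : 2 ≤ n) {ε : ℝ} (hε : 0 < ε) : ∃ X₀ : ℕ, ∀ X ≥ X₀, ∀ Z : Finset (Fin n → ℤ),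
    (∀ x ∈ Z, CAdm (Real.exp (Real.exp (Real.log X ^ B))) x ∧ radZ (∏ i, x i) ≤ X ∧ ¬ Shape ((X : ℝ) ^ ε) x) →
    (Z.card : ℝ) ≤ (X : ℝ) ^ (1 - ε / (4 * n)) := by
  have hn0 : (0 : ℝ) < n := by
    have : 0 < n := by omega
    exact_mod_cast this
  obtain ⟨X₀, h⟩ := cntT n B hn (show 0 < ε / (2 * n) by positivity)
  refine ⟨max X₀ 1, fun X hX Z hZ => ?_⟩
  have hX1 : 1 ≤ X := (le_max_right _ _).trans hX
  have h1 := h X ((le_max_left _ _).trans hX) Z (fun x hx => by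
    obtain ⟨h2, h3, h4⟩ := hZ x hx
    exact ⟨h2, h3, (shape_or (by omega) hX1 (cadm_tup hn h2).1).resolve_left h4⟩)
  refine h1.trans (le_of_eq ?_)
  congr 1
  field_simp
  ring

end Pool.MP_a95293_nt.TN
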