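import Pool.Agent.Lib_MP_a95293_tn.CntTH
import Pool.Agent.Lib_MP_a95293_tn.Struc

/-!
# The structure theorem for heights up to `exp (exp (X ^ (c ε)))`
-/

set_option autoImplicit false

namespace Pool.MP_a95293_nt.TN

open Finset Pool.MP_a95293_nt.RC Pool.MP_a95293_nt.PQ

private theorem StrucH_card (Y : ℕ) (S : Finset ℕ) (hS : ∀ p ∈ S, p.Prime) :
    Y ^ (S.card - Y) ≤ ∏ p ∈ S, p := by
  rcases Nat.eq_zero_or_pos Y with rfl | hY
  · rcases Nat.eq_zero_or_pos S.card with h | h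
    · rw [Finset.card_eq_zero.1 h]; simp
    · rw [Nat.sub_zero, zero_pow (by omega)]; exact Nat.zero_le _
  have h1 : (S.filter fun p => Y ≤ p).card ≥ S.card - Y := by
    have h2 := Finset.card_filter_add_card_filter_not (s := S) (fun p => Y ≤ p)
    have h3 : (S.filter fun p => ¬ Y ≤ p).card ≤ Y := by
      calc (S.filter fun p => ¬ Y ≤ p).card ≤ (Finset.range Y).card := by
            apply Finset.card_le_card
            intro p hp
            rw [Finset.mem_filter] at hp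
            exact Finset.mem_range.2 (not_le.1 hp.2)
        _ = Y := Finset.card_range Y
    omega
  calc Y ^ (S.card - Y) ≤ Y ^ (S.filter fun p => Y ≤ p).card := Nat.pow_le_pow_right hY h1
    _ ≤ ∏ p ∈ S.filter (fun p => Y ≤ p), p := by
        apply Finset.pow_card_le_prod
        intro p hp
        exact (Finset.mem_filter.1 hp).2
    _ ≤ ∏ p ∈ S, p := by
        apply Finset.prod_le_prod_of_subset_of_one_le'
        · exact Finset.filter_subset _ _
        · intro p hp _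
          exact (hS p hp).one_lt.le

/-- as `Bd_small`, for larger heights -/
theorem Bd_smallH (C : ℕ) (hC : 1 ≤ C) {κ : ℝ} (hκ : 0 < κ) : ∃ X₀ : ℕ, ∀ X ≥ X₀, ∀ T₀ : ℝ, T₀ ≤ (X : ℝ) ^ (κ / (4 * C)) →
    ∀ S : Finset ℕ, (∀ p ∈ S, p.Prime) → ∏ p ∈ S, p ≤ X → (Bd C S.card ⌈2 * Real.exp T₀⌉₊ : ℝ) ≤ (X : ℝ) ^ κ := by
  have hlogN : Filter.Tendsto (fun n : ℕ => Real.log (n : ℝ)) Filter.atTop Filter.atTop :=
    Real.tendsto_log_atTop.comp tendsto_natCast_atTop_atTop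
  set D : ℝ := C * Real.log (C + 1) with hD
  have hD0 : 0 ≤ D := mul_nonneg (Nat.cast_nonneg _) (Real.log_nonneg (by
    have : (0 : ℝ) ≤ C := Nat.cast_nonneg _
    linarith))
  obtain ⟨Y, hY2, hY⟩ : ∃ Y : ℕ, 2 ≤ Y ∧ 4 * D / κ ≤ Real.log Y := by
    have := (hlogN.eventually_ge_atTop (4 * D / κ)).and (Filter.eventually_ge_atTop 2)
    obtain ⟨Y, h1, h2⟩ := this.exists
    exact ⟨Y, h2, h1⟩
  have hlogY : 0 < Real.log Y := Real.log_pos (by exact_mod_cast (by omega : 1 < Y))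
  have hDY : D ≤ κ / 4 * Real.log Y := by
    rw [div_le_iff₀ hκ] at hY
    linarith
  have E1 : ∀ᶠ X : ℕ in Filter.atTop, D * (Y + 1) * 4 / κ ≤ Real.log X :=
    hlogN.eventually_ge_atTop _
  have hC0 : (0 : ℝ) < C := by exact_mod_cast hC
  have E2 : ∀ᶠ X : ℕ in Filter.atTop, (8 : ℝ) ^ C ≤ (X : ℝ) ^ (κ / 4) :=
    tendsto_natCast_atTop_atTop.eventually ((tendsto_rpow_atTop (show 0 < κ / 4 by positivity)).eventually_ge_atTop _)
  have E3 : ∀ᶠ X : ℕ in Filter.atTop, 1 ≤ Real.log X := hlogN.eventually_ge_atTop 1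
  obtain ⟨X₀, hX₀⟩ := Filter.eventually_atTop.1 ((E1.and E2).and (E3.and (Filter.eventually_ge_atTop 1)))
  refine ⟨X₀, fun X hX T₀ hT₀ S hS hprod => ?_⟩
  obtain ⟨⟨e1, e2⟩, e3, e4⟩ := hX₀ X hX
  have hXpos : (0 : ℝ) < X := by exact_mod_cast e4
  set s := S.card with hs
  set T : ℝ := (X : ℝ) ^ (κ / (4 * C)) with hT
  have hT1 : 1 ≤ T := Real.one_le_rpow (by exact_mod_cast e4) (by positivity)
  -- the number of primes
  have hcard : ((s : ℝ) - Y) * Real.log Y ≤ Real.log X := by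
    rcases le_or_gt s Y with h | h
    · have : ((s : ℝ) - Y) ≤ 0 := by
        have : (s : ℝ) ≤ Y := by exact_mod_cast h
        linarith
      nlinarith
    · have h1 : Y ^ (s - Y) ≤ X := (StrucH_card Y S hS).trans hprod
      have h2 : ((Y : ℝ)) ^ (s - Y) ≤ X := by exact_mod_cast h1
      have h3 := Real.log_le_log (by positivity) h2
      rw [Real.log_pow, Nat.cast_sub h.le] at h3
      exact h3
  -- the first factor
  have hf1 : ((C : ℝ) + 1) ^ ((s + 1) * C) ≤ (X : ℝ) ^ (κ / 2) := by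
    have hC1 : (0 : ℝ) < (C : ℝ) + 1 := by positivity
    rw [← Real.exp_log (pow_pos hC1 _), Real.log_pow, Real.rpow_def_of_pos hXpos, Real.exp_le_exp]
    push_cast
    have h1 : ((s : ℝ) + 1) * C * Real.log (C + 1) = D * (Y + 1) + ((s : ℝ) - Y) * D := by
      rw [hD]; ring
    rw [h1]
    have h2 : D * (Y + 1) ≤ κ / 4 * Real.log X := by
      rw [div_le_iff₀ hκ] at e1
      linarith
    have h3 : ((s : ℝ) - Y) * D ≤ κ / 4 * Real.log X := by
      rcases le_or_gt ((s : ℝ) - Y) 0 with h | h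
      · have : ((s : ℝ) - Y) * D ≤ 0 := mul_nonpos_of_nonpos_of_nonneg h hD0
        have : 0 ≤ κ / 4 * Real.log X := by positivity
        linarith
      · calc ((s : ℝ) - Y) * D ≤ ((s : ℝ) - Y) * (κ / 4 * Real.log Y) :=
              mul_le_mul_of_nonneg_left hDY h.le
          _ = κ / 4 * (((s : ℝ) - Y) * Real.log Y) := by ring
          _ ≤ κ / 4 * Real.log X := mul_le_mul_of_nonneg_left hcard (by positivity)
    linarith
  -- the second factor
  have hL : ((Nat.log 2 ⌈2 * Real.exp T⌉₊ : ℝ) + 2) ≤ 8 * T := by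
    have hexp1 : 1 ≤ Real.exp T := Real.one_le_exp (by linarith)
    have hceil : ((⌈2 * Real.exp T⌉₊ : ℕ) : ℝ) ≤ 3 * Real.exp T := by
      have := (Nat.ceil_lt_add_one (show (0 : ℝ) ≤ 2 * Real.exp T by positivity)).le
      linarith
    have hne : ⌈2 * Real.exp T⌉₊ ≠ 0 := by
      have : 0 < ⌈2 * Real.exp T⌉₊ := Nat.ceil_pos.2 (by positivity)
      omega
    have hpow : (2 : ℝ) ^ (Nat.log 2 ⌈2 * Real.exp T⌉₊) ≤ 3 * Real.exp T := by
      have := Nat.pow_log_le_self 2 hne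
      have h2 : ((2 : ℝ)) ^ (Nat.log 2 ⌈2 * Real.exp T⌉₊) ≤ ((⌈2 * Real.exp T⌉₊ : ℕ) : ℝ) := by
        exact_mod_cast this
      exact h2.trans hceil
    have hlog := Real.log_le_log (by positivity) hpow
    rw [Real.log_pow, Real.log_mul (by norm_num) (Real.exp_pos _).ne', Real.log_exp] at hlog
    have hlog2 : (1 : ℝ) / 2 ≤ Real.log 2 := by
      have := Real.log_two_gt_d9
      linarith
    have hlog3 : Real.log 3 ≤ 2 := by
      have := Real.log_le_sub_one_of_pos (show (0 : ℝ) < 3 by norm_num)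
      linarith
    have hn : (0 : ℝ) ≤ (Nat.log 2 ⌈2 * Real.exp T⌉₊ : ℝ) := Nat.cast_nonneg _
    nlinarith
  have hf2 : ((Nat.log 2 ⌈2 * Real.exp T⌉₊ : ℝ) + 2) ^ C ≤ (X : ℝ) ^ (κ / 2) := by
    calc ((Nat.log 2 ⌈2 * Real.exp T⌉₊ : ℝ) + 2) ^ C ≤ (8 * T) ^ C :=
          pow_le_pow_left₀ (by positivity) hL _
      _ = 8 ^ C * (X : ℝ) ^ (κ / 4) := by
          rw [mul_pow, hT, ← Real.rpow_mul_natCast hXpos.le]
          congr 2
          field_simp
      _ ≤ (X : ℝ) ^ (κ / 4) * (X : ℝ) ^ (κ / 4) := mul_le_mul_of_nonneg_right e2 (by positivity)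
      _ = (X : ℝ) ^ (κ / 2) := by
          rw [← Real.rpow_add hXpos]
          congr 1
          ring
  have hsplit : (X : ℝ) ^ κ = (X : ℝ) ^ (κ / 2) * (X : ℝ) ^ (κ / 2) := by
    rw [← Real.rpow_add hXpos]; congr 1; ring
  rw [hsplit]
  have hmono : (Bd C s ⌈2 * Real.exp T₀⌉₊ : ℝ) ≤ (Bd C s ⌈2 * Real.exp T⌉₊ : ℝ) := by
    have h1 : ⌈2 * Real.exp T₀⌉₊ ≤ ⌈2 * Real.exp T⌉₊ := Nat.ceil_mono (by
      have := Real.exp_le_exp.2 hT₀
      linarith)
    have h2 : Bd C s ⌈2 * Real.exp T₀⌉₊ ≤ Bd C s ⌈2 * Real.exp T⌉₊ := by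
      unfold Bd
      exact Nat.pow_le_pow_left (Nat.mul_le_mul_left _ (Nat.add_le_add_right (Nat.log_mono_right h1) _)) _
    exact_mod_cast h2
  refine hmono.trans ?_
  unfold Bd
  push_cast
  rw [mul_pow, ← pow_mul]
  refine mul_le_mul ?_ hf2 (by positivity) (by positivity)
  refine le_trans (pow_le_pow_left₀ (by positivity) (by linarith) _) hf1

/-- **Structure theorem.** -/
theorem structH (n : ℕ) (hn : 2 ≤ n) : ∃ c : ℝ, 0 < c ∧ ∀ ε : ℝ, 0 < ε → ∃ X₀ : ℕ, ∀ X ≥ X₀, ∀ Z : Finset (Fin n → ℤ),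
    (∀ x ∈ Z, CAdm (Real.exp (Real.exp ((X : ℝ) ^ (c * ε)))) x ∧ radZ (∏ i, x i) ≤ X ∧ ¬ Shape ((X : ℝ) ^ ε) x) →
    (Z.card : ℝ) ≤ (X : ℝ) ^ (1 - c * ε) := by
  have hn0 : (0 : ℝ) < n := by
    have : 0 < n := by omega
    exact_mod_cast this
  obtain ⟨C, hC, hmain⟩ := cntTH n hn
  have hC0 : (0 : ℝ) < C := by exact_mod_cast hC
  have hC1 : (1 : ℝ) ≤ C := by exact_mod_cast hC
  refine ⟨1 / (32 * n * C), by positivity, fun ε hε => ?_⟩
  obtain ⟨X₁, hX₁⟩ := hmain (ε / (2 * n)) (by positivity)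
  obtain ⟨X₂, hX₂⟩ := Bd_smallH C hC (show 0 < ε / (2 * n) / 4 by positivity)
  refine ⟨max X₁ (max X₂ 1), fun X hX Z hZ => ?_⟩
  have g1 : X₁ ≤ X := (le_max_left _ _).trans hX
  have g2 : X₂ ≤ X := ((le_max_left _ _).trans (le_max_right _ _)).trans hX
  have hX1 : 1 ≤ X := ((le_max_right _ _).trans (le_max_right _ _)).trans hX
  have hX1' : (1 : ℝ) ≤ X := by exact_mod_cast hX1
  have e1 : 1 / (32 * n * C) * ε = ε / (2 * n) / 4 / (4 * C) := by
    field_simp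
    ring
  have h1 := hX₁ X g1 ((X : ℝ) ^ (1 / (32 * n * C) * ε)) (hX₂ X g2 _ (le_of_eq (by rw [e1]))) Z (fun x hx => by
    obtain ⟨h2, h3, h4⟩ := hZ x hx
    exact ⟨h2, h3, (shape_or (by omega) hX1 (cadm_tup hn h2).1).resolve_left h4⟩)
  refine h1.trans (Real.rpow_le_rpow_of_exponent_le hX1' ?_)
  have e2 : 1 / (32 * n * C) * ε ≤ ε / (2 * n) / 2 := by
    rw [e1, div_div, div_div, div_div, div_le_div_iff₀ (by positivity) (by positivity)]
    nlinarith [mul_pos hn0 hε]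
  linarith

end Pool.MP_a95293_nt.TN
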