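import Pool.Agent.Lib_MP_a95293_tn.Cover
import Pool.Agent.Lib_MP_a95293_tn.Sf

/-!
# Piece TN-TCOV: covering, with a free coordinate
-/

set_option autoImplicit false

namespace Pool.MP_a95293_nt.TN

open Finset

private theorem tcov_log (Λ t : ℕ) : Nat.log 2 (Λ + t) ≤ Nat.log 2 Λ + t := by
  rcases Nat.eq_zero_or_pos Λ with h | h
  · subst h
    simp only [zero_add, Nat.log_zero_right]
    rcases Nat.eq_zero_or_pos t with ht | ht
    · subst ht
      simp
    · exact (Nat.log_lt_self 2 ht.ne').le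
  · have h1 : Λ + t ≤ Λ * 2 ^ t := by
      have h2 : t + 1 ≤ 2 ^ t := Nat.lt_two_pow_self
      calc Λ + t ≤ Λ + Λ * t := by
            have := Nat.le_mul_of_pos_left t h
            omega
        _ = Λ * (t + 1) := by ring
        _ ≤ Λ * 2 ^ t := Nat.mul_le_mul_left _ h2
    calc Nat.log 2 (Λ + t) ≤ Nat.log 2 (Λ * 2 ^ t) := Nat.log_mono_right h1
      _ = Nat.log 2 Λ + t := by
          clear h1
          induction t with
          | zero => simp
          | succ n ih =>
            rw [pow_succ, ← mul_assoc, Nat.log_mul_base (by norm_num) (by positivity), ih]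
            ring

private theorem tcov_card {ι : Type} [Fintype ι] [DecidableEq ι] (C : ℕ) (Z : Finset (ι → ℤ))
    (h : ∀ x ∈ Z, ∀ i, (x i).natAbs ≤ C) : Z.card ≤ (2 * C + 1) ^ Fintype.card ι := by
  have h1 : Z ⊆ Fintype.piFinset (fun _ : ι => Finset.Icc (-(C : ℤ)) C) := by
    intro x hx
    rw [Fintype.mem_piFinset]
    intro i
    have := h x hx i
    rw [Finset.mem_Icc]
    omega
  refine (Finset.card_le_card h1).trans ?_
  rw [Fintype.card_piFinset]
  simp only [Int.card_Icc, Finset.prod_const, Finset.card_univ]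
  apply Nat.pow_le_pow_left
  omega

private theorem tcov_final {C₀ E s m Λ N M : ℕ} (hE : C₀ ≤ E) (hN : 1 ≤ N)
    (hM : M ≤ C₀ ^ (s + 1) * (Nat.log 2 (Λ + (m + 1)) + 2) * (N + (2 * C₀ + 1) ^ (m + 1))) :
    M ≤ (E * ((m + 2) * (1 + (2 * E + 1) ^ (m + 1)))) ^ (s + 1) * (Nat.log 2 Λ + 2) * N := by
  have h1 : Nat.log 2 (Λ + (m + 1)) + 2 ≤ (m + 2) * (Nat.log 2 Λ + 2) := by
    have h2 := tcov_log Λ (m + 1)
    nlinarith [Nat.zero_le (Nat.log 2 Λ * m)]
  have h3 : N + (2 * C₀ + 1) ^ (m + 1) ≤ (1 + (2 * E + 1) ^ (m + 1)) * N := by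
    have h4 : (2 * C₀ + 1) ^ (m + 1) ≤ (2 * E + 1) ^ (m + 1) := Nat.pow_le_pow_left (by omega) _
    have h5 : (2 * E + 1) ^ (m + 1) ≤ (2 * E + 1) ^ (m + 1) * N := Nat.le_mul_of_pos_right _ hN
    calc N + (2 * C₀ + 1) ^ (m + 1) ≤ N + (2 * E + 1) ^ (m + 1) * N := by omega
      _ = (1 + (2 * E + 1) ^ (m + 1)) * N := by ring
  have h6 : C₀ ^ (s + 1) ≤ E ^ (s + 1) := Nat.pow_le_pow_left hE _
  have h7 : 1 ≤ (m + 2) * (1 + (2 * E + 1) ^ (m + 1)) := by
    have : 0 < (m + 2) * (1 + (2 * E + 1) ^ (m + 1)) := by positivity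
    omega
  have h8 : (m + 2) * (1 + (2 * E + 1) ^ (m + 1)) ≤ ((m + 2) * (1 + (2 * E + 1) ^ (m + 1))) ^ (s + 1) :=
    Nat.le_self_pow (by omega) _
  calc M ≤ C₀ ^ (s + 1) * (Nat.log 2 (Λ + (m + 1)) + 2) * (N + (2 * C₀ + 1) ^ (m + 1)) := hM
    _ ≤ E ^ (s + 1) * ((m + 2) * (Nat.log 2 Λ + 2)) * ((1 + (2 * E + 1) ^ (m + 1)) * N) :=
        Nat.mul_le_mul (Nat.mul_le_mul h6 h1) h3
    _ = E ^ (s + 1) * ((m + 2) * (1 + (2 * E + 1) ^ (m + 1))) * (Nat.log 2 Λ + 2) * N := by ring
    _ ≤ E ^ (s + 1) * ((m + 2) * (1 + (2 * E + 1) ^ (m + 1))) ^ (s + 1) * (Nat.log 2 Λ + 2) * N := by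
        gcongr
    _ = (E * ((m + 2) * (1 + (2 * E + 1) ^ (m + 1)))) ^ (s + 1) * (Nat.log 2 Λ + 2) * N := by
        rw [← mul_pow]

private theorem tcov_unit {ι : Type} [Fintype ι] [DecidableEq ι] {S : Finset ℕ} {Λ : ℕ} {c : ℤ}
    {x : Option ι → ℤ} (hx : TSol S Λ c x) (i₀ : ι) (d : ℤ) (hd : ∀ i, d ∣ x i) : IsUnit d :=
  (hx.2.1 none (some i₀) (by simp)).isUnit_of_dvd' (hd none) (hd (some i₀))

private theorem tcov_some {ι : Type} [Fintype ι] [DecidableEq ι] {S : Finset ℕ}
    (hS : ∀ p ∈ S, p.Prime) {Λ : ℕ} {c : ℤ}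
    {x : Option ι → ℤ} (hx : TSol S Λ c x) (i : ι) :
    (x (some i)).natAbs = ∏ p ∈ S, p ^ (x (some i)).natAbs.factorization p := by
  have h0 : (x (some i)).natAbs ≠ 0 := Int.natAbs_ne_zero.mpr (hx.1 _)
  have h1 := sf_mul_prod hS h0
  rw [sf_one S (hx.2.2.1 i), one_mul] at h1
  exact h1

private theorem tcov_none {ι : Type} [Fintype ι] [DecidableEq ι] {S : Finset ℕ}
    (hS : ∀ p ∈ S, p.Prime) {Λ : ℕ} {c : ℤ}
    {x : Option ι → ℤ} (hx : TSol S Λ c x) :
    (x none).natAbs = (∏ p ∈ S, p ^ (x none).natAbs.factorization p) * sf S (x none).natAbs := by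
  have h0 : (x none).natAbs ≠ 0 := Int.natAbs_ne_zero.mpr (hx.1 _)
  have h1 := sf_mul_prod hS h0
  rw [mul_comm] at h1
  exact h1

/-- PROOF: `x ∈ Z`. If `c = 0`: `κ = Option ι`, `j = none`, `Y = x`, `r = 1`, `v i p = |x i|.factorization p`, `w = sf S |x none|`: `Vec` holds (`sf_mul_prod`, `sf_one`; a common divisor divides the coprime
`x none`, `x (some i)`; `1 ≤ m`). `cover (m + 1)` with `h = 1`. A relation with `b none = 0` is what we want with `β = 0`. If `c ≠ 0`: `κ = Option (Option ι)`, `none ↦ c`, `some i ↦ x i`, `j = some none`,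
`r none = |c|`, other `r = 1`, `v none = 0`; `cover (m + 2)` with `h = 1` and `Λ + m + 1` for `Λ` (`|c| = |∑ x i| ≤ (m+1) 2^Λ`). A relation `b₀ c + ∑ b i x (some i) = 0`: `β = b₀`, and `b ≠ 0` on `ι`, for otherwise
`b₀ c = 0`, so `b₀ = 0` (if `Z'` is empty there is nothing to prove: `Z'.card = 0`). Bounded sets `A'`: at most `(2 C₀ + 1)^(m+2)` elements (`x` is determined by `Y`). `N' = N + (2 C₀ + 1)^(m+2)`. -/
theorem tcover (m : ℕ) (hm : 1 ≤ m) : ∃ C : ℕ, 1 ≤ C ∧ ∀ (ι : Type) [Fintype ι] [DecidableEq ι], Fintype.card ι = m → ∀ S : Finset ℕ,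
    (∀ p ∈ S, p.Prime) → ∀ (Λ : ℕ) (c : ℤ) (Z : Finset (Option ι → ℤ)), (∀ x ∈ Z, TSol S Λ c x) → ∀ N : ℕ, 1 ≤ N →
    (∀ Z' ⊆ Z, (∃ (β : ℤ) (b : ι → ℤ), b ≠ 0 ∧ (c = 0 → β = 0) ∧ ∀ x ∈ Z', β * c + ∑ i, b i * x (some i) = 0) → Z'.card ≤ N) →
    Z.card ≤ C ^ (S.card + 1) * (Nat.log 2 Λ + 2) * N := by
  obtain ⟨C₁, hC₁, h₁⟩ := cover (m + 1)
  obtain ⟨C₂, hC₂, h₂⟩ := cover (m + 2)
  refine ⟨(C₁ + C₂) * ((m + 2) * (1 + (2 * (C₁ + C₂) + 1) ^ (m + 1))), ?_, ?_⟩
  · have : 0 < (C₁ + C₂) * ((m + 2) * (1 + (2 * (C₁ + C₂) + 1) ^ (m + 1))) := by positivity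
    omega
  intro ι _ _ hι S hS Λ c Z hZ N hN hrel
  have hne : Nonempty ι := by
    rw [← Fintype.card_pos_iff]
    omega
  obtain ⟨i₀⟩ := hne
  by_cases hc : c = 0
  · subst hc
    have key := h₁ (Option ι) (by rw [Fintype.card_option, hι]) none S hS (fun _ => 1) (Option ι → ℤ) Z
      (fun x => x) (fun x i p => (x i).natAbs.factorization p) (fun x => sf S (x none).natAbs) ?_ 1 Λ ?_ ?_
      (N + (2 * C₁ + 1) ^ (m + 1)) ?_
    · refine tcov_final (Nat.le_add_right _ _) hN (key.trans ?_)
      have : Nat.log 2 Λ ≤ Nat.log 2 (Λ + (m + 1)) := Nat.log_mono_right (Nat.le_add_right _ _)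
      gcongr
    · intro x hx
      have hT := hZ x hx
      refine ⟨hT.1, ?_, tcov_unit hT i₀, ?_, ?_, hT.2.2.2.1⟩
      · have := hT.2.2.2.2.2.1
        rwa [zero_add] at this
      · intro i hi
        cases i with
        | none => exact absurd rfl hi
        | some i =>
          simp only [one_mul]
          exact tcov_some hS hT i
      · simp only [one_mul]
        exact tcov_none hS hT
    · intro x hx
      exact ⟨none, Nat.one_le_iff_ne_zero.mpr (Int.natAbs_ne_zero.mpr ((hZ x hx).1 _))⟩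
    · intro x hx i
      rw [one_mul]
      exact (hZ x hx).2.2.2.2.1 i
    · intro A' hA' h
      rcases h with ⟨b, hb, hbn, hb0⟩ | h
      · refine (hrel A' hA' ⟨0, fun i => b (some i), ?_, fun _ => rfl, ?_⟩).trans (Nat.le_add_right _ _)
        · intro h0
          apply hb
          funext k
          cases k with
          | none => exact hbn
          | some i => exact congrFun h0 i
        · intro x hx
          have := hb0 x hx
          rw [Fintype.sum_option, hbn, zero_mul, zero_add] at this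
          rw [zero_mul, zero_add]
          exact this
      · have := tcov_card C₁ A' h
        rw [Fintype.card_option, hι] at this
        omega
  · have key := h₂ (Option (Option ι)) (by rw [Fintype.card_option, Fintype.card_option, hι]) (some none) S hS
      (fun k => Option.casesOn k c.natAbs (fun _ => 1)) (Option ι → ℤ) Z
      (fun x k => Option.casesOn k c (fun k' => x k'))
      (fun x k p => Option.casesOn k 0 (fun k' => (x k').natAbs.factorization p))
      (fun x => sf S (x none).natAbs) ?_ 1 (Λ + (m + 1)) ?_ ?_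
      (N + (2 * C₂ + 1) ^ (m + 1)) ?_
    · exact tcov_final (Nat.le_add_left _ _) hN key
    · intro x hx
      have hT := hZ x hx
      refine ⟨?_, ?_, ?_, ?_, ?_, hT.2.2.2.1⟩
      · intro k
        cases k with
        | none => exact hc
        | some k => exact hT.1 k
      · rw [Fintype.sum_option]
        exact hT.2.2.2.2.2.1
      · intro d hd
        exact tcov_unit hT i₀ d (fun i => hd (some i))
      · intro k hk
        cases k with
        | none =>
          simp only [pow_zero, Finset.prod_const_one, mul_one]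
        | some k =>
          cases k with
          | none => exact absurd rfl hk
          | some i =>
            simp only [one_mul]
            exact tcov_some hS hT i
      · simp only [one_mul]
        exact tcov_none hS hT
    · intro x hx
      exact ⟨none, Nat.one_le_iff_ne_zero.mpr (Int.natAbs_ne_zero.mpr hc)⟩
    · intro x hx k
      rw [one_mul]
      have hT := hZ x hx
      cases k with
      | none =>
        show c.natAbs ≤ 2 ^ (Λ + (m + 1))
        have h1 : c = -∑ i, x i := by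
          have := hT.2.2.2.2.2.1
          linarith
        have h2 : c.natAbs ≤ ∑ i, (x i).natAbs := by
          rw [h1, Int.natAbs_neg]
          exact Int.natAbs_sum_le _ _
        have h3 : ∑ i, (x i).natAbs ≤ ∑ _i : Option ι, 2 ^ Λ :=
          Finset.sum_le_sum (fun i _ => hT.2.2.2.2.1 i)
        rw [Finset.sum_const, Finset.card_univ, Fintype.card_option, hι, smul_eq_mul] at h3
        have h4 : m + 1 ≤ 2 ^ (m + 1) := Nat.lt_two_pow_self.le
        calc c.natAbs ≤ (m + 1) * 2 ^ Λ := h2.trans h3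
          _ ≤ 2 ^ (m + 1) * 2 ^ Λ := Nat.mul_le_mul_right _ h4
          _ = 2 ^ (Λ + (m + 1)) := by rw [mul_comm, ← pow_add]
      | some k =>
        exact (hT.2.2.2.2.1 k).trans (Nat.pow_le_pow_right (by norm_num) (Nat.le_add_right _ _))
    · intro A' hA' h
      rcases h with ⟨b, hb, hbn, hb0⟩ | h
      · have hrel' : ∀ x ∈ A', b none * c + ∑ i, b (some (some i)) * x (some i) = 0 := by
          intro x hx
          have := hb0 x hx
          rw [Fintype.sum_option, Fintype.sum_option, hbn, zero_mul, zero_add] at this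
          exact this
        by_cases hb' : (fun i => b (some (some i))) = 0
        · have hAe : A' = ∅ := by
            rw [Finset.eq_empty_iff_forall_notMem]
            intro x hx
            have h5 := hrel' x hx
            have h6 : ∀ i, b (some (some i)) = 0 := fun i => congrFun hb' i
            simp only [h6, zero_mul, Finset.sum_const_zero, add_zero] at h5
            have h7 : b none = 0 := by
              rcases mul_eq_zero.mp h5 with h | h
              · exact h
              · exact absurd h hc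
            apply hb
            funext k
            cases k with
            | none => exact h7
            | some k =>
              cases k with
              | none => exact hbn
              | some i => exact h6 i
          rw [hAe, Finset.card_empty]
          exact Nat.zero_le _
        · exact (hrel A' hA' ⟨b none, fun i => b (some (some i)), hb', fun h => absurd h hc, hrel'⟩).trans
            (Nat.le_add_right _ _)
      · have := tcov_card C₂ A' (fun x hx i => h x hx (some i))
        rw [Fintype.card_option, hι] at this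
        omega

end Pool.MP_a95293_nt.TN
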