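import Mathlib

/-!
# Tuples of S-units of bounded height: definitions
-/

set_option autoImplicit false

namespace Pool.MP_a95293_nt.TN

open Finset

/-- the part of `m` prime to `S` -/
noncomputable def sf (S : Finset ℕ) (m : ℕ) : ℕ := (m.factorization.filter fun p => p ∉ S).prod fun p e => p ^ e

/-- the shape of all bounds: `s` primes, entries at most `2^Λ` -/
def Bd (C s Λ : ℕ) : ℕ := (C ^ (s + 1) * (Nat.log 2 Λ + 2)) ^ C

/-- a pairwise coprime solution of `∑ b i x i = 0` in `S`-units, `|x i| ≤ 2 ^ Λ`, without vanishing proper subsum -/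
def USol {ι : Type} [Fintype ι] (S : Finset ℕ) (Λ : ℕ) (b x : ι → ℤ) : Prop :=
  (∀ i, x i ≠ 0) ∧ (∀ i j, i ≠ j → IsCoprime (x i) (x j)) ∧ (∀ i, (x i).natAbs.primeFactors ⊆ S) ∧
  (∀ i, (x i).natAbs ≤ 2 ^ Λ) ∧ ∑ i, b i * x i = 0 ∧
  ∀ I : Finset ι, I.Nonempty → I ≠ univ → ∑ i ∈ I, b i * x i ≠ 0

/-- pairwise coprime solutions of `c + ∑ x i = 0`; the entries `x (some i)` are `S`-units, the part of `x none` prime to `S` is small -/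
def TSol {ι : Type} [Fintype ι] (S : Finset ℕ) (Λ : ℕ) (c : ℤ) (x : Option ι → ℤ) : Prop :=
  (∀ i, x i ≠ 0) ∧ (∀ i j, i ≠ j → IsCoprime (x i) (x j)) ∧ (∀ i : ι, (x (some i)).natAbs.primeFactors ⊆ S) ∧
  (sf S (x none).natAbs) ^ 3 ≤ (x none).natAbs ^ 2 ∧ (∀ i, (x i).natAbs ≤ 2 ^ Λ) ∧ c + ∑ i, x i = 0 ∧
  ∀ I : Finset (Option ι), I.Nonempty → I ≠ univ → ∑ i ∈ I, x i ≠ 0

/-- the vectors which the determinant method handles: sum zero, primitive, `|Y i| = r i * (S-unit)` with fixed `r`, except that the coordinate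
`j` has a further factor `w`, `w ^ 3 ≤ |Y j| ^ 2` -/
def Vec {κ : Type} [Fintype κ] (j : κ) (S : Finset ℕ) (r : κ → ℕ) (Y : κ → ℤ) (v : κ → ℕ → ℕ) (w : ℕ) : Prop :=
  (∀ i, Y i ≠ 0) ∧ ∑ i, Y i = 0 ∧ (∀ d : ℤ, (∀ i, d ∣ Y i) → IsUnit d) ∧
  (∀ i, i ≠ j → (Y i).natAbs = r i * ∏ p ∈ S, p ^ v i p) ∧ (Y j).natAbs = r j * (∏ p ∈ S, p ^ v j p) * w ∧
  w ^ 3 ≤ (Y j).natAbs ^ 2

end Pool.MP_a95293_nt.TN
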