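import Pool.Agent.Lib_MP_a95293_tn.Struc
import Pool.Agent.Lib_MP_a95293_tn.CntU

/-!
# Piece TN-TOTAL: power saving at all heights, for all n
-/

set_option autoImplicit false

namespace Pool.MP_a95293_nt.TN

open Finset Pool.MP_a95293_nt.RC Pool.MP_a95293_nt.PQ

/-- **Power saving.** PROOF: `shapeN` with `η = 1/(2n)` gives `ε`; `structN` with this `ε`; `X^(1 - 1/(2n)) + X^(1 - ε/(4n)) ≤ X^(1-δ)`, `δ = min (1/(2n)) (ε/(4n)) / 2`. -/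
theorem totalN (n B : ℕ) (hn : 2 ≤ n) : ∃ δ : ℝ, 0 < δ ∧ ∃ X₀ : ℕ, ∀ X ≥ X₀, ∀ Z : Finset (Fin n → ℤ),
    (∀ x ∈ Z, CAdm (Real.exp (Real.exp (Real.log X ^ B))) x ∧ radZ (∏ i, x i) ≤ X) →
    (Z.card : ℝ) ≤ (X : ℝ) ^ (1 - δ) := by
  classical
  have hnR : (2 : ℝ) ≤ n := by exact_mod_cast hn
  have hn0 : (0 : ℝ) < n := by linarith
  obtain ⟨ε, hε, X₁, hX₁⟩ := shapeN n B hn (show (0 : ℝ) < 1 / (2 * n) by positivity)
  obtain ⟨X₂, hX₂⟩ := structN n B hn hε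
  set δ := min (1 / (2 * (n : ℝ))) (ε / (4 * n)) / 2 with hδ
  have hδ0 : 0 < δ := by
    rw [hδ]
    have : 0 < min (1 / (2 * (n : ℝ))) (ε / (4 * n)) := lt_min (by positivity) (by positivity)
    linarith
  have hδa : 2 * δ ≤ 1 / (2 * (n : ℝ)) := by
    rw [hδ]
    linarith [min_le_left (1 / (2 * (n : ℝ))) (ε / (4 * n))]
  have hδb : 2 * δ ≤ ε / (4 * n) := by
    rw [hδ]
    linarith [min_le_right (1 / (2 * (n : ℝ))) (ε / (4 * n))]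
  have e1 : ∀ᶠ x : ℝ in Filter.atTop, (2 : ℝ) ≤ x ^ δ := (tendsto_rpow_atTop hδ0).eventually_ge_atTop _
  obtain ⟨X₃, hX₃⟩ := Filter.eventually_atTop.1 (tendsto_natCast_atTop_atTop.eventually
    (e1.and (Filter.eventually_ge_atTop (1 : ℝ))))
  refine ⟨δ, hδ0, max X₁ (max X₂ X₃), fun X hX Z hZ => ?_⟩
  have g1 : X₁ ≤ X := (le_max_left _ _).trans hX
  have g2 : X₂ ≤ X := ((le_max_left _ _).trans (le_max_right _ _)).trans hX
  obtain ⟨g3, hX1⟩ := hX₃ X (((le_max_right _ _).trans (le_max_right _ _)).trans hX)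
  have hX0 : (0 : ℝ) < X := by linarith
  set Z₁ := Z.filter fun x => Shape ((X : ℝ) ^ ε) x with hZ₁
  set Z₂ := Z.filter fun x => ¬ Shape ((X : ℝ) ^ ε) x with hZ₂
  have hsplit : Z₁.card + Z₂.card = Z.card := card_filter_add_card_filter_not _
  have hb1 : (Z₁.card : ℝ) ≤ (X : ℝ) ^ (1 - 1 / (n : ℝ) + 1 / (2 * n)) := by
    apply hX₁ X g1
    intro x hx
    obtain ⟨hx1, hx2⟩ := mem_filter.1 hx
    exact ⟨(hZ x hx1).1, (hZ x hx1).2, hx2⟩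
  have hb2 : (Z₂.card : ℝ) ≤ (X : ℝ) ^ (1 - ε / (4 * n)) := by
    apply hX₂ X g2
    intro x hx
    obtain ⟨hx1, hx2⟩ := mem_filter.1 hx
    exact ⟨(hZ x hx1).1, (hZ x hx1).2, hx2⟩
  have f0 : 1 - 1 / (n : ℝ) + 1 / (2 * n) = 1 - 1 / (2 * (n : ℝ)) := by
    field_simp
    ring
  rw [f0] at hb1
  have f1 : (X : ℝ) ^ (1 - 1 / (2 * (n : ℝ))) ≤ (X : ℝ) ^ (1 - 2 * δ) := Real.rpow_le_rpow_of_exponent_le hX1 (by linarith)
  have f2 : (X : ℝ) ^ (1 - ε / (4 * n)) ≤ (X : ℝ) ^ (1 - 2 * δ) := Real.rpow_le_rpow_of_exponent_le hX1 (by linarith)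
  have hZc : (Z.card : ℝ) = Z₁.card + Z₂.card := by exact_mod_cast hsplit.symm
  calc (Z.card : ℝ) = Z₁.card + Z₂.card := hZc
    _ ≤ 2 * (X : ℝ) ^ (1 - 2 * δ) := by linarith
    _ ≤ (X : ℝ) ^ δ * (X : ℝ) ^ (1 - 2 * δ) := mul_le_mul_of_nonneg_right g3 (by positivity)
    _ = (X : ℝ) ^ (1 - δ) := by
        rw [← Real.rpow_add hX0]
        congr 1
        ring

end Pool.MP_a95293_nt.TN
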